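import Pool.Agent.P.MP_7cb106_nt.T.IfaceA

/-! Steps AVG TRADD CHAR SUBQ DEV AUT. -/

section TAVG
set_option autoImplicit false

namespace Pool.Agent.P.MP_7cb106_nt.T

open Matrix Polynomial Module NumberField
open scoped TensorProduct ComplexOrder

lemma avg_fin {C G V : Type} [Field C] [Group G] [TopologicalSpace G] [IsTopologicalGroup G]
    [AddCommGroup V] [Module C V] (ρ : Representation C G V) (U : Subgroup G)
    (hU : IsCompact (U : Set G)) (hs : Smooth ρ) (v : V) :
    ((fun u => ρ u v) '' (U : Set G)).Finite := by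
  obtain ⟨t, -, ht⟩ := hU.elim_nhds_subcover (fun g => {u | ρ u v = ρ g v}) fun g _ => by
    have hc : Continuous fun u : G => g⁻¹ * u := by fun_prop
    refine Filter.mem_of_superset (((hs v).preimage hc).mem_nhds (by simp)) fun u hu => ?_
    have h1 : ρ (g⁻¹ * u) v = v := hu
    have h2 := congrArg (ρ g) h1
    rwa [← Module.End.mul_apply, ← map_mul, mul_inv_cancel_left] at h2
  refine (t.finite_toSet.image fun g => ρ g v).subset ?_
  rintro _ ⟨u, hu, rfl⟩
  obtain ⟨g, hg, h⟩ := Set.mem_iUnion₂.1 (ht hu)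
  exact ⟨g, hg, Eq.symm h⟩

theorem p_AVG :
    S_AVG := by
  intro C G V _ _ _ _ _ _ _ ρ U hU hs v
  have hf := avg_fin ρ U hU hs v
  have hm : ∀ w, w ∈ hf.toFinset ↔ ∃ u ∈ U, ρ u v = w := fun w => hf.mem_toFinset
  have hc : (hf.toFinset.card : C) ≠ 0 :=
    Nat.cast_ne_zero.2 (Finset.card_ne_zero.2 ⟨v, (hm v).2 ⟨1, U.one_mem, by simp⟩⟩)
  have hmap : ∀ u ∈ U, ∀ w ∈ hf.toFinset, ρ u w ∈ hf.toFinset := fun u hu w hw => by
    obtain ⟨g, hg, rfl⟩ := (hm w).1 hw
    exact (hm _).2 ⟨u * g, U.mul_mem hu hg, by simp⟩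
  refine ⟨(hf.toFinset.card : C)⁻¹ • ∑ w ∈ hf.toFinset, w, fun u hu => ?_, fun A hA => ?_⟩
  · rw [map_smul, map_sum]
    congr 1
    refine Finset.sum_nbij' (ρ u) (ρ u⁻¹) (hmap u hu) (hmap _ (U.inv_mem hu)) ?_ ?_ fun _ _ => rfl
    · intro w _
      rw [← Module.End.mul_apply, ← map_mul, inv_mul_cancel, map_one, Module.End.one_apply]
    · intro w _
      rw [← Module.End.mul_apply, ← map_mul, mul_inv_cancel, map_one, Module.End.one_apply]
  · have e : (hf.toFinset.card : C)⁻¹ • ∑ w ∈ hf.toFinset, w - v =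
        (hf.toFinset.card : C)⁻¹ • ∑ w ∈ hf.toFinset, (w - v) := by
      rw [Finset.sum_sub_distrib, Finset.sum_const, smul_sub, ← Nat.cast_smul_eq_nsmul C,
        inv_smul_smul₀ hc]
    rw [e]
    refine A.smul_mem _ (A.sum_mem fun w hw => ?_)
    obtain ⟨g, hg, rfl⟩ := (hm w).1 hw
    exact hA g hg

end Pool.Agent.P.MP_7cb106_nt.T

end TAVG

section TTRADD
set_option autoImplicit false

namespace Pool.Agent.P.MP_7cb106_nt.T

open Matrix Polynomial Module NumberField
open scoped TensorProduct ComplexOrder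

lemma tradd_exact {C A B D : Type} [Field C] [AddCommGroup A] [Module C A] [AddCommGroup B]
    [Module C B] [AddCommGroup D] [Module C D] [FiniteDimensional C A] [FiniteDimensional C B]
    [FiniteDimensional C D] (i : A →ₗ[C] B) (p : B →ₗ[C] D) (hi : Function.Injective i)
    (hp : Function.Surjective p) (hex : Function.Exact i p) (a : A →ₗ[C] A) (b : B →ₗ[C] B)
    (d : D →ₗ[C] D) (h1 : b ∘ₗ i = i ∘ₗ a) (h2 : p ∘ₗ b = d ∘ₗ p) :
    LinearMap.trace C B b = LinearMap.trace C A a + LinearMap.trace C D d := by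
  obtain ⟨s, hs⟩ := p.exists_rightInverse_of_surjective (LinearMap.range_eq_top.2 hp)
  have h3 : ∀ x, ∃ y, i y = x - s (p x) := fun x => (hex _).1 (by
    have := LinearMap.congr_fun hs (p x)
    simp only [LinearMap.comp_apply, LinearMap.id_apply] at this
    rw [map_sub, this, sub_self])
  obtain ⟨r0, hr0⟩ := i.exists_leftInverse_of_injective (LinearMap.ker_eq_bot.2 hi)
  let r : B →ₗ[C] A := r0 ∘ₗ (LinearMap.id - s ∘ₗ p)
  have h4 : i ∘ₗ r + s ∘ₗ p = LinearMap.id := by
    ext x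
    obtain ⟨y, hy⟩ := h3 x
    have := LinearMap.congr_fun hr0 y
    simp only [LinearMap.comp_apply, LinearMap.id_apply] at this
    simp only [r, LinearMap.add_apply, LinearMap.comp_apply, LinearMap.sub_apply,
      LinearMap.id_apply, ← hy, this]
    rw [hy, sub_add_cancel]
  have h5 : r ∘ₗ i = LinearMap.id := by
    ext y
    have := LinearMap.congr_fun hr0 y
    simp only [LinearMap.comp_apply, LinearMap.id_apply] at this
    simp [r, hex.apply_apply_eq_zero, this]
  calc LinearMap.trace C B b = LinearMap.trace C B ((b ∘ₗ i) ∘ₗ r + (b ∘ₗ s) ∘ₗ p) := by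
        rw [LinearMap.comp_assoc, LinearMap.comp_assoc, ← LinearMap.comp_add, h4,
          LinearMap.comp_id]
    _ = _ := by
        rw [map_add, LinearMap.trace_comp_comm' r, LinearMap.trace_comp_comm' p, h1,
          ← LinearMap.comp_assoc, h5, LinearMap.id_comp, ← LinearMap.comp_assoc, h2,
          LinearMap.comp_assoc, hs, LinearMap.comp_id]

theorem p_TRADD :
    S_TRADD := by
  intro C V V' _ _ _ _ _ φ f f' B hB hf hφ
  have h1 : ∀ x ∈ B ⊓ LinearMap.ker φ, f x ∈ B ⊓ LinearMap.ker φ := fun x hx =>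
    ⟨hf x hx.1, show φ (f x) = 0 by rw [hφ x hx.1, show φ x = 0 from hx.2, map_zero]⟩
  have h2 : ∀ x ∈ B.map φ, f' x ∈ B.map φ := by
    rintro _ ⟨x, hx, rfl⟩
    exact ⟨f x, hf x hx, hφ x hx⟩
  have : FiniteDimensional C ↥(B ⊓ LinearMap.ker φ) := Submodule.finiteDimensional_of_le inf_le_left
  rw [trOn_eq hf, trOn_eq h1, trOn_eq h2]
  refine tradd_exact (Submodule.inclusion inf_le_left) (φ.submoduleMap B)
    (Submodule.inclusion_injective _) (LinearMap.submoduleMap_surjective φ B) (fun x => ?_) _ _ _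
    rfl (LinearMap.ext fun x => Subtype.ext (hφ x.1 x.2))
  refine ⟨fun h => ⟨⟨x.1, x.2, congrArg Subtype.val h⟩, rfl⟩, ?_⟩
  rintro ⟨y, rfl⟩
  exact Subtype.ext y.2.2

end Pool.Agent.P.MP_7cb106_nt.T

end TTRADD

section TCHAR
set_option autoImplicit false

namespace Pool.Agent.P.MP_7cb106_nt.T

open Matrix Polynomial Module NumberField
open scoped TensorProduct ComplexOrder

lemma char_mem {C H S V : Type} [Field C] [Group H] [AddCommGroup S] [Module C S]
    [AddCommGroup V] [Module C V] {σ : Representation C H S}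
    {ρ : Representation C H V} {N : Subgroup H} (hσ : ∀ u ∈ N, σ u = 1)
    (f : Representation.IntertwiningMap σ ρ) (x : S) : f.toLinearMap x ∈ inv ρ N := by
  refine mem_inv.2 fun u hu => ?_
  have h := LinearMap.congr_fun (f.isIntertwining' u) x
  simp only [LinearMap.comp_apply, hσ u hu, Module.End.one_apply] at h
  exact h.symm

/-- intertwining maps into the invariants are intertwining maps into the whole space -/
noncomputable def char_equiv {C H S V : Type} [Field C] [Group H] [AddCommGroup S] [Module C S]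
    [AddCommGroup V] [Module C V] (σ : Representation C H S)
    (ρ : Representation C H V) (N : Subgroup H) [N.Normal] (hσ : ∀ u ∈ N, σ u = 1)
    [Representation.IsTrivial (σ.comp N.subtype)] :
    Representation.IntertwiningMap (σ.ofQuotient N) (ρ.quotientToInvariants N) ≃ₗ[C]
      Representation.IntertwiningMap σ ρ where
  toFun f := ⟨(inv ρ N).subtype ∘ₗ f.toLinearMap, fun g => by
    ext x
    have h := LinearMap.congr_fun (f.isIntertwining' (g : H ⧸ N)) x
    exact congrArg Subtype.val h⟩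
  map_add' f f' := by ext x; rfl
  map_smul' c f := by ext x; rfl
  invFun f := ⟨f.toLinearMap.codRestrict (inv ρ N) (char_mem hσ f), fun q => by
    induction q using QuotientGroup.induction_on with
    | H g =>
      ext x
      exact LinearMap.congr_fun (f.isIntertwining' g) x⟩
  left_inv f := by ext x; rfl
  right_inv f := by ext x; rfl

theorem p_CHAR :
    S_CHAR := by
  intro C H S V _ _ _ _ _ _ _ _ σ ρ N _ _ hσ hfd
  classical
  haveI : Fintype (H ⧸ N) := Fintype.ofFinite _
  have hc : (Nat.card (H ⧸ N) : C) ≠ 0 := Nat.cast_ne_zero.2 Nat.card_pos.ne'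
  haveI : Invertible (Nat.card (H ⧸ N) : C) := invertibleOfNonzero hc
  haveI : Representation.IsTrivial (σ.comp N.subtype) := ⟨fun g => hσ g.1 g.2⟩
  have key := Representation.card_inv_mul_sum_char_mul_char_eq_finrank (σ.ofQuotient N)
    (ρ.quotientToInvariants N)
  rw [(char_equiv σ ρ N hσ).finrank_eq] at key
  rw [← key, mul_inv_cancel_left₀ hc]
  unfold mu
  rw [finsum_eq_sum_of_fintype]
  refine Finset.sum_congr rfl fun q _ => ?_
  have hst : ∀ x ∈ inv ρ N, ρ q.out x ∈ inv ρ N := fun x hx =>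
    Representation.le_comap_invariants ρ N q.out hx
  rw [trOn_eq hst, mul_comm]
  have e1 : q = ((q.out : H) : H ⧸ N) := (QuotientGroup.out_eq' q).symm
  congr 1
  · conv_rhs => rw [e1]
    rfl
  · conv_rhs => rw [e1, ← QuotientGroup.mk_inv]
    rfl

end Pool.Agent.P.MP_7cb106_nt.T

end TCHAR

section TSUBQ
set_option autoImplicit false

namespace Pool.Agent.P.MP_7cb106_nt.T

open Matrix Polynomial Module NumberField
open scoped TensorProduct ComplexOrder

lemma subq_rep {C G V : Type} [Field C] [Group G] [AddCommGroup V] [Module C V]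
    (ρ : Representation C G V) (W1 W2 : Submodule C V) (h1 : ∀ g, ∀ x ∈ W1, ρ g x ∈ W1)
    (h2 : ∀ g, ∀ x ∈ W2, ρ g x ∈ W2) :
    ∃ (V' : Type) (_ : AddCommGroup V') (_ : Module C V') (π : Representation C G V')
      (φ : V →ₗ[C] V'), (∀ y, ∃ x ∈ W1, φ x = y) ∧
      (∀ x ∈ W1, φ x = 0 ↔ x ∈ W2) ∧ ∀ g, ∀ x ∈ W1, φ (ρ g x) = π g (φ x) := by
  obtain ⟨φ, hφ⟩ := LinearMap.exists_extend (W2.submoduleOf W1).mkQ
  have e : ∀ x (hx : x ∈ W1), φ x = (W2.submoduleOf W1).mkQ ⟨x, hx⟩ := fun x hx =>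
    LinearMap.congr_fun hφ ⟨x, hx⟩
  refine ⟨↥W1 ⧸ W2.submoduleOf W1, inferInstance, inferInstance,
    (ρ.subrepresentation W1 fun g x hx => h1 g x hx).quotient (W2.submoduleOf W1)
      (fun g x hx => h2 g x.1 hx), φ, fun y => ?_, fun x hx => ?_, fun g x hx => ?_⟩
  · obtain ⟨x, rfl⟩ := (W2.submoduleOf W1).mkQ_surjective y
    exact ⟨x.1, x.2, e x.1 x.2⟩
  · rw [e x hx, Submodule.mkQ_apply, Submodule.Quotient.mk_eq_zero]
    rfl
  · rw [e x hx, e _ (h1 g x hx)]
    rfl

/-- the stabiliser of a vector -/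
def subq_stab {C G V : Type} [Field C] [Group G] [AddCommGroup V] [Module C V]
    (ρ : Representation C G V) (v : V) : Subgroup G where
  carrier := {g | ρ g v = v}
  mul_mem' := by
    intro a b ha hb
    have ha' : ρ a v = v := ha
    have hb' : ρ b v = v := hb
    show ρ (a * b) v = v
    rw [map_mul, Module.End.mul_apply, hb', ha']
  one_mem' := by
    show ρ 1 v = v
    simp
  inv_mem' := by
    intro a ha
    have ha' : ρ a v = v := ha
    show ρ a⁻¹ v = v
    conv_lhs => rw [← ha']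
    rw [← Module.End.mul_apply, ← map_mul, inv_mul_cancel, map_one, Module.End.one_apply]

theorem p_SUBQ (hAVG : S_AVG) :
    S_SUBQ := by
  intro C G V _ _ _ _ _ _ _ ρ K0 hKo hKc hS hA A B hAi hBi hAB v hvB hvA
  let W1 : Submodule C V := A ⊔ Submodule.span C (Set.range fun g => ρ g v)
  have hmin : ∀ W : Submodule C V, (∀ g, ∀ x ∈ W, ρ g x ∈ W) → A ≤ W → v ∈ W → W1 ≤ W :=
    fun W hW hAW hv => sup_le hAW (Submodule.span_le.2 (by rintro _ ⟨g, rfl⟩; exact hW g v hv))
  have horb : ∀ g, ρ g v ∈ W1 := fun g => Submodule.mem_sup_right (Submodule.subset_span ⟨g, rfl⟩)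
  have hv1 : v ∈ W1 := by simpa using horb 1
  have h1 : ∀ g, ∀ x ∈ W1, ρ g x ∈ W1 := by
    intro g
    have : W1 ≤ W1.comap (ρ g) := by
      refine sup_le (fun x hx => Submodule.mem_sup_left (hAi g x hx)) (Submodule.span_le.2 ?_)
      rintro _ ⟨h, rfl⟩
      show ρ g (ρ h v) ∈ W1
      rw [← Module.End.mul_apply, ← map_mul]
      exact horb _
    exact this
  obtain ⟨W2, -, hmax⟩ := zorn_le_nonempty₀
    {W : Submodule C V | (∀ g, ∀ x ∈ W, ρ g x ∈ W) ∧ A ≤ W ∧ W ≤ W1 ∧ v ∉ W}
    (fun c hc hch y hy => by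
      have hm := fun z => Submodule.mem_sSup_of_directed (z := z) ⟨y, hy⟩ hch.directedOn
      refine ⟨sSup c, ⟨fun g x hx => ?_, (hc hy).2.1.trans (le_sSup hy),
        sSup_le fun W hW => (hc hW).2.2.1, fun hv => ?_⟩, fun z hz => le_sSup hz⟩
      · obtain ⟨W, hW, hx⟩ := (hm x).1 hx
        exact (hm _).2 ⟨W, hW, (hc hW).1 g x hx⟩
      · obtain ⟨W, hW, hx⟩ := (hm v).1 hv
        exact (hc hW).2.2.2 hx) A ⟨hAi, le_rfl, le_sup_left, hvA⟩
  obtain ⟨h2, hA2, h21, hv2⟩ := hmax.prop
  obtain ⟨V', _, _, π, φ, hs, hk, he⟩ := subq_rep ρ W1 W2 h1 h2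
  refine ⟨W1, W2, h1, h2, hA2, h21, hmin B hBi hAB hvB, hv1, hv2, V', inferInstance,
    inferInstance, π, φ, ?_, fun y => ?_, fun U hU => ?_, ?_, hk, he⟩
  · have hne : (⊥ : Subrepresentation π) ≠ ⊤ := by
      intro h
      have h3 : φ v ∈ (⊤ : Subrepresentation π).toSubmodule := Submodule.mem_top
      rw [← h] at h3
      exact hv2 ((hk v hv1).1 h3)
    have : Nontrivial (Subrepresentation π) := ⟨_, _, hne⟩
    refine ⟨fun S => ?_⟩
    let W : Submodule C V := W1 ⊓ S.toSubmodule.comap φ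
    have hW : ∀ g, ∀ x ∈ W, ρ g x ∈ W := fun g x hx =>
      ⟨h1 g x hx.1, by
        show φ (ρ g x) ∈ S.toSubmodule
        rw [he g x hx.1]
        exact S.apply_mem_toSubmodule g hx.2⟩
    have h2W : W2 ≤ W := fun x hx => ⟨h21 hx, by
      show φ x ∈ S.toSubmodule
      rw [(hk x (h21 hx)).2 hx]
      exact zero_mem _⟩
    by_cases hv : v ∈ W
    · refine Or.inr (top_unique fun y _ => ?_)
      obtain ⟨x, hx, rfl⟩ := hs y
      exact (hmin W hW (hA2.trans h2W) hv hx).2
    · refine Or.inl (bot_unique fun y hy => ?_)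
      obtain ⟨x, hx, rfl⟩ := hs y
      have h3 : W ≤ W2 := hmax.le_of_ge ⟨hW, hA2.trans h2W, inf_le_left, hv⟩ h2W
      exact (hk x hx).2 (h3 ⟨hx, hy⟩)
  · obtain ⟨x, hx, rfl⟩ := hs y
    refine Subgroup.isOpen_mono (H₁ := subq_stab ρ x) (H₂ := subq_stab π (φ x)) (fun g hg => ?_)
      (hS x)
    have hg' : ρ g x = x := hg
    show π g (φ x) = φ x
    rw [← he g x hx, hg']
  · have ho : IsOpen ((U ⊓ K0 : Subgroup G) : Set G) := hU.inter hKo
    have hc : IsCompact ((U ⊓ K0 : Subgroup G) : Set G) :=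
      hKc.of_isClosed_subset (Subgroup.isClosed_of_isOpen _ ho) fun x hx => hx.2
    have : FiniteDimensional C (inv ρ (U ⊓ K0)) := hA _ ho
    refine Submodule.finiteDimensional_of_le (S₂ := (inv ρ (U ⊓ K0)).map φ) fun y hy => ?_
    obtain ⟨x, hx, rfl⟩ := hs y
    obtain ⟨x', hx1, hx2⟩ := hAVG C G V ρ (U ⊓ K0) hc hS x
    have h3 : x' - x ∈ W2 := hx2 W2 fun u hu => by
      rw [← hk _ (W1.sub_mem (h1 u x hx) hx), map_sub, he u x hx, mem_inv.1 hy u hu.1, sub_self]
    refine ⟨x', mem_inv.2 hx1, ?_⟩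
    have h4 := (hk _ (h21 h3)).2 h3
    rwa [map_sub, sub_eq_zero] at h4
  · exact top_unique fun y _ => hs y

end Pool.Agent.P.MP_7cb106_nt.T

end TSUBQ

section TDEV
set_option autoImplicit false

namespace Pool.Agent.P.MP_7cb106_nt.T

open Matrix Polynomial Module NumberField
open scoped TensorProduct ComplexOrder

lemma dev_mem {C G V : Type} [Field C] [Group G] [AddCommGroup V] [Module C V]
    (ρ : Representation C G V) (K0 : Subgroup G) (N : Subgroup K0) (v : V) :
    v ∈ inv (ρ.comp K0.subtype) N ↔ ∀ u ∈ N.map K0.subtype, ρ u v = v := by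
  rw [mem_inv]
  constructor
  · rintro h _ ⟨u, hu, rfl⟩
    exact h u hu
  · intro h u hu
    exact h _ ⟨u, hu, rfl⟩

lemma dev_stab {C G V : Type} [Field C] [Group G] [AddCommGroup V] [Module C V]
    (ρ : Representation C G V) (K0 : Subgroup G) (N : Subgroup K0) [hN : N.Normal] (k : K0)
    {v : V} (hv : v ∈ inv (ρ.comp K0.subtype) N) : ρ k v ∈ inv (ρ.comp K0.subtype) N := by
  rw [mem_inv] at hv ⊢
  intro u hu
  have h1 : ρ ((k⁻¹ * u * k⁻¹⁻¹ : K0) : G) v = v := hv _ (hN.conj_mem u hu k⁻¹)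
  show ρ (u : G) (ρ (k : G) v) = ρ (k : G) v
  conv_rhs => rw [← h1]
  rw [← Module.End.mul_apply, ← Module.End.mul_apply, ← map_mul, ← map_mul]
  congr 2
  simp [mul_assoc]

theorem p_DEV (hAVG : S_AVG) (hTRADD : S_TRADD) (hSUBQ : S_SUBQ) :
    S_DEV := by
  intro C G _ _ _ _ _ K0 N _ θ hKo hKc hNo hirr V _ _ ρ hs ha
  have : CompactSpace K0 := isCompact_iff_compactSpace.1 hKc
  have : Finite (K0 ⧸ N) := Subgroup.quotient_finite_of_isOpen N hNo
  have hUo : IsOpen ((N.map K0.subtype : Subgroup G) : Set G) :=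
    hKo.isOpenMap_subtype_val _ hNo
  have hUc : IsCompact ((N.map K0.subtype : Subgroup G) : Set G) :=
    (N.isClosed_of_isOpen hNo).isCompact.image continuous_subtype_val
  set I := inv (ρ.comp K0.subtype) N with hI
  have hfd : FiniteDimensional C I := by
    have e : I = inv ρ (N.map K0.subtype) := by
      ext v
      rw [hI, dev_mem, mem_inv]
    rw [e]
    exact ha _ hUo
  have fd : ∀ A : Submodule C V, FiniteDimensional C ↥(A ⊓ I) := fun A =>
    Submodule.finiteDimensional_of_le inf_le_right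
  have mono : ∀ A B : Submodule C V, A ≤ B → finrank C ↥(A ⊓ I) ≤ finrank C ↥(B ⊓ I) :=
    fun A B h => Submodule.finrank_mono (inf_le_inf_right I h)
  have key : ∀ d : ℕ, ∀ A B : Submodule C V, (∀ g, ∀ x ∈ A, ρ g x ∈ A) →
      (∀ g, ∀ x ∈ B, ρ g x ∈ B) → A ≤ B → finrank C ↥(B ⊓ I) < finrank C ↥(A ⊓ I) + d →
      mu θ N (fun k => ρ k) (B ⊓ I) = mu θ N (fun k => ρ k) (A ⊓ I) := by
    intro d
    induction d with
    | zero =>
      intro A B _ _ h hd
      have := mono A B h
      omega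
    | succ d ih =>
      intro A B hA hB hAB hd
      by_cases h0 : B ⊓ I ≤ A
      · rw [le_antisymm (le_inf h0 inf_le_right) (inf_le_inf_right I hAB)]
      obtain ⟨v, hv, hvA⟩ := SetLike.not_le_iff_exists.1 h0
      obtain ⟨W1, W2, h1, h2, a2, a21, a1, v1, v2, V', _, _, π, φ, pi, ps, pa, top, ker, eqv⟩ :=
        hSUBQ C G V ρ K0 hKo hKc hs ha A B hA hB hAB v hv.1 hvA
      have lt : finrank C ↥(W2 ⊓ I) < finrank C ↥(W1 ⊓ I) := by
        apply Submodule.finrank_lt_finrank_of_lt
        refine lt_of_le_of_ne (inf_le_inf_right I a21) fun e => v2 ?_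
        have : v ∈ W2 ⊓ I := by
          rw [e]
          exact ⟨v1, hv.2⟩
        exact this.1
      have m1 := mono A W2 a2
      have m2 := mono W1 B a1
      rw [ih W1 B h1 hB a1 (by omega), ← ih A W2 hA h2 a2 (by omega)]
      have e1 : W1 ⊓ I ⊓ LinearMap.ker φ = W2 ⊓ I := by
        ext x
        constructor
        · rintro ⟨⟨x1, x2⟩, x3⟩
          exact ⟨(ker x x1).1 x3, x2⟩
        · rintro ⟨x1, x2⟩
          exact ⟨⟨a21 x1, x2⟩, (ker x (a21 x1)).2 x1⟩
      have e2 : (W1 ⊓ I).map φ = inv (π.comp K0.subtype) N := by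
        ext y
        rw [dev_mem]
        constructor
        · rintro ⟨x, ⟨x1, x2⟩, rfl⟩ u hu
          rw [← eqv u x x1, (dev_mem ρ K0 N x).1 x2 u hu]
        · intro hy
          have : y ∈ W1.map φ := by
            rw [top]
            trivial
          obtain ⟨x, x1, rfl⟩ := this
          obtain ⟨x', f1, f2⟩ := hAVG C G V ρ _ hUc hs x
          have f3 : x' - x ∈ W2 := f2 W2 fun u hu => by
            rw [← ker _ (W1.sub_mem (h1 u x x1) x1), map_sub, eqv u x x1, hy u hu, sub_self]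
          refine ⟨x', ⟨?_, (dev_mem ρ K0 N x').2 f1⟩, ?_⟩
          · simpa using W1.add_mem (a21 f3) x1
          · have := (ker _ (a21 f3)).2 f3
            rwa [map_sub, sub_eq_zero] at this
      have e3 : ∀ k : K0, trOn (W1 ⊓ I) (ρ k) =
          trOn (W2 ⊓ I) (ρ k) + trOn (inv (π.comp K0.subtype) N) (π k) := by
        intro k
        rw [← e1, ← e2]
        exact hTRADD C V V' φ (ρ k) (π k) (W1 ⊓ I) (fd W1)
          (fun x hx => ⟨h1 k x hx.1, dev_stab ρ K0 N k hx.2⟩) fun x hx => eqv k x hx.1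
      have e4 := hirr V' π pi ps pa
      unfold mu at e4 ⊢
      simp only [e3, mul_add]
      rw [finsum_add_distrib (Set.toFinite _) (Set.toFinite _), e4, add_zero]
  intro B hB
  rw [key (finrank C ↥(B ⊓ I) + 1) ⊥ B (by simp) hB bot_le (by omega), bot_inf_eq]
  unfold mu
  have : ∀ f : V →ₗ[C] V, trOn (⊥ : Submodule C V) f = 0 := by
    intro f
    rw [trOn_eq (by simp), Subsingleton.elim (f.restrict _) 0, map_zero]
  simp [this]

end Pool.Agent.P.MP_7cb106_nt.T

end TDEV

section TAUT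
set_option autoImplicit false

namespace Pool.Agent.P.MP_7cb106_nt.T

open Matrix Polynomial Module NumberField
open scoped TensorProduct ComplexOrder

/-- a compact set is covered by finitely many left cosets of an open subgroup -/
lemma aut_cover {G : Type} [Group G] [TopologicalSpace G] [IsTopologicalGroup G] {K : Set G}
    (hK : IsCompact K) {U : Subgroup G} (hU : IsOpen (U : Set G)) :
    ∃ S : Finset G, ∀ k ∈ K, ∃ s ∈ S, s⁻¹ * k ∈ U := by
  obtain ⟨S, hS⟩ := hK.elim_finite_subcover (fun s : G => {k | s⁻¹ * k ∈ U})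
    (fun s => hU.preimage (by fun_prop : Continuous fun k : G => s⁻¹ * k))
    fun k _ => Set.mem_iUnion.2 ⟨k, by simp [U.one_mem]⟩
  exact ⟨S, fun k hk => by simpa using hS hk⟩

theorem p_AUT :
    S_AUT := by
  classical
  intro C G _ _ _ _ Γ K0 _ hK ⟨T, hT⟩
  refine ⟨fun F => ?_, fun U hU => ?_⟩
  · obtain ⟨-, U, hU, h2⟩ := F.2
    let St : Subgroup G :=
      { carrier := {g | autRep C Γ g F = F}
        mul_mem' := fun {a b} ha hb => by
          have ha' : autRep C Γ a F = F := ha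
          have hb' : autRep C Γ b F = F := hb
          show autRep C Γ (a * b) F = F
          rw [map_mul, Module.End.mul_apply, hb', ha']
        one_mem' := by
          show autRep C Γ 1 F = F
          rw [map_one, Module.End.one_apply]
        inv_mem' := fun {a} ha => by
          have ha' : autRep C Γ a F = F := ha
          show autRep C Γ a⁻¹ F = F
          conv_lhs => rw [← ha']
          rw [← Module.End.mul_apply, ← map_mul, inv_mul_cancel, map_one, Module.End.one_apply] }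
    exact Subgroup.isOpen_mono (H₁ := U) (H₂ := St)
      (fun u hu => Subtype.ext (funext fun x => h2 u hu x)) hU
  · obtain ⟨S, hS⟩ := aut_cover hK hU
    let ev : inv (autRep C Γ) U →ₗ[C] (T × S → C) :=
      { toFun := fun F p => F.1.1 (p.1.1 * p.2.1)
        map_add' := fun _ _ => rfl
        map_smul' := fun _ _ => rfl }
    refine FiniteDimensional.of_injective ev fun F F' hF => ?_
    refine Subtype.ext (Subtype.ext (funext fun g => ?_))
    obtain ⟨γ, hγ, t, ht, k, hk, rfl⟩ := hT g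
    obtain ⟨s, hs, hu⟩ := hS k hk
    have h1 : F.1.1 (t * s) = F'.1.1 (t * s) := congrFun hF (⟨t, ht⟩, ⟨s, hs⟩)
    have h2 := congrFun (congrArg Subtype.val (mem_inv.1 F.2 _ hu)) (t * s)
    have h3 := congrFun (congrArg Subtype.val (mem_inv.1 F'.2 _ hu)) (t * s)
    rw [autRep_apply, mul_assoc, mul_inv_cancel_left] at h2 h3
    rw [mul_assoc, F.1.2.1 γ hγ, F'.1.2.1 γ hγ, h2, h3, h1]

end Pool.Agent.P.MP_7cb106_nt.T

end TAUT
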