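import Pool.Agent.P.MP_7cb106_nt.T.IfaceA

/-! Steps EIG GEO GLOB. -/

section TEIG
set_option autoImplicit false

namespace Pool.Agent.P.MP_7cb106_nt.T

open Matrix Polynomial Module NumberField
open scoped TensorProduct ComplexOrder

theorem eig_sup {C V : Type} [Field C] [CharZero C] [IsAlgClosed C] [AddCommGroup V] [Module C V]
    {D : V →ₗ[C] V} {W : Submodule C V} {r : ℕ} (hr : 0 < r) (h1 : D ^ r = 1)
    [FiniteDimensional C W] (hD : ∀ x ∈ W, D x ∈ W) :
    W = ⨆ ζ ∈ nthRootsFinset r (1 : C), Module.End.eigenspace D ζ ⊓ W := by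
  refine le_antisymm (fun x hx => ?_) (iSup₂_le fun _ _ => inf_le_right)
  have h2 : Module.End.IsSemisimple (D.restrict hD) := by
    refine Module.End.isSemisimple_of_squarefree_aeval_eq_zero
      (separable_X_pow_sub_C (1 : C) (Nat.cast_ne_zero.2 hr.ne') one_ne_zero).squarefree ?_
    rw [map_sub, map_pow, aeval_X, map_one, map_one, sub_eq_zero, Module.End.pow_restrict]
    ext y
    simp [h1]
  have h3 : (⟨x, hx⟩ : W) ∈ ⨆ μ, Module.End.eigenspace (D.restrict hD) μ := by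
    rw [h2.iSup_eigenspace_eq_top]
    trivial
  refine Submodule.iSup_induction _ (motive := fun y : W =>
    y.1 ∈ ⨆ ζ ∈ nthRootsFinset r (1 : C), Module.End.eigenspace D ζ ⊓ W) h3 ?_ (zero_mem _)
    fun _ _ => add_mem
  intro μ y hy
  have h4 : D y.1 = μ • y.1 := congrArg Subtype.val (Module.End.mem_eigenspace_iff.1 hy)
  by_cases h0 : y.1 = 0
  · rw [h0]
    exact zero_mem _
  have h5 := Module.End.HasEigenvector.pow_apply
    ⟨Module.End.mem_eigenspace_iff.2 h4, h0⟩ r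
  rw [h1, Module.End.one_apply] at h5
  have h6 : μ ^ r = 1 := smul_left_injective C h0 (by simpa using h5.symm)
  exact Submodule.mem_iSup_of_mem μ (Submodule.mem_iSup_of_mem
    ((mem_nthRootsFinset hr _).2 h6) ⟨Module.End.mem_eigenspace_iff.2 h4, y.2⟩)

theorem p_EIG :
    S_EIG := by
  intro C V _ _ _ _ _ D f W r hr h1 h2 _ hD hf
  have e : ∀ x, D (f x) = f (D x) := fun x => LinearMap.congr_fun h2 x
  have h3 : ∀ ζ, ∀ x ∈ Module.End.eigenspace D ζ ⊓ W, f x ∈ Module.End.eigenspace D ζ ⊓ W :=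
    fun ζ x hx => ⟨Module.End.mem_eigenspace_iff.2 (by
      rw [e, Module.End.mem_eigenspace_iff.1 hx.1, map_smul]), hf x hx.2⟩
  have h4 : ∀ ζ, ∀ x ∈ Module.End.eigenspace D ζ ⊓ W, (D * f) x = ζ • f x :=
    fun ζ x hx => Module.End.mem_eigenspace_iff.1 (h3 ζ x hx).1
  have h5 : ∀ ζ, Set.MapsTo (D * f) (Module.End.eigenspace D ζ ⊓ W : Submodule C V)
      (Module.End.eigenspace D ζ ⊓ W : Submodule C V) := fun ζ x hx => by
    rw [h4 ζ x hx]
    exact Submodule.smul_mem _ _ (h3 ζ x hx)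
  have : ∀ ζ, Module.Finite C (Module.End.eigenspace D ζ ⊓ W : Submodule C V) := fun _ =>
    Submodule.finiteDimensional_of_le inf_le_right
  rw [trOn_eq (f := D * f) fun x hx => hD _ (hf x hx),
    LinearMap.trace_eq_sum_trace_restrict_of_eq_biSup (nthRootsFinset r (1 : C))
      (((Module.End.eigenspaces_iSupIndep D).mono fun _ => inf_le_left).comp
        Subtype.val_injective) h5 W (eig_sup hr h1 hD)]
  refine Finset.sum_congr rfl fun ζ _ => ?_
  rw [trOn_eq (h3 ζ), ← smul_eq_mul ζ, ← map_smul]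
  exact congrArg _ (LinearMap.ext fun x => Subtype.ext (h4 ζ x.1 x.2))

end Pool.Agent.P.MP_7cb106_nt.T

end TEIG

section TGEO
set_option autoImplicit false

namespace Pool.Agent.P.MP_7cb106_nt.T

open Matrix Polynomial Module NumberField
open scoped TensorProduct ComplexOrder

lemma geo_tr {C V V' : Type} [Field C] [AddCommGroup V] [Module C V] [AddCommGroup V']
    [Module C V'] (ι : V' →ₗ[C] V) (hi : Function.Injective ι) (f : V →ₗ[C] V) (f' : V' →ₗ[C] V')
    (h : ∀ x, f (ι x) = ι (f' x)) : trOn (LinearMap.range ι) f = LinearMap.trace C V' f' := by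
  rw [trOn_eq (by rintro _ ⟨x, rfl⟩; exact ⟨_, (h x).symm⟩),
    ← LinearMap.trace_conj' f' (LinearEquiv.ofInjective ι hi)]
  congr 1
  refine LinearMap.ext fun y => ?_
  obtain ⟨x, rfl⟩ := (LinearEquiv.ofInjective ι hi).surjective y
  rw [LinearEquiv.conj_apply_apply, LinearEquiv.symm_apply_apply]
  exact Subtype.ext (h x)

lemma geo_fix {C X : Type} [Field C] [Finite X] (t : X → X) :
    LinearMap.trace C (X → C) (LinearMap.funLeft C C t) = Nat.card {x // t x = x} := by
  classical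
  have := Fintype.ofFinite X
  rw [LinearMap.trace_eq_matrix_trace C (Pi.basisFun C X), Nat.card_eq_fintype_card,
    Fintype.card_subtype]
  simp [Matrix.trace, Pi.single_apply]

/-- the double cosets -/
def geo_rel {G : Type} [Group G] (Γ K0 : Subgroup G) (N : Subgroup K0) : Setoid G where
  r x y := ∃ γ ∈ Γ, ∃ u ∈ N, y = γ * x * u
  iseqv := ⟨fun x => ⟨1, one_mem _, 1, one_mem _, by simp⟩, by
    rintro x _ ⟨γ, h, u, h', rfl⟩
    exact ⟨γ⁻¹, inv_mem h, u⁻¹, inv_mem h', by simp [mul_assoc]⟩, by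
    rintro x _ _ ⟨γ, h, u, h', rfl⟩ ⟨γ', k, u', k', rfl⟩
    exact ⟨γ' * γ, mul_mem k h, u * u', mul_mem h' k', by simp [mul_assoc]⟩⟩

theorem p_GEO :
    S_GEO := by
  intro C G _ _ _ _ Γ K0 N hN θ δ hδ hO hC hNo ⟨T, hT⟩ hR h1 h2
  have := isCompact_iff_compactSpace.1 hC
  have := Subgroup.quotient_finite_of_isOpen N hNo
  have := Fintype.ofFinite (K0 ⧸ N)
  let X := Quotient (geo_rel Γ K0 N)
  let mk : G → X := Quotient.mk _
  have : Finite X := Finite.of_surjective (fun p : T × (K0 ⧸ N) => mk (p.1 * p.2.out)) (by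
    rintro ⟨g⟩
    obtain ⟨γ, hγ, t, ht, k, hk, rfl⟩ := hT g
    obtain ⟨u, hu⟩ := QuotientGroup.mk_out_eq_mul N ⟨k, hk⟩
    exact ⟨(⟨t, ht⟩, (⟨k, hk⟩ : K0)), Quotient.sound ⟨γ, hγ, u.1⁻¹, inv_mem u.2,
      by simp [hu, mul_assoc]⟩⟩)
  have m1 : ∀ γ ∈ Γ, ∀ x, mk (γ * x) = mk x := fun γ hγ x =>
    Eq.symm (Quotient.sound ⟨γ, hγ, 1, one_mem _, by simp⟩)
  have m2 : ∀ u ∈ N, ∀ x, mk (x * u) = mk x := fun u hu x =>
    Eq.symm (Quotient.sound ⟨1, one_mem _, u, hu, by simp⟩)
  let t : K0 → X → X := fun k => Quotient.map (fun x => δ * x * k) (by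
    rintro x _ ⟨γ, h, u, h', rfl⟩
    exact ⟨_, hδ γ h, _, hN.conj_mem' u h' k, by simp [mul_assoc]⟩)
  let ι : (X → C) →ₗ[C] autV C Γ :=
    { toFun := fun F => ⟨fun x => F (mk x), fun γ hγ x => congrArg F (m1 γ hγ x),
          N.map K0.subtype, hO.isOpenMap_subtype_val _ hNo, by
          rintro _ ⟨u, hu, rfl⟩ x
          exact congrArg F (m2 u hu x)⟩
      map_add' := fun _ _ => rfl
      map_smul' := fun _ _ => rfl }
  have i1 : Function.Injective ι := fun F F' e => funext fun x => by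
    obtain ⟨x⟩ := x
    exact congrFun (congrArg Subtype.val e) x
  have i2 : inv ((autRep C Γ).comp K0.subtype) N = LinearMap.range ι := by
    ext F
    rw [mem_inv]
    constructor
    · intro h
      refine ⟨Quotient.lift F.1 ?_, rfl⟩
      rintro x _ ⟨γ, hγ, u, hu, rfl⟩
      rw [mul_assoc, F.2.1 γ hγ]
      exact (congrFun (congrArg Subtype.val (h u hu)) x).symm
    · rintro ⟨F, rfl⟩ u hu
      exact Subtype.ext (funext fun x => congrArg F (m2 u hu x))
  refine ⟨∑ q : K0 ⧸ N, Nat.card {x // t q.out x = x}, ?_, ?_⟩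
  · refine Finset.sum_pos' (fun _ _ => Nat.zero_le _) ⟨(δ⁻¹ : K0), Finset.mem_univ _, ?_⟩
    obtain ⟨u, hu⟩ := QuotientGroup.mk_out_eq_mul N δ⁻¹
    have : Nonempty {x // t ((δ⁻¹ : K0) : K0 ⧸ N).out x = x} :=
      ⟨mk 1, Quotient.sound ⟨1, one_mem _, u.1⁻¹, inv_mem u.2, by rw [hu]; simp⟩⟩
    exact Nat.card_pos
  · rw [mu, finsum_eq_sum_of_fintype, Nat.cast_sum, Finset.sum_mul]
    refine Finset.sum_congr rfl fun q _ => ?_
    rw [i2, geo_tr ι i1 _ (LinearMap.funLeft C C (t q.out)) fun _ => rfl, geo_fix, mul_comm]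
    rcases isEmpty_or_nonempty {x // t q.out x = x} with e | ⟨⟨⟨x⟩, e⟩⟩
    · simp
    obtain ⟨γ, hγ, u, hu, e⟩ := Quotient.exact e
    rw [← h1 _ _ (hR γ hγ x (u⁻¹ * q.out⁻¹) ?_), h2 _ (inv_mem hu)]
    rw [Subgroup.coe_mul, Subgroup.coe_inv, Subgroup.coe_inv, ← _root_.mul_inv_rev,
      eq_inv_iff_mul_eq_one, mul_assoc, mul_assoc, inv_mul_eq_one]
    simpa only [mul_assoc] using e

end Pool.Agent.P.MP_7cb106_nt.T

end TGEO

section TGLOB
set_option autoImplicit false

namespace Pool.Agent.P.MP_7cb106_nt.T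

open Matrix Polynomial Module NumberField
open scoped TensorProduct ComplexOrder

lemma glob_open {C H S : Type} [Field C] [Group H] [TopologicalSpace H] [AddCommGroup S]
    [Module C S] [FiniteDimensional C S] {σ : Representation C H S} (h : Smooth σ) :
    IsOpen (σ.ker : Set H) := by
  have e : (σ.ker : Set H) = ⋂ i, {g | σ g (finBasis C S i) = finBasis C S i} := by
    ext g
    simp only [SetLike.mem_coe, MonoidHom.mem_ker, Set.mem_iInter, Set.mem_ofPred_eq]
    exact ⟨fun hg i => by rw [hg]; rfl, fun hg => (finBasis C S).ext hg⟩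
  rw [e]
  exact isOpen_iInter_of_finite fun i => h _

lemma glob_fd {C G V : Type} [Field C] [Group G] [TopologicalSpace G] [AddCommGroup V]
    [Module C V] {π : Representation C G V} {K0 : Subgroup G} {N : Subgroup K0}
    (hK : IsOpen (K0 : Set G)) (hN : IsOpen (N : Set K0)) (h : Admissible π) :
    FiniteDimensional C (inv (π.comp K0.subtype) N) := by
  have e : inv (π.comp K0.subtype) N = inv π (N.map K0.subtype) := by
    ext v
    rw [mem_inv, mem_inv]
    exact ⟨fun hv _ ⟨u, hu, e⟩ => e ▸ hv u hu, fun hv u hu => hv _ ⟨u, hu, rfl⟩⟩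
  rw [e]
  exact h _ (hK.isOpenEmbedding_subtypeVal.isOpenMap _ hN)

lemma glob_stab {C H V : Type} [Field C] [Group H] [AddCommGroup V] [Module C V]
    (ρ : Representation C H V) (N : Subgroup H) [hN : N.Normal] (k : H) :
    ∀ x ∈ inv ρ N, ρ k x ∈ inv ρ N := fun x hx => mem_inv.2 fun u hu => by
  have h := mem_inv.1 hx _ (hN.conj_mem' u hu k)
  conv_rhs => rw [← h]
  rw [← Module.End.mul_apply, ← Module.End.mul_apply, ← map_mul, ← map_mul]
  simp only [mul_assoc, mul_inv_cancel_left]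

lemma glob_lin {C H V : Type} [Field C] [Group H] [AddCommGroup V] [Module C V] (θ θ' : H → C)
    (a b : C) (N : Subgroup H) [Finite (H ⧸ N)] (f : H → V →ₗ[C] V) (W : Submodule C V) :
    mu (fun k => a * θ k - b * θ' k) N f W = a * mu θ N f W - b * mu θ' N f W := by
  have := Fintype.ofFinite (H ⧸ N)
  simp only [mu, finsum_eq_sum_of_fintype, Finset.mul_sum, ← Finset.sum_sub_distrib]
  exact Finset.sum_congr rfl fun q _ => by ring

lemma glob_pow {C G : Type} [Field C] [Group G] [TopologicalSpace G] {Γ : Subgroup G} {δ : G}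
    (h : ∀ γ ∈ Γ, δ * γ * δ⁻¹ ∈ Γ) (n : ℕ) (F : autV C Γ) (x : G) :
    ((autD C Γ δ h ^ n) F).1 x = F.1 (δ ^ n * x) := by
  induction n generalizing x with
  | zero => simp
  | succ n ih => rw [pow_succ', Module.End.mul_apply, autD_apply, ih, pow_succ, mul_assoc]

lemma glob_conj {C H S : Type} [Field C] [Group H] [AddCommGroup S] [Module C S]
    (σ : Representation C H S) {k k' : H} (h : IsConj k k') :
    LinearMap.trace C S (σ k) = LinearMap.trace C S (σ k') := by
  obtain ⟨c, rfl⟩ := isConj_iff.1 h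
  exact (σ.char_conj k c).symm

theorem p_GLOB (hCHAR : S_CHAR) (hDEV : S_DEV) (hAUT : S_AUT) (hEIG : S_EIG) (hGEO : S_GEO) :
    S_GLOB := by
  intro C G S S' _ _ _ _ _ _ _ _ _ _ _ _ Γ K0 σ σ' m m' δ r hK hc hσ hσ' hyp hcof hδ hrig hr hδr
  let N : Subgroup K0 := σ.ker ⊓ σ'.ker
  have hN : IsOpen (N : Set K0) := (glob_open hσ).inter (glob_open hσ')
  have : CompactSpace K0 := isCompact_iff_compactSpace.1 hc
  have : Finite (K0 ⧸ N) := N.quotient_finite_of_isOpen hN
  let θ : K0 → C := fun k => m' * LinearMap.trace C S (σ k) - m * LinearMap.trace C S' (σ' k)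
  obtain ⟨hs, ha⟩ := hAUT C G Γ K0 hK hc hcof
  have hdev := hDEV C G K0 N θ hK hc hN (fun V _ _ π h1 h2 h3 => by
    have hfd := glob_fd hK hN h3
    have e1 := hCHAR C K0 S V σ (π.comp K0.subtype) N (fun u hu => hu.1) hfd
    have e2 := hCHAR C K0 S' V σ' (π.comp K0.subtype) N (fun u hu => hu.2) hfd
    have e3 := congrArg (Nat.cast : ℕ → C) (hyp V π h1 h2 h3)
    push_cast at e3
    refine (glob_lin _ _ _ _ N _ _).trans ?_
    erw [e1, e2]
    linear_combination (Nat.card (K0 ⧸ N) : C) * e3) _ _ hs ha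
  obtain ⟨a, ha0, hgeo⟩ := hGEO C G Γ K0 N θ δ hδ hK hc hN hcof hrig
    (fun k k' h => by simp only [θ, glob_conj σ h, glob_conj σ' h]) (fun u hu k => by
      simp only [θ, map_mul, MonoidHom.mem_ker.1 hu.1, MonoidHom.mem_ker.1 hu.2, one_mul])
  have hcomm (g : G) : autD C Γ δ hδ * autRep C Γ g = autRep C Γ g * autD C Γ δ hδ := by
    ext F x
    simp only [Module.End.mul_apply, autD_apply, autRep_apply, mul_assoc]
  have hD : autD C Γ δ hδ ^ r = 1 := by
    ext F x
    rw [glob_pow, ← Subgroup.coe_pow, hδr]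
    simp
  have hW : ∀ x ∈ inv ((autRep C Γ).comp K0.subtype) N,
      autD C Γ δ hδ x ∈ inv ((autRep C Γ).comp K0.subtype) N := fun x hx =>
    mem_inv.2 fun u hu => (LinearMap.congr_fun (hcomm u) x).symm.trans
      (congrArg (autD C Γ δ hδ) (mem_inv.1 hx u hu))
  have h0 : (a : C) * θ δ = 0 := by
    have := Fintype.ofFinite (K0 ⧸ N)
    have h1 (ζ : C) := hdev (Module.End.eigenspace (autD C Γ δ hδ) ζ) fun g x hx => by
      rw [Module.End.mem_eigenspace_iff] at hx ⊢
      exact (LinearMap.congr_fun (hcomm g) x).trans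
        ((congrArg (autRep C Γ g) hx).trans (map_smul _ _ _))
    have h2 (k : K0) := hEIG C _ _ (autRep C Γ k) _ r hr hD (hcomm k) (glob_fd hK hN ha) hW
      (glob_stab ((autRep C Γ).comp K0.subtype) N k)
    rw [← hgeo]
    simp only [mu, finsum_eq_sum_of_fintype] at h1 ⊢
    simp only [h2, Finset.mul_sum]
    rw [Finset.sum_comm]
    refine Finset.sum_eq_zero fun ζ _ => ?_
    simp only [mul_left_comm _ ζ, ← Finset.mul_sum, h1, mul_zero]
  exact sub_eq_zero.1 ((mul_eq_zero.1 h0).resolve_left (Nat.cast_ne_zero.2 ha0.ne'))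

end Pool.Agent.P.MP_7cb106_nt.T

end TGLOB
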