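import Pool.Agent.P.MP_7cb106_nt.T.IfaceA

/-! Steps IVT HEN TR BAS REV FLD CMF. -/

section TIVT
set_option autoImplicit false

namespace Pool.Agent.P.MP_7cb106_nt.T

open Matrix Polynomial Module NumberField
open scoped TensorProduct ComplexOrder

lemma ivt_root {G : ℝ → ℝ} (c : Continuous G) {a b : ℝ} (hab : a ≤ b) (h : G a * G b < 0) :
    ∃ y ∈ Set.Ioo a b, G y = 0 := by
  rcases mul_neg_iff.1 h with ⟨h1, h2⟩ | ⟨h1, h2⟩
  · exact intermediate_value_Ioo' hab c.continuousOn ⟨h2, h1⟩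
  · exact intermediate_value_Ioo hab c.continuousOn ⟨h1, h2⟩

lemma ivt_ne (k i : ℕ) : (k : ℝ) - 1 / 2 - i ≠ 0 := fun h => by
  have : (2 * k : ℝ) = 2 * i + 1 := by linarith
  have : 2 * k = 2 * i + 1 := by exact_mod_cast this
  omega

lemma ivt_sign {d k : ℕ} (hk : k < d) :
    (∏ i ∈ Finset.range d, ((k : ℝ) - 1 / 2 - i)) *
      ∏ i ∈ Finset.range d, (((k + 1 : ℕ) : ℝ) - 1 / 2 - i) < 0 := by
  rw [← Finset.prod_mul_distrib, ← Finset.mul_prod_erase _ _ (Finset.mem_range.2 hk)]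
  refine mul_neg_of_neg_of_pos (by push_cast; linarith) (Finset.prod_pos fun i hi => ?_)
  push_cast
  rcases lt_or_gt_of_ne (Finset.ne_of_mem_erase hi) with h | h
  · have : (i : ℝ) + 1 ≤ k := by exact_mod_cast h
    exact mul_pos (by linarith) (by linarith)
  · have : (k : ℝ) + 1 ≤ i := by exact_mod_cast h
    exact mul_pos_of_neg_of_neg (by linarith) (by linarith)

theorem p_IVT :
    S_IVT := by
  intro f d hf
  let H : ℕ → ℝ := fun k => ∏ i ∈ Finset.range d, ((k : ℝ) - 1 / 2 - i)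
  let F : ℕ → ℝ := fun k => aeval ((k : ℝ) - 1 / 2) f
  have ev : ∀ᶠ t : ℕ in Filter.atTop, ∀ k ∈ Finset.range (d + 1), 0 < (F k + t * H k) * H k := by
    refine (Filter.eventually_all_finset _).2 fun k _ => ?_
    have p : 0 < H k * H k := mul_self_pos.2 (Finset.prod_ne_zero_iff.2 fun i _ => ivt_ne k i)
    filter_upwards [(tendsto_natCast_atTop_atTop.atTop_mul_const p).eventually_gt_atTop
      (-(F k * H k))] with t ht
    linarith
  obtain ⟨t0, ht0⟩ := Filter.eventually_atTop.1 ev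
  refine ⟨t0, fun t ht => ?_⟩
  have pos := ht0 t ht
  set g := f + C (t : ℤ) * ∏ i ∈ Finset.range d, (X - C (i : ℤ)) with hg
  have val : ∀ k : ℕ, aeval ((k : ℝ) - 1 / 2) g = F k + t * H k := fun k => by
    simp [hg, F, H, map_prod]
  have g0 : g ≠ 0 := fun e => by
    have := pos 0 (by simp)
    rw [← val, e] at this
    simp at this
  have dg : g.natDegree ≤ d := by
    refine natDegree_add_le_of_degree_le hf ((natDegree_C_mul_le _ _).trans
      ((natDegree_prod_le _ _).trans ?_))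
    simpa only [Finset.card_range, smul_eq_mul, mul_one] using
      Finset.sum_le_card_nsmul (Finset.range d) _ 1 fun i _ => natDegree_X_sub_C_le (i : ℤ)
  have rt : ∀ k : Fin d, ∃ y : ℝ, y ∈ Set.Ioo ((k : ℝ) - 1 / 2) (((k + 1 : ℕ) : ℝ) - 1 / 2) ∧
      aeval y g = 0 := fun k => by
    refine ivt_root (G := fun y => aeval y g) (Polynomial.continuous_aeval g)
      (by push_cast; linarith) ?_
    have a := pos k (Finset.mem_range.2 (by omega))
    have b := pos (k + 1) (Finset.mem_range.2 (by omega))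
    have c : H k * H (k + 1) < 0 := ivt_sign k.2
    simp only [val]
    exact neg_of_mul_pos_left ((mul_pos a b).trans_eq (mul_mul_mul_comm _ _ _ _)) c.le
  choose y hy hy0 using rt
  refine ⟨g0, fun z hz => by_contra fun hi => ?_⟩
  have inj : Function.Injective fun k => (y k : ℂ) := fun k l e => by
    have e' : y k = y l := Complex.ofReal_injective e
    have a := hy k
    have b := hy l
    rw [e'] at a
    push_cast at a b
    have c1 : (k : ℝ) < l + 1 := by linarith [a.1, b.2]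
    have c2 : (l : ℝ) < k + 1 := by linarith [a.2, b.1]
    have c1' : (k : ℕ) < l + 1 := by exact_mod_cast c1
    have c2' : (l : ℕ) < k + 1 := by exact_mod_cast c2
    exact Fin.ext (by omega)
  refine (Polynomial.map_ne_zero_iff (f := algebraMap ℤ ℂ) (RingHom.injective_int _)).2 g0 ?_
  refine eq_zero_of_natDegree_lt_card_of_eval_eq_zero' _
    (insert z (Finset.univ.image fun k => (y k : ℂ))) (fun w hw => ?_) ?_
  · rw [eval_map_algebraMap]
    rcases Finset.mem_insert.1 hw with rfl | hw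
    · exact hz
    · obtain ⟨k, -, rfl⟩ := Finset.mem_image.1 hw
      have := aeval_algebraMap_apply ℂ (y k) g
      rw [hy0, map_zero] at this
      exact this
  · rw [Finset.card_insert_of_notMem, Finset.card_image_of_injective _ inj, Finset.card_fin]
    · exact Nat.lt_succ_of_le (natDegree_map_le.trans dg)
    · intro hw
      obtain ⟨k, -, rfl⟩ := Finset.mem_image.1 hw
      exact hi (Complex.ofReal_im _)

end Pool.Agent.P.MP_7cb106_nt.T

end TIVT

section THEN
set_option autoImplicit false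

namespace Pool.Agent.P.MP_7cb106_nt.T

open Matrix Polynomial Module NumberField
open scoped TensorProduct ComplexOrder

lemma hen_eval {K : Type} [Field K] {d : ℕ} {g : K[X]} (h : g.natDegree ≤ d) (y : K) :
    ∑ i : Fin (d + 1), g.coeff i * y ^ (i : ℕ) = g.eval y := by
  rw [eval_eq_sum_range' (Nat.lt_succ_of_le h),
    Fin.sum_univ_eq_sum_range (fun i => g.coeff i * y ^ i) (d + 1)]

theorem p_HEN :
    S_HEN := by
  intro K _ _ f α d hd h0 h1 ε hε
  set c₀ : Fin (d + 1) → K := fun i => f.coeff i with hc₀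
  set P : (Fin (d + 1) → K) × K → K := fun p => ∑ i, p.1 i * p.2 ^ (i : ℕ) with hP
  have hA : AnalyticAt K P (c₀, α) := by
    refine Finset.analyticAt_fun_sum _ fun i _ => AnalyticAt.mul ?_ (analyticAt_snd.pow _)
    exact ((ContinuousLinearMap.proj i : (Fin (d + 1) → K) →L[K] K).comp
      (ContinuousLinearMap.fst K _ K)).analyticAt _
  have hS := hA.hasStrictFDerivAt
  set L := fderiv K P (c₀, α) with hL
  have hL1 : L (0, 1) = f.derivative.eval α := by
    have h2 : HasDerivAt (fun y : K => ((c₀, y) : (Fin (d + 1) → K) × K)) (0, 1) α :=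
      (hasDerivAt_const α c₀).prodMk (hasDerivAt_id α)
    have h3 := hS.hasFDerivAt.comp_hasDerivAt α h2
    have e : (P ∘ fun y : K => ((c₀, y) : (Fin (d + 1) → K) × K)) = fun y => f.eval y :=
      funext fun y => hen_eval hd y
    rw [e] at h3
    exact h3.unique (f.hasDerivAt α)
  have hΦ : HasStrictFDerivAt (fun p : (Fin (d + 1) → K) × K => (p.1, P p))
      ((ContinuousLinearMap.fst K _ K).prod L) (c₀, α) := hasStrictFDerivAt_fst.prodMk hS
  have hsurj : LinearMap.range (((ContinuousLinearMap.fst K (Fin (d + 1) → K) K).prod L :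
      _ →L[K] _) : ((Fin (d + 1) → K) × K) →ₗ[K] ((Fin (d + 1) → K) × K)) = ⊤ := by
    rw [LinearMap.range_eq_top]
    rintro ⟨a, b⟩
    refine ⟨(a, 0) + ((b - L (a, 0)) / L (0, 1)) • (0, 1), ?_⟩
    have h4 : L ((a, 0) + ((b - L (a, 0)) / L (0, 1)) • (0, 1)) = b := by
      rw [map_add, map_smul, smul_eq_mul, div_mul_cancel₀ _ (hL1 ▸ h1), add_sub_cancel]
    refine Prod.ext ?_ h4
    simp
  have hmap := hΦ.map_nhds_eq_of_surj hsurj
  have hU : {p : (Fin (d + 1) → K) × K | ‖p.2 - α‖ < ε} ∈ nhds (c₀, α) :=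
    (isOpen_lt (by fun_prop) continuous_const).mem_nhds (by simpa using hε)
  have h5 := Filter.image_mem_map (m := fun p : (Fin (d + 1) → K) × K => (p.1, P p)) hU
  rw [hmap] at h5
  obtain ⟨η, hη, hb⟩ := Metric.mem_nhds_iff.1 h5
  refine ⟨η, hη, fun g hg hc => ?_⟩
  have h6 : P (c₀, α) = 0 := (hen_eval hd α).trans h0
  have h7 : ((fun i : Fin (d + 1) => g.coeff i), (0 : K)) ∈
      Metric.ball ((c₀, α).1, P (c₀, α)) η := by
    rw [Metric.mem_ball, Prod.dist_eq, h6, dist_self, max_lt_iff, dist_pi_lt_iff hη]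
    exact ⟨fun i => by rw [dist_eq_norm]; exact hc i, hη⟩
  obtain ⟨⟨c, y⟩, hy, e⟩ := hb h7
  obtain ⟨e1, e2⟩ := Prod.mk.inj e
  refine ⟨y, hy, ?_⟩
  rw [← hen_eval hg y, ← e2]
  simp only [hP] at e1 ⊢
  rw [e1]

end Pool.Agent.P.MP_7cb106_nt.T

end THEN

section TTR
set_option autoImplicit false

namespace Pool.Agent.P.MP_7cb106_nt.T

open Matrix Polynomial Module NumberField
open scoped TensorProduct ComplexOrder

theorem tr_appr (p : ℕ) [Fact p.Prime] (c : ℚ_[p]) (hc : ‖c‖ ≤ 1) (η : ℝ) (hη : 0 < η) :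
    ∃ z : ℤ, ‖(z : ℚ_[p]) - c‖ < η := by
  obtain ⟨c', rfl⟩ : ∃ c' : ℤ_[p], (c' : ℚ_[p]) = c := ⟨⟨c, hc⟩, rfl⟩
  obtain ⟨z, hz⟩ := (PadicInt.denseRange_intCast (p := p)).exists_dist_lt c' hη
  refine ⟨z, ?_⟩
  rw [dist_comm, dist_eq_norm, PadicInt.norm_def, PadicInt.coe_sub, PadicInt.coe_intCast] at hz
  exact hz

theorem tr_poly (p : ℕ) [Fact p.Prime] (m : ℚ_[p][X]) (hm : ∀ i, ‖m.coeff i‖ ≤ 1) (η : ℝ)
    (hη : 0 < η) :
    ∃ f : ℤ[X], f.natDegree ≤ m.natDegree ∧ ∀ i, ‖(f.coeff i : ℚ_[p]) - m.coeff i‖ < η := by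
  choose z hz using fun i => tr_appr p (m.coeff i) (hm i) η hη
  refine ⟨∑ i ∈ Finset.range (m.natDegree + 1), monomial i (z i), ?_, fun i => ?_⟩
  · refine natDegree_sum_le_of_forall_le _ _ fun i hi => ?_
    exact (natDegree_monomial_le _).trans (Nat.lt_succ_iff.1 (Finset.mem_range.1 hi))
  · rw [finsetSum_coeff]
    simp only [coeff_monomial, Finset.sum_ite_eq', Finset.mem_range]
    split_ifs with h
    · exact hz i
    · rw [coeff_eq_zero_of_natDegree_lt (by omega)]
      simpa using hη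

theorem tr_scale (p : ℕ) [Fact p.Prime] (m : ℚ_[p][X]) :
    ∃ a : ℚ_[p], a ≠ 0 ∧ ∀ i, ‖(C a * m).coeff i‖ ≤ 1 := by
  set M : ℝ := ∑ i ∈ m.support, ‖m.coeff i‖ with hM
  have h0 : 0 ≤ M := Finset.sum_nonneg fun _ _ => norm_nonneg _
  obtain ⟨a, ha, ha'⟩ := NormedField.exists_norm_lt ℚ_[p] (r := 1 / (M + 1)) (by positivity)
  refine ⟨a, norm_pos_iff.1 ha, fun i => ?_⟩
  have h1 : ‖m.coeff i‖ ≤ M := by
    by_cases hi : i ∈ m.support
    · exact Finset.single_le_sum (f := fun i => ‖m.coeff i‖) (fun _ _ => norm_nonneg _) hi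
    · rw [notMem_support_iff.1 hi, norm_zero]; exact h0
  rw [coeff_C_mul, norm_mul]
  rw [lt_div_iff₀ (by positivity)] at ha'
  nlinarith [norm_nonneg (m.coeff i)]

theorem p_TR (hIVT : S_IVT) (hHEN : S_HEN) :
    S_TR := by
  intro p _ K _ _ _ _
  have : CompleteSpace K := FiniteDimensional.complete ℚ_[p] K
  rw [Metric.dense_iff]
  intro x ε hε
  have hint : IsIntegral ℚ_[p] x := IsIntegral.of_finite ℚ_[p] x
  have hsep : (minpoly ℚ_[p] x).Separable := (minpoly.irreducible hint).separable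
  obtain ⟨a, ha, hb⟩ := tr_scale p (minpoly ℚ_[p] x)
  set m : ℚ_[p][X] := C a * minpoly ℚ_[p] x with hm
  have h1 : (m.map (algebraMap ℚ_[p] K)).eval x = 0 := by
    rw [eval_map_algebraMap, hm, map_mul, minpoly.aeval, mul_zero]
  have h2 : (m.map (algebraMap ℚ_[p] K)).derivative.eval x ≠ 0 := by
    rw [derivative_map, eval_map_algebraMap, hm, derivative_C_mul, map_mul, aeval_C]
    exact mul_ne_zero ((_root_.map_ne_zero _).2 ha)
      (hsep.aeval_derivative_ne_zero (minpoly.aeval ℚ_[p] x))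
  obtain ⟨η, hη, hg⟩ := hHEN K (m.map (algebraMap ℚ_[p] K)) x m.natDegree natDegree_map_le h1 h2
    ε hε
  obtain ⟨f, hf, hfc⟩ := tr_poly p m hb η hη
  obtain ⟨t0, ht⟩ := hIVT f m.natDegree hf
  have hp1 : ‖(p : ℚ_[p])‖ < 1 := Padic.norm_p_lt_one
  have hev : ∀ᶠ k : ℕ in Filter.atTop, ‖(p : ℚ_[p])‖ ^ k < η :=
    (tendsto_pow_atTop_nhds_zero_of_lt_one (norm_nonneg _) hp1).eventually (gt_mem_nhds hη)
  obtain ⟨k, hk, hk0⟩ := (hev.and (Filter.eventually_ge_atTop t0)).exists
  have hk1 : t0 ≤ p ^ k := hk0.trans (Nat.lt_pow_self (Fact.out : p.Prime).one_lt).le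
  obtain ⟨h3, h4⟩ := ht (p ^ k) hk1
  set Q : ℤ[X] := ∏ i ∈ Finset.range m.natDegree, (X - C (i : ℤ)) with hQ
  have hQd : Q.natDegree ≤ m.natDegree := by
    refine (natDegree_prod_le _ _).trans ?_
    simp only [natDegree_X_sub_C, Finset.sum_const, Finset.card_range, smul_eq_mul, mul_one, le_refl]
  set F : ℤ[X] := f + C ((p ^ k : ℕ) : ℤ) * Q with hF
  have hFd : F.natDegree ≤ m.natDegree :=
    natDegree_add_le_of_degree_le hf ((natDegree_C_mul_le _ _).trans hQd)
  obtain ⟨y, hy, hy0⟩ := hg (F.map (algebraMap ℤ K)) (natDegree_map_le.trans hFd) (fun i => by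
    have e : (F.map (algebraMap ℤ K)).coeff i - (m.map (algebraMap ℚ_[p] K)).coeff i =
        algebraMap ℚ_[p] K (((f.coeff i : ℚ_[p]) - m.coeff i) +
          (p : ℚ_[p]) ^ k * (Q.coeff i : ℚ_[p])) := by
      rw [coeff_map, coeff_map, hF, coeff_add, coeff_C_mul]
      simp only [map_add, map_sub, map_mul, map_pow, map_natCast, map_intCast, eq_intCast,
        Nat.cast_pow]
      ring
    rw [e, norm_algebraMap']
    refine (IsUltrametricDist.norm_add_le_max _ _).trans_lt (max_lt (hfc i) ?_)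
    rw [norm_mul, norm_pow]
    exact (mul_le_of_le_one_right (by positivity) (Padic.norm_int_le_one _)).trans_lt hk)
  refine ⟨y, by rwa [Metric.mem_ball, dist_eq_norm], F, h3, ?_, h4⟩
  rwa [eval_map_algebraMap] at hy0

end Pool.Agent.P.MP_7cb106_nt.T

end TTR

section TBAS
set_option autoImplicit false

namespace Pool.Agent.P.MP_7cb106_nt.T

open Matrix Polynomial Module NumberField
open scoped TensorProduct ComplexOrder

lemma bas_root (p : ℕ) [Fact p.Prime] : ∃ z : ℤ_[p], z ^ 2 - z + p = 0 ∧ ‖z‖ < 1 := by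
  have hd : (derivative (X ^ 2 - X + C (p : ℤ_[p]) : ℤ_[p][X])).aeval (0 : ℤ_[p]) = -1 := by
    simp
  have hp : ‖(p : ℤ_[p])‖ < 1 := by
    rw [PadicInt.norm_p]; exact inv_lt_one_of_one_lt₀ (by exact_mod_cast (Fact.out : p.Prime).one_lt)
  obtain ⟨z, h1, h2, -⟩ := hensels_lemma (F := (X ^ 2 - X + C (p : ℤ_[p]) : ℤ_[p][X]))
    (a := (0 : ℤ_[p])) (by rw [hd]; simpa using hp)
  rw [hd] at h2
  exact ⟨z, by simpa using h1, by simpa using h2⟩

theorem p_BAS (hTR : S_TR) :
    S_BAS := by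
  intro p _ K _ _ _ _
  constructor
  · have hd := hTR p K
    have h1 : Submodule.span ℚ_[p] {y : K | TotReal y} = ⊤ := by
      have hc := (Submodule.span ℚ_[p] {y : K | TotReal y}).closed_of_finiteDimensional
      refine Submodule.eq_top_iff'.2 fun x => ?_
      have : x ∈ closure (Submodule.span ℚ_[p] {y : K | TotReal y} : Set K) :=
        (hd.mono Submodule.subset_span) x
      rwa [hc.closure_eq] at this
    obtain ⟨s, hs, h2⟩ := (Submodule.fg_span_iff_fg_span_finset_subset (R := ℚ_[p])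
      {y : K | TotReal y}).1 (IsNoetherian.noetherian _)
    refine ⟨s, fun y hy => hs hy, fun B hB x => ?_⟩
    have ha : ∀ c : ℚ_[p], algebraMap ℚ_[p] K c ∈ B.topologicalClosure := by
      intro c
      induction c using (Padic.denseRange_ratCast p).induction_on with
      | hp => exact B.isClosed_topologicalClosure.preimage (continuous_algebraMap _ _)
      | ih q => rw [map_ratCast]; exact SubfieldClass.ratCast_mem _ q
    have hx : x ∈ Submodule.span ℚ_[p] (s : Set K) := by rw [← h2, h1]; trivial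
    change x ∈ B.topologicalClosure
    induction hx using Submodule.span_induction with
    | mem y hy => exact B.le_topologicalClosure (hB hy)
    | zero => exact zero_mem _
    | add y z _ _ hy hz => exact add_mem hy hz
    | smul c y _ hy => rw [Algebra.smul_def]; exact mul_mem (ha c) hy
  · obtain ⟨z, h1, h2⟩ := bas_root p
    have h3 : ‖algebraMap ℚ_[p] K z‖ < 1 := by rw [norm_algebraMap']; exact h2
    refine ⟨algebraMap ℚ_[p] K z, ?_, h3, ?_⟩
    · have : (z : ℚ_[p]) ^ 2 - z + p = 0 := by exact_mod_cast congrArg ((↑) : ℤ_[p] → ℚ_[p]) h1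
      have := congrArg (algebraMap ℚ_[p] K) this
      simpa using this
    · rw [sub_eq_add_neg, IsUltrametricDist.norm_add_eq_max_of_norm_ne_norm
        (by rw [norm_one, norm_neg]; exact h3.ne'), norm_one, norm_neg, max_eq_left h3.le]

end Pool.Agent.P.MP_7cb106_nt.T

end TBAS

section TREV
set_option autoImplicit false

namespace Pool.Agent.P.MP_7cb106_nt.T

open Matrix Polynomial Module NumberField
open scoped TensorProduct ComplexOrder

lemma rev_lin {z : ℂ} (h : ‖z‖ = 1) :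
    (X - C z).map (starRingEnd ℂ) * C ((X - C z).coeff 0) = (X - C z).reverse := by
  have e : starRingEnd ℂ z * z = 1 := by
    rw [Complex.conj_mul', h]; simp
  have r : (X - C z).reverse = 1 - C z * X := by
    rw [sub_eq_add_neg, ← C_neg, reverse_add_C, natDegree_X, C_neg, ← one_mul (X : ℂ[X]),
      reverse_mul_X, ← C_1, reverse_C]
    simp [sub_eq_add_neg]
  have e' : (C (starRingEnd ℂ z) * C z : ℂ[X]) = 1 := by rw [← C_mul, e, C_1]
  rw [r]
  simp only [Polynomial.map_sub, map_X, map_C, coeff_sub, coeff_X_zero, coeff_C_zero, zero_sub,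
    C_neg]
  linear_combination e'

lemma rev_prod (s : Multiset ℂ) (h : ∀ z ∈ s, ‖z‖ = 1) :
    (s.map fun z => X - C z).prod.map (starRingEnd ℂ) * C ((s.map fun z => X - C z).prod.coeff 0) =
      (s.map fun z => X - C z).prod.reverse := by
  induction s using Multiset.induction_on with
  | empty => simpa using (reverse_C (1 : ℂ)).symm
  | cons a s ih =>
    rw [Multiset.map_cons, Multiset.prod_cons, reverse_mul_of_domain, Polynomial.map_mul,
      mul_coeff_zero, C_mul, ← rev_lin (h a (Multiset.mem_cons_self _ _)),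
      ← ih fun z hz => h z (Multiset.mem_cons_of_mem hz)]
    ring

theorem p_REV :
    S_REV := by
  intro P hP h
  refine ⟨fun e => ?_, fun i hi => ?_⟩
  · simpa using h 0 (by rwa [IsRoot, ← coeff_zero_eq_eval_zero])
  · have := rev_prod P.roots fun z hz => h z (isRoot_of_mem_roots hz)
    rw [← (IsAlgClosed.splits P).eq_prod_roots_of_monic hP] at this
    have := congrArg (fun Q => coeff Q i) this
    simpa only [coeff_mul_C, coeff_map, coeff_reverse, revAt_le hi] using this

end Pool.Agent.P.MP_7cb106_nt.T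

end TREV

section TFLD
set_option autoImplicit false

namespace Pool.Agent.P.MP_7cb106_nt.T

open Matrix Polynomial Module NumberField
open scoped TensorProduct ComplexOrder

/-- every complex embedding of a subfield extends to an algebraic extension -/
lemma fld_ext {A : Type} [Field A] [CharZero A] [Algebra.IsAlgebraic ℚ A]
    (L : IntermediateField ℚ A) (φ : L →+* ℂ) : ∃ ψ : A →+* ℂ, ∀ x : L, ψ x = φ x := by
  letI : Algebra L ℂ := φ.toAlgebra
  haveI : Algebra.IsAlgebraic L A := Algebra.IsAlgebraic.tower_top (K := ℚ) L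
  let ψ : A →ₐ[L] ℂ := IsAlgClosed.lift
  exact ⟨ψ.toRingHom, fun x => ψ.commutes x⟩

/-- elements of the field generated by a set closed under partners have partners there -/
lemma fld_partner {A : Type} [Field A] [CharZero A] (t : Set A)
    (h : ∀ x ∈ t, ∃ x' ∈ t, ∀ φ : A →+* ℂ, φ x' = starRingEnd ℂ (φ x)) (y : A)
    (hy : y ∈ IntermediateField.adjoin ℚ t) :
    ∃ y' ∈ IntermediateField.adjoin ℚ t, ∀ φ : A →+* ℂ, φ y' = starRingEnd ℂ (φ y) := by
  induction hy using IntermediateField.adjoin_induction with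
  | mem x hx =>
    obtain ⟨x', h1, h2⟩ := h x hx
    exact ⟨x', IntermediateField.subset_adjoin ℚ t h1, h2⟩
  | algebraMap q =>
    refine ⟨algebraMap ℚ A q, IntermediateField.algebraMap_mem _ q, fun φ => ?_⟩
    simp
  | add x y _ _ ihx ihy =>
    obtain ⟨x', h1, h2⟩ := ihx
    obtain ⟨y', h3, h4⟩ := ihy
    exact ⟨x' + y', add_mem h1 h3, fun φ => by rw [map_add, map_add, map_add, h2, h4]⟩
  | inv x _ ihx =>
    obtain ⟨x', h1, h2⟩ := ihx
    exact ⟨x'⁻¹, inv_mem h1, fun φ => by rw [map_inv₀, map_inv₀, map_inv₀, h2]⟩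
  | mul x y _ _ ihx ihy =>
    obtain ⟨x', h1, h2⟩ := ihx
    obtain ⟨y', h3, h4⟩ := ihy
    exact ⟨x' * y', mul_mem h1 h3, fun φ => by rw [map_mul, map_mul, map_mul, h2, h4]⟩

theorem p_FLD :
    S_FLD := by
  classical
  intro A _ _ _ s hs
  choose! g hg using hs
  set t : Finset A := s ∪ s.image g with ht
  have hcl : ∀ x ∈ (t : Set A), ∃ x' ∈ (t : Set A),
      ∀ φ : A →+* ℂ, φ x' = starRingEnd ℂ (φ x) := by
    intro x hx
    rw [ht, Finset.mem_coe, Finset.mem_union] at hx
    rcases hx with hx | hx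
    · refine ⟨g x, ?_, hg x hx⟩
      rw [ht, Finset.mem_coe, Finset.mem_union]
      exact Or.inr (Finset.mem_image_of_mem g hx)
    · obtain ⟨z, hz, rfl⟩ := Finset.mem_image.1 hx
      refine ⟨z, ?_, fun φ => ?_⟩
      · rw [ht, Finset.mem_coe, Finset.mem_union]
        exact Or.inl hz
      · rw [hg z hz φ, Complex.conj_conj]
  set L : IntermediateField ℚ A := IntermediateField.adjoin ℚ (t : Set A) with hL
  haveI : FiniteDimensional ℚ L :=
    IntermediateField.finiteDimensional_adjoin fun x _ => Algebra.IsIntegral.isIntegral x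
  haveI hNF : NumberField L := ⟨⟩
  have hp : ∀ y : L, ∃ y' : L, ∀ φ : A →+* ℂ, φ y' = starRingEnd ℂ (φ y) := fun y => by
    obtain ⟨y', h1, h2⟩ := fld_partner _ hcl y.1 y.2
    exact ⟨⟨y', h1⟩, h2⟩
  choose c hc using hp
  obtain ⟨φ0⟩ : Nonempty (A →+* ℂ) := ⟨(IsAlgClosed.lift : A →ₐ[ℚ] ℂ).toRingHom⟩
  have hinj : ∀ x y : L, φ0 x = φ0 y → x = y := fun x y hxy =>
    Subtype.ext (φ0.injective hxy)
  have hinv : ∀ x : L, c (c x) = x := fun x =>
    hinj _ _ (by rw [hc, hc, Complex.conj_conj])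
  let e : L ≃+* L :=
    { toFun := c
      invFun := c
      left_inv := hinv
      right_inv := hinv
      map_mul' := fun x y => hinj _ _ (by
        rw [hc, IntermediateField.coe_mul, IntermediateField.coe_mul, map_mul, map_mul, map_mul,
          hc, hc])
      map_add' := fun x y => hinj _ _ (by
        rw [hc, IntermediateField.coe_add, IntermediateField.coe_add, map_add, map_add, map_add,
          hc, hc]) }
  refine ⟨L, inferInstance, hNF, algebraMap L A, e, fun φ x => ?_, fun x hx => ?_⟩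
  · obtain ⟨ψ, hψ⟩ := fld_ext L φ
    rw [← hψ, ← hψ]
    exact hc x ψ
  · refine ⟨⟨x, IntermediateField.subset_adjoin ℚ _ ?_⟩, rfl⟩
    rw [ht, Finset.mem_coe, Finset.mem_union]
    exact Or.inl hx

end Pool.Agent.P.MP_7cb106_nt.T

end TFLD

section TCMF
set_option autoImplicit false

namespace Pool.Agent.P.MP_7cb106_nt.T

open Matrix Polynomial Module NumberField
open scoped TensorProduct ComplexOrder

/-- `y` comes from an element of `A` that has a partner for complex conjugation -/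
def cmf_P {A K : Type} [Field A] [Field K] (ι : A →+* K) (y : K) : Prop :=
  ∃ x x' : A, ι x = y ∧ ∀ φ : A →+* ℂ, φ x' = starRingEnd ℂ (φ x)

lemma cmf_conj {p : ℕ} (hp : 0 < p) {z : ℂ} (h : z ^ 2 - z + p = 0) :
    starRingEnd ℂ z = 1 - z := by
  have h1 := congrArg Complex.re h
  have h2 := congrArg Complex.im h
  have hp' : (1 : ℝ) ≤ p := by exact_mod_cast hp
  simp [sq] at h1 h2
  have : z.im * (2 * z.re - 1) = 0 := by linarith
  rcases mul_eq_zero.1 this with e | e
  · rw [e] at h1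
    nlinarith [sq_nonneg (2 * z.re - 1)]
  · apply Complex.ext <;> simp
    linarith

lemma cmf_quad {A B : Type} [Field A] [Field B] (ι : A →+* B) {p : ℕ} {x : A} :
    ι x ^ 2 - ι x + p = 0 ↔ x ^ 2 - x + p = 0 := by
  rw [← map_eq_zero_iff ι ι.injective]
  simp

lemma cmf_int {K : Type} [Field K] {p : ℕ} {a : K} (h : a ^ 2 - a + p = 0) : IsIntegral ℤ a :=
  ⟨X ^ 2 - X + C (p : ℤ), by monicity!, by simpa using h⟩

lemma cmf_real {A K : Type} [Field A] [Field K] (ι : A →+* K) {y : K} (h : TotReal y)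
    (hy : y ∈ Set.range ι) : cmf_P ι y := by
  obtain ⟨x, rfl⟩ := hy
  obtain ⟨f, -, h1, h2⟩ := h
  refine ⟨x, x, rfl, fun φ => (Complex.conj_eq_iff_im.2 (h2 _ ?_)).symm⟩
  have e : aeval x f = 0 := ι.injective (by
    rw [map_zero, ← h1]; exact (aeval_algHom_apply ι.toIntAlgHom x f).symm)
  exact (aeval_algHom_apply φ.toIntAlgHom x f).trans (by rw [e, map_zero])

lemma cmf_coeff (hREV : S_REV) {A K : Type} [Field A] [Field K] (ι : A →+* K) {P : K[X]}
    {r N : ℕ} (hr : 0 < r) (hP : P.Monic) (hd : P ∣ (X ^ r - 1) ^ N) (hl : P ∈ lifts ι) :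
    ∀ y ∈ P.coeffs, cmf_P ι y := by
  obtain ⟨Q, rfl, -, hQ⟩ := lifts_and_natDegree_eq_and_monic hl hP
  have hd' : Q ∣ (X ^ r - 1) ^ N := (map_dvd_map' ι).1 (by simpa using hd)
  intro y hy
  obtain ⟨i, hi, rfl⟩ := mem_coeffs_iff.1 hy
  have hi' := le_natDegree_of_mem_supp i hi
  refine ⟨Q.coeff i, Q.coeff (Q.natDegree - i) / Q.coeff 0, (coeff_map _ _).symm, fun φ => ?_⟩
  obtain ⟨h0, h⟩ := hREV (Q.map φ) (hQ.map φ) fun z hz => by
    have := hz.dvd (Polynomial.map_dvd φ hd')
    simp only [IsRoot, Polynomial.map_pow, Polynomial.map_sub, map_X, Polynomial.map_one, eval_pow,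
      eval_sub, eval_X, eval_one] at this
    exact Complex.norm_eq_one_of_pow_eq_one (sub_eq_zero.1 (eq_zero_of_pow_eq_zero this)) hr.ne'
  simp only [natDegree_map, coeff_map] at h0 h hi'
  rw [map_div₀, div_eq_iff h0, h i hi']

lemma cmf_fld (hFLD : S_FLD) {A K : Type} [Field A] [CharZero A] [Algebra.IsAlgebraic ℚ A]
    [Field K] (ι : A →+* K) (S : Finset K) (h : ∀ y ∈ S, cmf_P ι y) :
    ∃ (L : Type) (_ : Field L) (_ : NumberField L) (j : L →+* K) (c : L ≃+* L),
      Conj c ∧ ∀ y ∈ S, y ∈ Set.range j := by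
  obtain ⟨L, _, _, i, c, hc, hi⟩ := hFLD A (S.preimage ι ι.injective.injOn) fun x hx => by
    obtain ⟨x1, x', e, h'⟩ := h _ (Finset.mem_preimage.1 hx)
    exact ⟨x', ι.injective e ▸ h'⟩
  refine ⟨L, inferInstance, inferInstance, ι.comp i, c, hc, fun y hy => ?_⟩
  obtain ⟨x, -, rfl, -⟩ := h y hy
  obtain ⟨z, rfl⟩ := hi x (Finset.mem_preimage.2 hy)
  exact ⟨z, rfl⟩

theorem p_CMF (hBAS : S_BAS) (hREV : S_REV) (hFLD : S_FLD) :
    S_CMF := by
  classical
  intro p hp K _ _ _ _ P r N hr hP hd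
  have : CharZero K := charZero_of_injective_algebraMap (algebraMap ℚ_[p] K).injective
  have : Algebra.IsAlgebraic ℚ (algebraicClosure ℚ K) := by
    convert algebraicClosure.isAlgebraic ℚ K
    exacts [rfl, Subsingleton.elim _ _]
  obtain ⟨⟨s, hs, hB⟩, a, ha, a1, a2⟩ := hBAS p K
  let ι : algebraicClosure ℚ K →+* K := (algebraicClosure ℚ K).val.toRingHom
  have alg : ∀ y : K, IsAlgebraic ℤ y → y ∈ Set.range ι := fun y hy =>
    ⟨⟨y, mem_algebraicClosure_iff.2 ((IsFractionRing.isAlgebraic_iff ℤ ℚ K).1 hy)⟩, rfl⟩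
  have hl : P ∈ lifts ι := (lifts_iff_coeff_lifts _).2 fun i => alg _
    (isIntegral_coeff_of_dvd ((X ^ r - C 1) ^ N) P ((monic_X_pow_sub_C 1 hr.ne').pow N) hP
      (by simpa using hd) i).isAlgebraic
  obtain ⟨L, _, _, j, c, hc, hj⟩ := cmf_fld hFLD ι (insert a (s ∪ P.coeffs)) fun y hy => by
    rcases Finset.mem_insert.1 hy with rfl | hy
    · obtain ⟨x, rfl⟩ := alg _ (cmf_int ha).isAlgebraic
      exact ⟨x, 1 - x, rfl, fun φ => by
        rw [cmf_conj hp.1.pos ((cmf_quad φ).2 ((cmf_quad ι).1 ha)), map_sub, map_one]⟩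
    rcases Finset.mem_union.1 hy with hy | hy
    · obtain ⟨f, f0, h1, -⟩ := hs y hy
      exact cmf_real ι (hs y hy) (alg _ ⟨f, f0, h1⟩)
    · exact cmf_coeff hREV ι hr hP hd hl y hy
  obtain ⟨P0, h0⟩ := (mem_lifts _).1 ((lifts_iff_coeffs_subset_range (f := j) P).2 fun y hy =>
    hj y (Finset.mem_insert_of_mem (Finset.mem_union_right _ hy)))
  obtain ⟨x, rfl⟩ := hj a (Finset.mem_insert_self _ _)
  have hx := (cmf_quad j).1 ha
  obtain ⟨φ⟩ : Nonempty (L →+* ℂ) := inferInstance
  have e : c x = 1 - x := φ.injective (by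
    rw [hc, cmf_conj hp.1.pos ((cmf_quad φ).2 hx), map_sub, map_one])
  exact ⟨L, inferInstance, inferInstance, j, c, P0, ⟨hc, hB j.fieldRange fun y hy =>
    hj y (Finset.mem_insert_of_mem (Finset.mem_union_left _ hy)), x, cmf_int hx, a1,
    by rw [e, map_sub, map_one, a2]⟩, h0⟩

end Pool.Agent.P.MP_7cb106_nt.T

end TCMF
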