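import Pool.Agent.P.MP_7cb106_nt.T.IfaceA

/-! Steps BETA GOOD GZ HF DEN DUAL LAT ISO. -/

section TBETA
set_option autoImplicit false

namespace Pool.Agent.P.MP_7cb106_nt.T

open Matrix Polynomial Module NumberField
open scoped TensorProduct ComplexOrder

/-- the prime of the ring of integers cut out by the norm of `K` -/
def beta_w {K L : Type} [NormedField K] [IsUltrametricDist K] [Field L] (j : L →+* K) :
    Ideal (𝓞 L) where
  carrier := {x | ‖j (x : L)‖ < 1}
  add_mem' := by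
    intro x y hx hy
    have h := IsUltrametricDist.norm_add_le_max (j (x : L)) (j (y : L))
    have e : j ((x + y : 𝓞 L) : L) = j (x : L) + j (y : L) := by simp
    show ‖j ((x + y : 𝓞 L) : L)‖ < 1
    rw [e]
    exact h.trans_lt (max_lt hx hy)
  zero_mem' := by simp
  smul_mem' := by
    intro r x hx
    have e : j ((r • x : 𝓞 L) : L) = j (r : L) * j (x : L) := by simp
    show ‖j ((r • x : 𝓞 L) : L)‖ < 1
    rw [e, norm_mul]
    exact mul_lt_one_of_nonneg_of_lt_one_right (norm_map_le_one j r.2) (norm_nonneg _) hx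

lemma beta_mem {K L : Type} [NormedField K] [IsUltrametricDist K] [Field L] {j : L →+* K}
    {x : 𝓞 L} : x ∈ beta_w j ↔ ‖j (x : L)‖ < 1 := Iff.rfl

lemma beta_nmem {K L : Type} [NormedField K] [IsUltrametricDist K] [Field L] {j : L →+* K}
    {x : 𝓞 L} : x ∉ beta_w j ↔ ‖j (x : L)‖ = 1 := by
  rw [beta_mem, not_lt]
  exact ⟨fun h => le_antisymm (norm_map_le_one j x.2) h, fun h => h.ge⟩

lemma beta_prime {K L : Type} [NormedField K] [IsUltrametricDist K] [Field L] (j : L →+* K) :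
    (beta_w j).IsPrime := by
  refine ⟨(Ideal.ne_top_iff_one _).2 (beta_nmem.2 (by simp)), fun {x y} h => ?_⟩
  by_contra hn
  rw [not_or, beta_nmem, beta_nmem] at hn
  have e : j ((x * y : 𝓞 L) : L) = j (x : L) * j (y : L) := by simp
  rw [beta_mem, e, norm_mul, hn.1, hn.2] at h
  norm_num at h

lemma beta_val {A : Type} [CommRing A] [IsDedekindDomain A] {w : Ideal A} [w.IsPrime]
    (hw : w ≠ ⊥) (x y : A) : ∃ s t : A, t ∉ w ∧ (x * s = y * t ∨ y * s = x * t) := by
  have : IsDiscreteValuationRing (Localization.AtPrime w) :=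
    IsLocalization.AtPrime.isDiscreteValuationRing_of_dedekind_domain A hw _
  have hinj : Function.Injective (algebraMap A (Localization.AtPrime w)) :=
    IsLocalization.injective _ w.primeCompl_le_nonZeroDivisors
  obtain ⟨c, hc⟩ := ValuationRing.cond (algebraMap A (Localization.AtPrime w) x)
    (algebraMap A (Localization.AtPrime w) y)
  obtain ⟨⟨s, t⟩, hst⟩ := IsLocalization.surj w.primeCompl c
  refine ⟨s, t, t.2, ?_⟩
  rcases hc with hc | hc
  · left
    apply hinj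
    rw [map_mul, map_mul, ← hc, mul_assoc, hst]
  · right
    apply hinj
    rw [map_mul, map_mul, ← hc, mul_assoc, hst]

theorem p_BETA :
    S_BETA := by
  intro K L _ _ _ _ j c hc
  classical
  obtain ⟨a, ha, ha1, ha2⟩ := hc.split
  obtain ⟨a, rfl⟩ : ∃ a' : 𝓞 L, (a' : L) = a := ⟨⟨a, ha⟩, rfl⟩
  have hp := beta_prime j
  have ha0 : a ≠ 0 := by
    rintro rfl
    simp at ha2
  have haw : a ∈ beta_w j := ha1
  have hw : beta_w j ≠ ⊥ := by
    intro h
    rw [h, Ideal.mem_bot] at haw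
    exact ha0 haw
  have hmax : (beta_w j).IsMaximal := hp.isMaximal hw
  set h := Fintype.card (ClassGroup (𝓞 L)) with hh
  have h0 : h ≠ 0 := Fintype.card_ne_zero
  have hw0 : beta_w j ∈ nonZeroDivisors (Ideal (𝓞 L)) := mem_nonZeroDivisors_of_ne_zero hw
  have hpr : (beta_w j ^ h).IsPrincipal := by
    rw [← ClassGroup.mk0_eq_one_iff (pow_mem hw0 h)]
    have e : (⟨beta_w j ^ h, pow_mem hw0 h⟩ : nonZeroDivisors (Ideal (𝓞 L))) =
        (⟨beta_w j, hw0⟩ : nonZeroDivisors (Ideal (𝓞 L))) ^ h := rfl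
    rw [e, map_pow, hh, pow_card_eq_one]
  obtain ⟨β, hβ⟩ := hpr.principal
  have hβ' : beta_w j ^ h = Ideal.span {β} := hβ
  have hβw : β ∈ beta_w j :=
    Ideal.pow_le_self h0 (hβ' ▸ Ideal.mem_span_singleton_self β)
  refine ⟨β, β.2, ?_, hβw, ?_, fun t ht ht1 k => ?_, fun z hz => ?_⟩
  · intro hz
    have : β = 0 := Subtype.ext hz
    rw [this, Ideal.span_singleton_zero] at hβ'
    exact pow_ne_zero h hw hβ'
  · have hm := Ideal.pow_mem_pow haw h
    rw [hβ', Ideal.mem_span_singleton'] at hm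
    obtain ⟨e, he⟩ := hm
    have he' : (e : L) * (β : L) = (a : L) ^ h := by
      have := congrArg (fun x : 𝓞 L => (x : L)) he
      simpa using this
    have h1 : ‖j (c e)‖ * ‖j (c β)‖ = 1 := by
      rw [← norm_mul, ← map_mul, ← map_mul, he', map_pow, map_pow, norm_pow, ha2, one_pow]
    have h2 := norm_map_le_one j (int_conj c e.2)
    have h3 := norm_map_le_one j (int_conj c β.2)
    refine le_antisymm h3 ?_
    calc (1 : ℝ) = ‖j (c e)‖ * ‖j (c β)‖ := h1.symm
      _ ≤ 1 * ‖j (c β)‖ := mul_le_mul_of_nonneg_right h2 (norm_nonneg _)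
      _ = _ := one_mul _
  · obtain ⟨t, rfl⟩ : ∃ t' : 𝓞 L, (t' : L) = t := ⟨⟨t, ht⟩, rfl⟩
    have htw : t ∉ beta_w j := beta_nmem.2 ht1
    obtain ⟨y, i, hi, hy⟩ := hmax.exists_inv htw
    have hco : IsCoprime (Ideal.span {t}) (beta_w j) := by
      rw [Ideal.isCoprime_iff_exists]
      exact ⟨y * t, Ideal.mul_mem_left _ _ (Ideal.mem_span_singleton_self _), i, hi, hy⟩
    have hco2 := (hco.pow_right (n := h)).pow_right (n := k)
    rw [hβ', Ideal.span_singleton_pow, Ideal.isCoprime_span_singleton_iff] at hco2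
    obtain ⟨u, v, huv⟩ := hco2
    refine ⟨u, v, u.2, v.2, ?_⟩
    have := congrArg (fun x : 𝓞 L => (x : L)) huv
    simpa using this
  · obtain ⟨x, y, hy, rfl⟩ := IsFractionRing.div_surjective (A := 𝓞 L) z
    have hy0 : algebraMap (𝓞 L) L y ≠ 0 :=
      IsFractionRing.to_map_ne_zero_of_mem_nonZeroDivisors hy
    obtain ⟨s, t, ht, hst | hst⟩ := beta_val hw x y
    · have e : (s : L) * (algebraMap (𝓞 L) L x / algebraMap (𝓞 L) L y) = t := by
        have := congrArg (algebraMap (𝓞 L) L) hst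
        rw [map_mul, map_mul] at this
        field_simp
        linear_combination this
      refine ⟨s, s.2, le_antisymm (norm_map_le_one j s.2) ?_, e ▸ t.2⟩
      calc (1 : ℝ) = ‖j (t : L)‖ := (beta_nmem.1 ht).symm
        _ = ‖j (s : L)‖ * ‖j (algebraMap (𝓞 L) L x / algebraMap (𝓞 L) L y)‖ := by
          rw [← e, map_mul, norm_mul]
        _ ≤ ‖j (s : L)‖ * 1 := mul_le_mul_of_nonneg_left hz (norm_nonneg _)
        _ = _ := mul_one _
    · have e : (t : L) * (algebraMap (𝓞 L) L x / algebraMap (𝓞 L) L y) = s := by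
        have := congrArg (algebraMap (𝓞 L) L) hst
        rw [map_mul, map_mul] at this
        field_simp
        linear_combination -this
      exact ⟨t, t.2, beta_nmem.1 ht, e ▸ s.2⟩

end Pool.Agent.P.MP_7cb106_nt.T

end TBETA

section TGOOD
set_option autoImplicit false

namespace Pool.Agent.P.MP_7cb106_nt.T

open Matrix Polynomial Module NumberField
open scoped TensorProduct ComplexOrder

theorem p_GOOD (hBETA : S_BETA) :
    S_GOOD := by
  intro K L _ _ _ _ j c h
  obtain ⟨β, hβ, h0, h1, h2, h3, h4⟩ := hBETA K L j c h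
  have ci := h.conj.invol
  have hc := int_conj c hβ
  have nb : ‖j (β * c β)‖ = ‖j β‖ := by rw [map_mul, norm_mul, h2, mul_one]
  have fb : c (β * c β) = β * c β := by rw [map_mul, ci, mul_comm]
  have A : ∀ (y : L) (k : ℕ), IsIntegral ℤ (β ^ k * y) → ‖j y‖ ≤ 1 → IsIntegral ℤ y := by
    intro y k hy hn
    obtain ⟨t, t1, t2, t3⟩ := h4 y hn
    obtain ⟨u, v, u1, v1, e⟩ := h3 t t1 t2 k
    have : y = u * (t * y) + v * (β ^ k * y) := by linear_combination (-y) * e
    rw [this]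
    exact (u1.mul t3).add (v1.mul hy)
  have S : ∀ (a : L) (k : ℕ), IsIntegral ℤ a → ‖j (a * β ^ k)‖ ≤ ‖j β‖ ^ k := fun a k ha => by
    rw [map_mul, map_pow, norm_mul, norm_pow]
    exact mul_le_of_le_one_left (by positivity) (norm_map_le_one j ha)
  have B : ∀ (y : K) (ε : ℝ), ‖y‖ ≤ 1 → 0 < ε → ∃ a, IsIntegral ℤ a ∧ ‖j a - y‖ < ε := by
    intro y ε hy hε
    obtain ⟨z, hz⟩ := h.dense.exists_dist_lt y (lt_min (half_pos hε) one_pos)
    rw [dist_comm, dist_eq_norm, lt_min_iff] at hz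
    have hz1 : ‖j z‖ ≤ 1 := by
      have := IsUltrametricDist.norm_add_le_max (j z - y) y
      rw [sub_add_cancel] at this
      exact this.trans (max_le hz.2.le hy)
    obtain ⟨t, t1, t2, t3⟩ := h4 z hz1
    obtain ⟨k, hk⟩ := exists_pow_lt_of_lt_one (half_pos hε) h1
    obtain ⟨u, v, u1, v1, e⟩ := h3 t t1 t2 k
    refine ⟨u * (t * z), u1.mul t3, ?_⟩
    have e1 : j (u * (t * z)) - y = (j z - y) - j (v * β ^ k) * j z := by
      have : u * (t * z) = z - v * β ^ k * z := by linear_combination z * e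
      rw [this, map_sub, map_mul]
      ring
    have e2 : ‖j (v * β ^ k) * j z‖ ≤ ‖j β‖ ^ k := by
      rw [norm_mul]
      exact (mul_le_of_le_one_right (norm_nonneg _) hz1).trans (S v k v1)
    rw [e1]
    linarith [norm_sub_le (j z - y) (j (v * β ^ k) * j z), hz.1]
  have D : ∀ (y1 y2 : K) (ε : ℝ), ‖y1‖ ≤ 1 → ‖y2‖ ≤ 1 → 0 < ε →
      ∃ x, IsIntegral ℤ x ∧ ‖j x - y1‖ < ε ∧ ‖j (c x) - y2‖ < ε := by
    intro y1 y2 ε hy1 hy2 hε
    have hε3 : 0 < ε / 3 := by positivity
    obtain ⟨a1, i1, n1⟩ := B y1 _ hy1 hε3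
    obtain ⟨a2, i2, n2⟩ := B y2 _ hy2 hε3
    obtain ⟨k, hk⟩ := exists_pow_lt_of_lt_one hε3 h1
    obtain ⟨u, v, u1, v1, e⟩ := h3 (c β ^ k) (hc.pow k) (by rw [map_pow, norm_pow, h2, one_pow]) k
    have key : ∀ (a a' : L) (y : K), IsIntegral ℤ a → IsIntegral ℤ a' → ‖j a - y‖ < ε / 3 →
        ‖j (a * (u * c β ^ k) + c (a' * (u * c β ^ k))) - y‖ < ε := fun a a' y ia ia' n => by
      have e1 : a * (u * c β ^ k) + c (a' * (u * c β ^ k)) =
          a - a * v * β ^ k + c (a' * u) * β ^ k := by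
        simp only [map_mul, map_pow, ci]
        linear_combination a * e
      have e2 : j (a - a * v * β ^ k + c (a' * u) * β ^ k) - y =
          (j a - y) - j (a * v * β ^ k) + j (c (a' * u) * β ^ k) := by
        rw [map_add, map_sub]
        ring
      rw [e1, e2]
      linarith [norm_add_le (j a - y - j (a * v * β ^ k)) (j (c (a' * u) * β ^ k)),
        norm_sub_le (j a - y) (j (a * v * β ^ k)), S _ k (ia.mul v1),
        S _ k (int_conj c (ia'.mul u1))]
    have iu := u1.mul (hc.pow k)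
    refine ⟨_, (i1.mul iu).add (int_conj c (i2.mul iu)), key a1 a2 y1 i1 i2 n1, ?_⟩
    rw [map_add, ci, add_comm]
    exact key a2 a1 y2 i2 i1 n2
  have b0 : β * c β ≠ 0 := mul_ne_zero h0 ((map_ne_zero c).2 h0)
  refine ⟨⟨β * c β, hβ.mul hc⟩, b0, fb, nb.trans_lt h1, ?_, fun y1 y2 ε hε => ?_⟩
  · rintro x ⟨k, hk⟩ n1 n2
    have hk' : IsIntegral ℤ (β ^ k * (c β ^ k * x)) := by
      rw [← mul_assoc, ← mul_pow]
      exact hk
    have i1 := int_conj c (A _ k hk' (by rwa [map_mul, map_pow, norm_mul, norm_pow, h2, one_pow,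
      one_mul]))
    rw [map_mul, map_pow, ci] at i1
    exact ci x ▸ int_conj c (A _ k i1 n2)
  · have hM : 0 < ‖y1‖ + ‖y2‖ + 1 := by positivity
    obtain ⟨k, hk⟩ := exists_pow_lt_of_lt_one (inv_pos.2 hM) (nb.trans_lt h1)
    have jb : j (β * c β) ^ k ≠ 0 := pow_ne_zero _ ((map_ne_zero j).2 b0)
    have np : 0 < ‖j (β * c β) ^ k‖ := norm_pos_iff.2 jb
    rw [← norm_pow, ← one_div, lt_div_iff₀ hM] at hk
    obtain ⟨x, ix, n1, n2⟩ := D (j (β * c β) ^ k * y1) (j (β * c β) ^ k * y2)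
      (‖j (β * c β) ^ k‖ * ε) (by rw [norm_mul]; nlinarith [norm_nonneg y2])
      (by rw [norm_mul]; nlinarith [norm_nonneg y1]) (mul_pos np hε)
    have key : ∀ (x : L) (y : K), ‖j x - j (β * c β) ^ k * y‖ < ‖j (β * c β) ^ k‖ * ε →
        ‖j (x / (β * c β) ^ k) - y‖ < ε := fun x y n => by
      have e : j x - j (β * c β) ^ k * y = j (β * c β) ^ k * (j (x / (β * c β) ^ k) - y) := by
        rw [map_div₀, map_pow, mul_sub, mul_div_cancel₀ _ jb]
      rw [e, norm_mul] at n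
      exact lt_of_mul_lt_mul_left n np.le
    refine ⟨x / (β * c β) ^ k, ⟨k, ?_⟩, key x y1 n1, ?_⟩
    · change IsIntegral ℤ ((β * c β) ^ k * (x / (β * c β) ^ k))
      rwa [mul_div_cancel₀ _ (pow_ne_zero k b0)]
    · rw [map_div₀, map_pow, fb]
      exact key _ y2 n2

end Pool.Agent.P.MP_7cb106_nt.T

end TGOOD

section TGZ
set_option autoImplicit false

namespace Pool.Agent.P.MP_7cb106_nt.T

open Matrix Polynomial Module NumberField
open scoped TensorProduct ComplexOrder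

lemma gz_block {L : Type} [Field L] (P : L[X]) (r : ℕ) (hr : 0 < r) (hP : P.Monic)
    (hd : P ∣ X ^ r - 1) : ∃ (d : ℕ) (g : Matrix (Fin d) (Fin d) L),
      (∀ i k, IsIntegral ℤ (g i k)) ∧ g ^ r = 1 ∧ g.charpoly = P := by
  have hm : minpoly L (AdjoinRoot.powerBasis hP.ne_zero).gen = P :=
    AdjoinRoot.minpoly_powerBasis_gen_of_monic hP
  generalize AdjoinRoot.powerBasis hP.ne_zero = pb at hm
  have hc : ∀ i, IsIntegral ℤ (P.coeff i) := fun i => by
    refine isIntegral_coeff_of_dvd (X ^ r - C 1 : ℤ[X]) P (monic_X_pow_sub_C 1 hr.ne') hP ?_ i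
    simpa using hd
  refine ⟨pb.dim, Algebra.leftMulMatrix pb.basis pb.gen, fun i k => ?_, ?_, ?_⟩
  · rw [PowerBasis.leftMulMatrix, PowerBasis.minpolyGen_eq, hm, Matrix.of_apply]
    split_ifs
    exacts [(hc _).neg, isIntegral_one, isIntegral_zero]
  · have h1 := minpoly.aeval L pb.gen
    rw [hm] at h1
    have h0 : aeval pb.gen (X ^ r - 1 : L[X]) = 0 := aeval_eq_zero_of_dvd_aeval_eq_zero hd h1
    rw [map_sub, map_pow, aeval_X, map_one, sub_eq_zero] at h0
    rw [← map_pow, h0, map_one]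
  · rw [charpoly_leftMulMatrix, hm]

lemma gz_any {L : Type} [Field L] (r N : ℕ) (hr : 0 < r) (n : ℕ) : ∀ P : L[X], P.Monic →
    P.natDegree = n → P ∣ (X ^ r - 1) ^ N → ∃ (d : ℕ) (g : Matrix (Fin d) (Fin d) L),
      (∀ i k, IsIntegral ℤ (g i k)) ∧ g ^ r = 1 ∧ g.charpoly = P := by
  induction n using Nat.strong_induction_on with
  | _ n ih =>
    intro P hP hn hd
    by_cases hu : IsUnit P
    · refine gz_block P r hr hP hu.dvd
    obtain ⟨P1, h1, hi, Q, rfl⟩ := exists_monic_irreducible_factor P hu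
    have hQ : Q.Monic := h1.of_mul_monic_left hP
    have hlt : Q.natDegree < n := by
      rw [← hn, h1.natDegree_mul hQ]
      have := hi.natDegree_pos
      omega
    obtain ⟨d, g, g1, g2, g3⟩ :=
      gz_block P1 r hr h1 (hi.prime.dvd_of_dvd_pow ((Dvd.intro _ rfl).trans hd))
    obtain ⟨e, h, k1, k2, k3⟩ := ih _ hlt Q hQ rfl ((Dvd.intro_left _ rfl).trans hd)
    refine ⟨d + e, Matrix.reindex finSumFinEquiv finSumFinEquiv (fromBlocks g 0 0 h),
      fun i k => ?_, ?_, ?_⟩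
    · rw [Matrix.reindex_apply, Matrix.submatrix_apply]
      rcases finSumFinEquiv.symm i with i | i <;> rcases finSumFinEquiv.symm k with k | k
      exacts [g1 i k, isIntegral_zero, isIntegral_zero, k1 i k]
    · have e1 : Matrix.reindex finSumFinEquiv finSumFinEquiv (fromBlocks g 0 0 h) =
          Matrix.reindexAlgEquiv L L finSumFinEquiv (fromBlocks g 0 0 h) := rfl
      rw [e1, ← map_pow, fromBlocks_diagonal_pow, g2, k2, fromBlocks_one, map_one]
    · rw [charpoly_reindex, charpoly_fromBlocks_zero₁₂, g3, k3]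

theorem p_GZ :
    S_GZ := by
  intro L _ _ P r N n hr hP hn hd
  obtain ⟨d, g, g1, g2, g3⟩ := gz_any r N hr n P hP hn hd
  have e : d = n := by
    rw [← hn, ← g3, charpoly_natDegree_eq_dim, Fintype.card_fin]
  subst e
  exact ⟨g, g1, g2, g3⟩

end Pool.Agent.P.MP_7cb106_nt.T

end TGZ

section THF
set_option autoImplicit false

namespace Pool.Agent.P.MP_7cb106_nt.T

open Matrix Polynomial Module NumberField
open scoped TensorProduct ComplexOrder

theorem p_HF :
    S_HF := by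
  intro L _ _ c n r g hc hr hg hgr
  have hint : ∀ e : ℕ, ∀ i k, IsIntegral ℤ ((g ^ e) i k) := by
    intro e
    induction e with
    | zero =>
      intro i k
      rw [pow_zero, Matrix.one_apply]
      split_ifs
      exacts [isIntegral_one, isIntegral_zero]
    | succ e ih =>
      intro i k
      rw [pow_succ, Matrix.mul_apply]
      exact IsIntegral.sum _ fun l _ => (ih i l).mul (hg l k)
  have hmul : ∀ A B : Matrix (Fin n) (Fin n) L, (A * B).map c = A.map c * B.map c :=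
    fun A B => Matrix.map_mul (f := c)
  refine ⟨∑ e ∈ Finset.range r, ((g ^ e).map c)ᵀ * g ^ e, ⟨fun i k => ?_, ?_, fun φ => ?_⟩, ?_⟩
  · rw [Matrix.sum_apply]
    refine IsIntegral.sum _ fun e _ => ?_
    rw [Matrix.mul_apply]
    exact IsIntegral.sum _ fun l _ => (int_conj c (hint e l i)).mul (hint e l k)
  · ext i k
    simp only [transpose_apply, map_apply, Matrix.sum_apply, Matrix.mul_apply, map_sum, map_mul,
      hc.invol]
    exact Finset.sum_congr rfl fun e _ => Finset.sum_congr rfl fun l _ => mul_comm _ _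
  · have e1 : (∑ e ∈ Finset.range r, ((g ^ e).map c)ᵀ * g ^ e).map φ =
        ∑ e ∈ Finset.range r, ((g ^ e).map φ)ᴴ * (g ^ e).map φ := by
      ext i k
      simp only [transpose_apply, map_apply, Matrix.sum_apply, Matrix.mul_apply, map_sum, map_mul,
        conjTranspose_apply, hc φ]
      rfl
    obtain ⟨r, rfl⟩ : ∃ s, r = s + 1 := ⟨r - 1, by omega⟩
    rw [e1, Finset.sum_range_succ', add_comm, pow_zero,
      Matrix.map_one _ (map_zero φ) (map_one φ), conjTranspose_one, Matrix.one_mul]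
    exact PosDef.one.add_posSemidef
      (posSemidef_sum _ fun e _ => posSemidef_conjTranspose_mul_self _)
  · unfold Uni
    rw [Finset.mul_sum, Finset.sum_mul]
    have e1 : ∀ e : ℕ, (g.map c)ᵀ * (((g ^ e).map c)ᵀ * g ^ e) * g =
        ((g ^ (e + 1)).map c)ᵀ * g ^ (e + 1) := by
      intro e
      rw [pow_succ, hmul, transpose_mul]
      simp only [Matrix.mul_assoc]
    simp only [e1]
    have e2 := Finset.sum_range_succ (fun e : ℕ => ((g ^ e).map c)ᵀ * g ^ e) r
    rw [Finset.sum_range_succ', hgr, pow_zero] at e2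
    exact add_right_cancel e2

end Pool.Agent.P.MP_7cb106_nt.T

end THF

section TDEN
set_option autoImplicit false

namespace Pool.Agent.P.MP_7cb106_nt.T

open Matrix Polynomial Module NumberField
open scoped TensorProduct ComplexOrder

lemma den_pow {K : Type} [NormedField K] {n : ℕ} {t : K} (ht : ‖t‖ < 1) (v : Fin n → K) :
    ∀ᶠ k : ℕ in Filter.atTop, ∀ i, ‖(t ^ k • v) i‖ ≤ 1 := by
  refine Filter.eventually_all.2 fun i => ?_
  have h : Filter.Tendsto (fun k : ℕ => ‖t‖ ^ k * ‖v i‖) Filter.atTop (nhds (0 * ‖v i‖)) :=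
    (tendsto_pow_atTop_nhds_zero_of_lt_one (norm_nonneg _) ht).mul_const _
  rw [zero_mul] at h
  filter_upwards [h.eventually (ge_mem_nhds one_pos)] with k hk
  rwa [Pi.smul_apply, smul_eq_mul, norm_mul, norm_pow]

lemma den_near {K : Type} [NormedField K] [IsUltrametricDist K] {n : ℕ}
    (A : Matrix (Fin n) (Fin n) K) : ∃ δ : ℝ, 0 < δ ∧ ∀ z w : Fin n → K,
      (∀ i, ‖(A *ᵥ z) i‖ ≤ 1) → (∀ i, ‖w i - z i‖ < δ) → ∀ i, ‖(A *ᵥ w) i‖ ≤ 1 := by
  obtain ⟨C, hC⟩ := (Set.finite_range fun p : Fin n × Fin n => ‖A p.1 p.2‖).bddAbove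
  have hC' : ∀ i k, ‖A i k‖ ≤ |C| + 1 := fun i k =>
    (hC ⟨(i, k), rfl⟩).trans ((le_abs_self C).trans (le_add_of_nonneg_right zero_le_one))
  have h0 : 0 < |C| + 1 := by positivity
  refine ⟨(|C| + 1)⁻¹, inv_pos.2 h0, fun z w hz hw i => ?_⟩
  have e : (A *ᵥ w) i = (A *ᵥ z) i + ∑ k, A i k * (w k - z k) := by
    simp only [Matrix.mulVec, dotProduct, mul_sub, Finset.sum_sub_distrib]
    ring
  rw [e]
  refine (IsUltrametricDist.norm_add_le_max _ _).trans (max_le (hz i) ?_)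
  refine IsUltrametricDist.norm_sum_le_of_forall_le_of_nonneg zero_le_one fun k _ => ?_
  rw [norm_mul]
  calc _ ≤ (|C| + 1) * (|C| + 1)⁻¹ :=
        mul_le_mul (hC' i k) (hw k).le (norm_nonneg _) h0.le
    _ = 1 := mul_inv_cancel₀ h0.ne'

theorem p_DEN :
    S_DEN := by
  intro K L _ _ _ _ j c b n H g good _
  refine ⟨fun x hx => ?_, fun z1 z2 h1 h2 ε hε => ?_⟩
  · obtain ⟨k, hk1, hk2⟩ := ((den_pow good.small
      (((g⁻¹ : GL (Fin n) K) : Matrix (Fin n) (Fin n) K) *ᵥ fun k => j (x k))).and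
      (den_pow good.small
        ((H.map j * (g : Matrix (Fin n) (Fin n) K))ᵀ *ᵥ fun k => j (c (x k))))).exists
    have hb : IsIntegral ℤ (b : L) := b.2
    refine ⟨k, fun i => (Rb b).mul_mem (int_mem_Rb (hb.pow k)) (hx i), fun i => ?_, fun i => ?_⟩
    · have e : (fun l => j (((b : L) ^ k • x) l)) = j b ^ k • fun l => j (x l) := by
        funext l
        simp only [Pi.smul_apply, smul_eq_mul, map_mul, map_pow]
      rw [e, Matrix.mulVec_smul]
      exact hk1 i
    · have e : (fun l => j (c (((b : L) ^ k • x) l))) = j b ^ k • fun l => j (c (x l)) := by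
        funext l
        simp only [Pi.smul_apply, smul_eq_mul, map_mul, map_pow, good.fix]
      rw [e, Matrix.mulVec_smul]
      exact hk2 i
  · obtain ⟨δ1, p1, n1⟩ := den_near ((g⁻¹ : GL (Fin n) K) : Matrix (Fin n) (Fin n) K)
    obtain ⟨δ2, p2, n2⟩ := den_near ((H.map j * (g : Matrix (Fin n) (Fin n) K))ᵀ)
    choose x hx ha hb using fun i => good.r2 (z1 i) (z2 i) (min ε (min δ1 δ2))
      (lt_min hε (lt_min p1 p2))
    exact ⟨x, ⟨hx, n1 z1 _ h1 fun i => (ha i).trans_le ((min_le_right _ _).trans (min_le_left _ _)),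
      n2 z2 _ h2 fun i => (hb i).trans_le ((min_le_right _ _).trans (min_le_right _ _))⟩,
      fun i => ⟨(ha i).trans_le (min_le_left _ _), (hb i).trans_le (min_le_left _ _)⟩⟩

end Pool.Agent.P.MP_7cb106_nt.T

end TDEN

section TDUAL
set_option autoImplicit false

namespace Pool.Agent.P.MP_7cb106_nt.T

open Matrix Polynomial Module NumberField
open scoped TensorProduct ComplexOrder

lemma dual_mult {L : Type} [Field L] [NumberField L] {ι : Type} [Fintype ι] (x : ι → L) :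
    ∃ N : ℕ, N ≠ 0 ∧ ∀ i, IsIntegral ℤ ((N : L) * x i) := by
  classical
  obtain ⟨y, hy, h⟩ := exists_integral_multiples ℤ ℚ (Finset.univ.image x)
  refine ⟨y.natAbs, Int.natAbs_ne_zero.2 hy, fun i => ?_⟩
  have h1 := h (x i) (Finset.mem_image_of_mem _ (Finset.mem_univ i))
  rw [zsmul_eq_mul] at h1
  rw [Nat.cast_natAbs]
  rcases abs_choice y with e | e <;> rw [e]
  · exact h1
  · rw [Int.cast_neg, neg_mul]
    exact h1.neg

theorem p_DUAL :
    S_DUAL := by
  classical
  intro L _ _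
  refine ⟨?_, fun D _ hD => ?_, fun n x => dual_mult x⟩
  · let b := (Algebra.traceForm ℚ L).dualBasis (traceForm_nondegenerate ℚ L) (integralBasis L)
    obtain ⟨d, hd, h⟩ := dual_mult b
    refine ⟨d, hd, fun z hz => ?_⟩
    rw [← b.sum_repr z, Finset.mul_sum]
    refine IsIntegral.sum _ fun i _ => ?_
    obtain ⟨t, ht⟩ := hz (integralBasis L i) (by
      rw [integralBasis_apply]
      exact (RingOfIntegers.basis L i).2)
    rw [LinearMap.BilinForm.dualBasis_repr_apply, Algebra.traceForm_apply, mul_comm z, ht,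
      mul_smul_comm, Int.cast_smul_eq_zsmul]
    exact (h i).zsmul t
  · obtain ⟨N, hN, h⟩ := dual_mult fun _ : Unit => D⁻¹
    exact ⟨N, hN, _, h (), by rw [inv_mul_cancel_right₀ hD]⟩

end Pool.Agent.P.MP_7cb106_nt.T

end TDUAL

section TLAT
namespace Pool.Agent.P.MP_7cb106_nt.T
open Matrix NumberField
open scoped ComplexOrder

lemma lat_key {K L : Type} [Field K] [Field L] {n : ℕ} (j : L →+* K) (c : L ≃+* L)
    (H : Matrix (Fin n) (Fin n) L) (g : GL (Fin n) K) (x y : Fin n → L) :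
    j (hf c H x y) = ((H.map j * (g : Matrix (Fin n) (Fin n) K))ᵀ *ᵥ fun k => j (c (x k))) ⬝ᵥ
      (((g⁻¹ : GL (Fin n) K) : Matrix (Fin n) (Fin n) K) *ᵥ fun k => j (y k)) := by
  rw [mulVec_transpose, ← dotProduct_mulVec, mulVec_mulVec, Matrix.mul_assoc, g.mul_inv,
    Matrix.mul_one]
  simp [hf, dotProduct, mulVec, map_sum]

lemma lat_conj {L : Type} [Field L] [NumberField L] {n : ℕ} {c : L ≃+* L} (hc : Conj c)
    {H : Matrix (Fin n) (Fin n) L} (hH : Herm c H) (x y : Fin n → L) :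
    c (hf c H x y) = hf c H y x := by
  have h : ∀ i k, c (H i k) = H k i := fun i k => congrFun (congrFun hH.herm k) i
  simp only [hf, dotProduct, mulVec, map_sum, map_mul, hc.invol, h, Finset.mul_sum]
  rw [Finset.sum_comm]
  exact Finset.sum_congr rfl fun i _ => Finset.sum_congr rfl fun k _ => by ring

lemma lat_Rc {L : Type} [Field L] {c : L ≃+* L} {b : 𝓞 L} (hb : c b = b) {x : L}
    (h : x ∈ Rb b) : c x ∈ Rb b := by
  obtain ⟨k, hk⟩ := h
  exact ⟨k, by simpa [hb] using int_conj c hk⟩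

lemma lat_dot {K : Type} [NormedField K] [IsUltrametricDist K] {n : ℕ} {u v : Fin n → K}
    (hu : ∀ i, ‖u i‖ ≤ 1) (hv : ∀ i, ‖v i‖ ≤ 1) : ‖u ⬝ᵥ v‖ ≤ 1 := by
  refine IsUltrametricDist.norm_sum_le_of_forall_le_of_nonneg zero_le_one fun l _ => ?_
  rw [norm_mul]
  exact mul_le_one₀ (hu l) (norm_nonneg _) (hv l)

lemma lat_lim {K : Type} [NormedField K] {n : ℕ} (A : Matrix (Fin n) (Fin n) K)
    (v z : Fin n → K) (h : ∀ ε : ℝ, 0 < ε → ∃ w : Fin n → K, (∀ i, ‖w i - z i‖ < ε) ∧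
      ‖(A *ᵥ w) ⬝ᵥ v‖ ≤ 1) : ‖(A *ᵥ z) ⬝ᵥ v‖ ≤ 1 := by
  have hc : IsClosed {w : Fin n → K | ‖(A *ᵥ w) ⬝ᵥ v‖ ≤ 1} :=
    isClosed_le (by fun_prop) continuous_const
  refine hc.closure_subset (Metric.mem_closure_iff.2 fun ε hε => ?_)
  obtain ⟨w, hw, h1⟩ := h ε hε
  refine ⟨w, h1, (dist_pi_lt_iff hε).2 fun i => ?_⟩
  rw [dist_comm, dist_eq_norm]
  exact hw i

lemma lat_sm {K : Type} [NormedField K] {n : ℕ} {A : Matrix (Fin n) (Fin n) K} {a : K}
    {v : Fin n → K} (ha : ‖a‖ ≤ 1) (h : ∀ i, ‖(A *ᵥ v) i‖ ≤ 1) (i : Fin n) :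
    ‖(A *ᵥ fun k => a * v k) i‖ ≤ 1 := by
  have e : (A *ᵥ fun k => a * v k) = a • (A *ᵥ v) := mulVec_smul A a v
  rw [e, Pi.smul_apply, smul_eq_mul, norm_mul]
  exact mul_le_one₀ ha (norm_nonneg _) (h i)

lemma lat_ad {K : Type} [NormedField K] [IsUltrametricDist K] {n : ℕ}
    {A : Matrix (Fin n) (Fin n) K} {u v : Fin n → K} (hu : ∀ i, ‖(A *ᵥ u) i‖ ≤ 1)
    (hv : ∀ i, ‖(A *ᵥ v) i‖ ≤ 1) (i : Fin n) : ‖(A *ᵥ fun k => u k + v k) i‖ ≤ 1 := by
  have e : (A *ᵥ fun k => u k + v k) = A *ᵥ u + A *ᵥ v := mulVec_add A u v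
  rw [e, Pi.add_apply]
  exact (IsUltrametricDist.norm_add_le_max _ _).trans (max_le (hu i) (hv i))

theorem p_LAT (hDEN : S_DEN) (hDUAL : S_DUAL) : S_LAT := by
  intro K L _ _ _ _ j c b n H g hc hG hH
  obtain ⟨hD1, hD2⟩ := hDEN K L j c b n H g hG hH
  obtain ⟨-, hU2, hU3⟩ := hDUAL L
  have hsm : ∀ a : L, IsIntegral ℤ a → ∀ x ∈ latM j c b H g, a • x ∈ latM j c b H g := by
    rintro a ha x ⟨h1, h2, h3⟩
    refine ⟨fun i => (Rb b).mul_mem (int_mem_Rb ha) (h1 i), ?_, ?_⟩
    · simpa only [Pi.smul_apply, smul_eq_mul, map_mul] using lat_sm (norm_map_le_one j ha) h2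
    · simpa only [Pi.smul_apply, smul_eq_mul, map_mul] using
        lat_sm (norm_map_le_one j (int_conj c ha)) h3
  have hdet : IsIntegral ℤ H.det := IsIntegral.det hH.int
  refine ⟨⟨fun i => (Rb b).zero_mem, fun i => ?_, fun i => ?_⟩, ?_, hsm, ?_, ?_, ?_⟩
  · simp [mulVec, dotProduct]
  · simp [mulVec, dotProduct]
  · rintro x ⟨h1, h2, h3⟩ y ⟨k1, k2, k3⟩
    refine ⟨fun i => (Rb b).add_mem (h1 i) (k1 i), ?_, ?_⟩
    · simpa only [Pi.add_apply, map_add] using lat_ad h2 k2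
    · simpa only [Pi.add_apply, map_add] using lat_ad h3 k3
  · rintro x ⟨h1, h2, h3⟩ y ⟨k1, k2, k3⟩
    refine hG.r1 _ ?_ ?_ ?_
    · simp only [hf, dotProduct, mulVec]
      exact (Rb b).sum_mem fun i _ => (Rb b).mul_mem (lat_Rc hG.fix (h1 i))
        ((Rb b).sum_mem fun k _ => (Rb b).mul_mem (int_mem_Rb (hH.int i k)) (k1 k))
    · rw [lat_key j c H g]
      exact lat_dot h3 k2
    · rw [lat_conj hc hH, lat_key j c H g]
      exact lat_dot k3 h2
  · intro y hy
    have hne : (H.map j * (g : Matrix (Fin n) (Fin n) K))ᵀ.det ≠ 0 := by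
      obtain ⟨φ⟩ : Nonempty (L →+* ℂ) := inferInstance
      have h0 : H.det ≠ 0 := by
        intro h0
        have h1 := (hH.pos φ).det_pos.ne'
        apply h1
        have := RingHom.map_det φ H
        rw [h0, map_zero] at this
        exact this.symm
      rw [det_transpose, det_mul]
      refine mul_ne_zero ?_ (Matrix.GeneralLinearGroup.det_ne_zero g)
      have := RingHom.map_det j H
      rw [RingHom.mapMatrix_apply] at this
      rw [← this]
      exact (map_ne_zero j).2 h0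
    have one : ∀ i l : Fin n, ‖(Pi.single i 1 : Fin n → K) l‖ ≤ 1 := by
      intro i l
      rw [Pi.single_apply]
      split_ifs <;> simp
    have zero : ∀ (A : Matrix (Fin n) (Fin n) K) (l : Fin n), ‖(A *ᵥ 0) l‖ ≤ 1 := by
      intro A l
      simp
    refine ⟨fun i => ?_, ?_, ?_⟩
    · have h1 : ∀ k, (H *ᵥ y) k ∈ Rb b := by
        intro k
        obtain ⟨r, hr⟩ := hD1 (Pi.single k 1) fun l => by
          rw [Pi.single_apply]
          split_ifs
          exacts [(Rb b).one_mem, (Rb b).zero_mem]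
        refine ⟨r, ?_⟩
        have := hy _ hr
        simpa [hf, dotProduct, Pi.single_apply, apply_ite, hG.fix] using this
      have e : H.det • y = H.adjugate *ᵥ (H *ᵥ y) := by
        rw [mulVec_mulVec, adjugate_mul, smul_mulVec, one_mulVec]
      rw [e]
      change ∑ k, H.adjugate i k * (H *ᵥ y) k ∈ Rb b
      refine (Rb b).sum_mem fun k _ => (Rb b).mul_mem (int_mem_Rb ?_) (h1 k)
      rw [adjugate_apply]
      refine IsIntegral.det fun r s => ?_
      rw [updateRow_apply]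
      split_ifs
      · rw [Pi.single_apply]
        split_ifs
        exacts [isIntegral_one, isIntegral_zero]
      · exact hH.int r s
    · simp only [Pi.smul_apply, smul_eq_mul, map_mul]
      refine lat_sm (norm_map_le_one j hdet) fun i => ?_
      set A := (H.map j * (g : Matrix (Fin n) (Fin n) K))ᵀ with hA
      have e : A *ᵥ (A⁻¹ *ᵥ Pi.single i 1) = Pi.single i 1 := by
        rw [mulVec_mulVec, mul_nonsing_inv _ (Ne.isUnit hne), one_mulVec]
      have := lat_lim A (((g⁻¹ : GL (Fin n) K) : Matrix (Fin n) (Fin n) K) *ᵥ fun k => j (y k))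
        (A⁻¹ *ᵥ Pi.single i 1) fun ε hε => by
          obtain ⟨x, hx, h⟩ := hD2 0 _ (zero _) (by rw [e]; exact one i) ε hε
          refine ⟨_, fun l => (h l).2, ?_⟩
          rw [← lat_key]
          exact norm_map_le_one j (hy x hx)
      rwa [e, single_one_dotProduct] at this
    · simp only [Pi.smul_apply, smul_eq_mul, map_mul]
      refine lat_sm (norm_map_le_one j (int_conj c hdet)) fun i => ?_
      have e : ((g⁻¹ : GL (Fin n) K) : Matrix (Fin n) (Fin n) K) *ᵥ
          ((g : Matrix (Fin n) (Fin n) K) *ᵥ Pi.single i 1) = Pi.single i 1 := by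
        rw [mulVec_mulVec, g.inv_mul, one_mulVec]
      have := lat_lim ((g⁻¹ : GL (Fin n) K) : Matrix (Fin n) (Fin n) K)
        ((H.map j * (g : Matrix (Fin n) (Fin n) K))ᵀ *ᵥ fun k => j (c (y k)))
        ((g : Matrix (Fin n) (Fin n) K) *ᵥ Pi.single i 1) fun ε hε => by
          obtain ⟨x, hx, h⟩ := hD2 _ 0 (by rw [e]; exact one i) (zero _) ε hε
          refine ⟨_, fun l => (h l).1, ?_⟩
          rw [dotProduct_comm, ← lat_key, ← lat_conj hc hH]
          exact norm_map_le_one j (int_conj c (hy x hx))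
      rwa [e, single_one_dotProduct] at this
  · intro x
    obtain ⟨N, hN, h1⟩ := hU3 n x
    obtain ⟨k, hk⟩ := hD1 ((N : L) • x) fun i => int_mem_Rb (h1 i)
    obtain ⟨N', hN', e, he, h2⟩ := hU2 ((b : L) ^ k) (IsIntegral.pow b.2 k) (pow_ne_zero k hG.ne)
    refine ⟨N' * N, mul_ne_zero hN' hN, ?_⟩
    have := hsm e he _ hk
    rwa [smul_smul, smul_smul, ← h2, ← Nat.cast_mul] at this

end Pool.Agent.P.MP_7cb106_nt.T

end TLAT

section TISO
set_option autoImplicit false

namespace Pool.Agent.P.MP_7cb106_nt.T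

open Matrix Polynomial Module NumberField
open scoped TensorProduct ComplexOrder

theorem iso_one (hDEN : S_DEN) {K L : Type} [NormedField K] [IsUltrametricDist K] [Field L]
    [NumberField L] {j : L →+* K} {c : L ≃+* L} {b : 𝓞 L} {n : ℕ}
    {H : Matrix (Fin n) (Fin n) L} (g t : GL (Fin n) K) (u : Matrix (Fin n) (Fin n) L)
    (hG : Good j c b) (hH : Herm c H)
    (h : ∀ x, x ∈ latM j c b H t → u *ᵥ x ∈ latM j c b H g) :
    (∀ i k, u i k ∈ Rb b) ∧ ∀ i k, ‖(((g⁻¹ : GL (Fin n) K) : Matrix (Fin n) (Fin n) K) *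
      u.map j * (t : Matrix (Fin n) (Fin n) K)) i k‖ ≤ 1 := by
  obtain ⟨d1, d2⟩ := hDEN K L j c b n H t hG hH
  refine ⟨fun i k => ?_, fun i k => ?_⟩
  · obtain ⟨m, hm⟩ := d1 (Pi.single k 1) fun l => by
      rw [Pi.single_apply]
      split_ifs
      exacts [(Rb b).one_mem, (Rb b).zero_mem]
    obtain ⟨l, hl⟩ := (h _ hm).1 i
    refine ⟨l + m, ?_⟩
    rw [Matrix.mulVec_smul, Matrix.mulVec_single_one] at hl
    simpa [pow_add, mul_assoc] using hl
  · generalize hP : ((g⁻¹ : GL (Fin n) K) : Matrix (Fin n) (Fin n) K) * u.map j = P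
    refine le_of_forall_pos_le_add fun ε hε => ?_
    have hS : 0 ≤ ∑ l, ‖P i l‖ := Finset.sum_nonneg fun l _ => norm_nonneg _
    obtain ⟨x, hx, hz⟩ := d2 ((t : Matrix (Fin n) (Fin n) K) *ᵥ Pi.single k 1) 0
      (fun l => by
        rw [Matrix.mulVec_mulVec, Units.inv_mul, Matrix.one_mulVec, Pi.single_apply]
        split_ifs <;> simp)
      (fun l => by simp) (ε / (∑ l, ‖P i l‖ + 1)) (by positivity)
    have h1 := (h x hx).2.1 i
    have e1 : (fun k => j ((u *ᵥ x) k)) = u.map j *ᵥ fun k => j (x k) := by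
      ext l
      exact RingHom.map_mulVec j u x l
    rw [e1, Matrix.mulVec_mulVec, hP] at h1
    have e2 : (P * (t : Matrix (Fin n) (Fin n) K)) i k = (P *ᵥ fun k => j (x k)) i -
        ∑ l, P i l * (j (x l) - ((t : Matrix (Fin n) (Fin n) K) *ᵥ Pi.single k 1) l) := by
      simp [Matrix.mul_apply, Matrix.mulVec, dotProduct, mul_sub, Pi.single_apply]
    rw [e2]
    refine (norm_sub_le _ _).trans (add_le_add h1 ((norm_sum_le _ _).trans ?_))
    calc _ ≤ ∑ l, ‖P i l‖ * (ε / (∑ l, ‖P i l‖ + 1)) := Finset.sum_le_sum fun l _ => by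
          rw [norm_mul]
          exact mul_le_mul_of_nonneg_left (hz l).1.le (norm_nonneg _)
      _ = (∑ l, ‖P i l‖) / (∑ l, ‖P i l‖ + 1) * ε := by rw [← Finset.sum_mul]; ring
      _ ≤ 1 * ε := by
          gcongr
          rw [div_le_one (by positivity)]
          linarith
      _ = ε := one_mul ε

theorem p_ISO (hDEN : S_DEN) :
    S_ISO := by
  intro K L _ _ _ _ j c b n H g t u hG hH hU h
  obtain ⟨a1, a2⟩ := iso_one hDEN g t u hG hH fun x => (h x).1
  obtain ⟨b1, b2⟩ := iso_one hDEN t g ((u⁻¹ : GL (Fin n) L) : Matrix (Fin n) (Fin n) L) hG hH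
    fun x hx => (h _).2 (by rwa [Matrix.mulVec_mulVec, Units.mul_inv, Matrix.one_mulVec])
  refine ⟨⟨a1, b1, hU⟩, a2, ?_⟩
  have e : (g⁻¹ * Matrix.GeneralLinearGroup.map j u * t)⁻¹ =
      t⁻¹ * Matrix.GeneralLinearGroup.map j u⁻¹ * g := by
    rw [map_inv]
    group
  rw [e]
  exact b2

end Pool.Agent.P.MP_7cb106_nt.T

end TISO
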