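import Pool.Agent.P.MP_7cb106_nt.T.IfaceA
import Pool.Agent.P.MP_59bdab_ag.HERM
import Pool.Agent.P.MP_59bdab_ag.EXT

/-! Steps CS ZB HER SHORT GRAM COC IDX UNI CONJ. -/

section TCS
set_option autoImplicit false

namespace Pool.Agent.P.MP_7cb106_nt.T

open Matrix Polynomial Module NumberField
open scoped TensorProduct ComplexOrder

lemma cs_map {L : Type} [Field L] {c : L ≃+* L} {n : ℕ} (H : Matrix (Fin n) (Fin n) L)
    (hc : Conj c) (φ : L →+* ℂ) (x y : Fin n → L) :
    φ (hf c H x y) = star (φ ∘ x) ⬝ᵥ (H.map φ *ᵥ (φ ∘ y)) := by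
  simp only [hf, dotProduct, mulVec, map_sum, map_mul, hc φ, Pi.star_apply, Function.comp_apply,
    map_apply, RCLike.star_def]

lemma cs_swap {n : ℕ} {M : Matrix (Fin n) (Fin n) ℂ} (hM : M.IsHermitian) (x y : Fin n → ℂ) :
    star y ⬝ᵥ (M *ᵥ x) = star (star x ⬝ᵥ (M *ᵥ y)) := by
  rw [← star_dotProduct_star, star_star, star_mulVec, hM.eq, ← dotProduct_mulVec,
    dotProduct_comm, dotProduct_comm (M *ᵥ x)]

lemma cs_ineq {n : ℕ} {M : Matrix (Fin n) (Fin n) ℂ} (hM : M.PosSemidef) (x y : Fin n → ℂ) :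
    2 * ‖star x ⬝ᵥ (M *ᵥ y)‖ ≤ (star x ⬝ᵥ (M *ᵥ x)).re + (star y ⬝ᵥ (M *ᵥ y)).re := by
  obtain ⟨u, hu, e⟩ := Complex.exists_norm_eq_mul_self (star x ⬝ᵥ (M *ᵥ y))
  have h := hM.dotProduct_mulVec_nonneg (x - u • y)
  have h1 : star u * u = 1 := by
    rw [RCLike.star_def, Complex.conj_mul', hu]; simp
  have h2 : star u * star (star x ⬝ᵥ (M *ᵥ y)) = ‖star x ⬝ᵥ (M *ᵥ y)‖ := by
    rw [← star_mul', ← e]; simp
  simp only [star_sub, star_smul, mulVec_sub, mulVec_smul, sub_dotProduct, dotProduct_sub,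
    smul_dotProduct, dotProduct_smul, smul_eq_mul] at h
  rw [cs_swap hM.1 x y, h2, mul_sub, ← e, ← mul_assoc, mul_comm u, h1] at h
  have := (Complex.le_def.1 h).1
  simp only [Complex.zero_re, Complex.sub_re, Complex.ofReal_re, one_mul] at this
  linarith

lemma cs_trace {L : Type} [Field L] [NumberField L] (z : L) :
    ((Algebra.trace ℚ L z : ℝ) : ℂ) = ∑ φ : L →+* ℂ, φ z := by
  have := trace_eq_sum_embeddings ℂ (K := ℚ) (x := z)
  rw [← Fintype.sum_equiv (RingHom.equivRatAlgHom L ℂ) (fun φ => φ z) (fun φ => φ z)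
    fun _ => by simp [RingHom.equivRatAlgHom_apply]] at this
  rw [← this]
  simp

lemma cs_trace_re {L : Type} [Field L] [NumberField L] (z : L) :
    (Algebra.trace ℚ L z : ℝ) = ∑ φ : L →+* ℂ, (φ z).re := by
  rw [← Complex.re_sum, ← cs_trace, Complex.ofReal_re]

theorem p_CS :
    S_CS := by
  intro L _ _ c n H hc hH
  have hn : ∀ (φ : L →+* ℂ) x, 0 ≤ (φ (hf c H x x)).re := fun φ x => by
    rw [cs_map H hc]
    exact (Complex.le_def.1 ((hH.pos φ).posSemidef.dotProduct_mulVec_nonneg _)).1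
  refine ⟨fun x y => ?_, fun x hx => ?_, fun B x y hx hy φ => ?_⟩
  · rw [← Rat.cast_inj (α := ℝ), cs_trace_re, cs_trace_re]
    refine Finset.sum_congr rfl fun φ _ => ?_
    rw [cs_map H hc, cs_map H hc, cs_swap (hH.pos φ).1 (φ ∘ x)]
    simp
  · rw [← Rat.cast_pos (K := ℝ), cs_trace_re]
    refine Finset.sum_pos (fun φ _ => ?_) Finset.univ_nonempty
    rw [cs_map H hc]
    refine (Complex.lt_def.1 ((hH.pos φ).dotProduct_mulVec_pos fun e => hx ?_)).1
    funext i
    exact φ.injective (by simpa using congrFun e i)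
  · rw [cs_trace_re] at hx hy
    have h1 := (Finset.single_le_sum (fun ψ _ => hn ψ x) (Finset.mem_univ φ)).trans hx
    have h2 := (Finset.single_le_sum (fun ψ _ => hn ψ y) (Finset.mem_univ φ)).trans hy
    have := cs_ineq (hH.pos φ).posSemidef (φ ∘ x) (φ ∘ y)
    rw [cs_map H hc] at h1 h2 ⊢
    linarith

end Pool.Agent.P.MP_7cb106_nt.T

end TCS

section TZB
set_option autoImplicit false

namespace Pool.Agent.P.MP_7cb106_nt.T

open Matrix Polynomial Module NumberField
open scoped TensorProduct ComplexOrder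

theorem p_ZB :
    S_ZB := by
  intro L _ _ c n H D M hH hM
  let M' : Submodule ℤ (Fin n → L) :=
    { carrier := M
      zero_mem' := hM.zero
      add_mem' := fun ha hb => hM.add _ ha _ hb
      smul_mem' := fun a x hx => by
        have := hM.smul (a : L) (isIntegral_algebraMap (R := ℤ) (x := a)) x hx
        rwa [Int.cast_smul_eq_zsmul] at this }
  have det : H.det ≠ 0 := by
    obtain ⟨φ⟩ : Nonempty (L →+* ℂ) := inferInstance
    intro e
    have := (hH.pos φ).det_pos
    rw [← RingHom.mapMatrix_apply, ← RingHom.map_det, e, map_zero] at this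
    exact lt_irrefl _ this
  choose N N0 hN using fun i : Fin n => hM.span (Pi.single i 1)
  have int : ∀ y ∈ M, ∀ i, IsIntegral ℤ ((N i : L) * (H *ᵥ y) i) := fun y hy i => by
    have := hM.int _ (hN i) y hy
    rwa [hf, dotProduct, Finset.sum_eq_single i (fun k _ hk => by simp [hk]) (by simp),
      Pi.smul_apply, Pi.single_eq_same, smul_eq_mul, mul_one, map_natCast] at this
  let f : M' →ₗ[ℤ] (Fin n → 𝓞 L) :=
    { toFun := fun y i => ⟨_, int y.1 y.2 i⟩
      map_add' := fun a b => by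
        funext i; apply Subtype.ext
        change (N i : L) * (H *ᵥ (a.1 + b.1)) i = N i * (H *ᵥ a.1) i + N i * (H *ᵥ b.1) i
        rw [mulVec_add, Pi.add_apply, mul_add]
      map_smul' := fun a b => by
        funext i; apply Subtype.ext
        change (N i : L) * (H *ᵥ (a • b.1)) i = a • (N i * (H *ᵥ b.1) i)
        rw [mulVec_smul, Pi.smul_apply, mul_smul_comm] }
  have inj : Function.Injective f := by
    rw [injective_iff_map_eq_zero]
    intro a ha
    apply Subtype.ext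
    refine Matrix.eq_zero_of_mulVec_eq_zero det (funext fun i => ?_)
    have : (N i : L) * (H *ᵥ a.1) i = 0 := congrArg Subtype.val (congrFun ha i)
    exact (mul_eq_zero.1 this).resolve_left (Nat.cast_ne_zero.2 (N0 i))
  have fin : Module.Finite ℤ M' := Module.Finite.of_injective f inj
  have lat : Submodule.IsLattice ℚ M' :=
    { fg := Module.Finite.iff_fg.1 fin
      span_eq_top := by
        rw [eq_top_iff]
        intro x _
        obtain ⟨k, k0, hk⟩ := hM.span x
        have : x = (k : ℚ)⁻¹ • ((k : L) • x) := by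
          rw [Nat.cast_smul_eq_nsmul, ← Nat.cast_smul_eq_nsmul ℚ, smul_smul,
            inv_mul_cancel₀ (Nat.cast_ne_zero.2 k0), one_smul]
        rw [this]
        exact Submodule.smul_mem _ _ (Submodule.subset_span hk) }
  have rk : finrank ℤ M' = n * finrank ℚ L := by
    rw [finrank, Submodule.IsLattice.rank' ℚ M']
    change finrank ℚ (Fin n → L) = _
    rw [Module.finrank_pi_fintype]; simp
  let b := Module.finBasisOfFinrankEq ℤ M' rk
  refine ⟨b.extendOfIsLattice ℚ, ?_⟩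
  have : Submodule.span ℤ (Set.range (b.extendOfIsLattice ℚ)) = M' := by
    have e : Set.range (b.extendOfIsLattice ℚ) = M'.subtype '' Set.range b := by
      rw [← Set.range_comp]; congr 1; funext k; simp
    rw [e, ← Submodule.map_span, b.span_eq, Submodule.map_subtype_top]
  rw [this]; rfl

end Pool.Agent.P.MP_7cb106_nt.T

end TZB

section THER
set_option autoImplicit false

namespace Pool.Agent.P.MP_7cb106_nt.T

open Matrix Polynomial Module NumberField
open scoped TensorProduct ComplexOrder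

lemma her_cast {N : ℕ} (K : Type) [Field K] (Z : Matrix (Fin N) (Fin N) ℤ) (v : Fin N → ℤ) :
    (fun i => (v i : K)) ⬝ᵥ Z.map (Int.cast : ℤ → K) *ᵥ (fun i => (v i : K)) =
      ((v ⬝ᵥ Z *ᵥ v : ℤ) : K) := by
  simp [dotProduct, mulVec]

lemma her_psd {N : ℕ} (Z : Matrix (Fin N) (Fin N) ℤ) (hs : ∀ a e, Z a e = Z e a)
    (h : ∀ w : Fin N → ℚ, 0 ≤ w ⬝ᵥ Z.map (Int.cast : ℤ → ℚ) *ᵥ w) :
    (Z.map (Int.cast : ℤ → ℝ)).PosSemidef := by
  refine posSemidef_iff_dotProduct_mulVec.2 ⟨?_, fun v => ?_⟩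
  · ext a e
    simp [hs a e]
  · have hd : DenseRange (Pi.map fun (_ : Fin N) => (Rat.cast : ℚ → ℝ)) :=
      DenseRange.piMap fun _ => Rat.denseRange_cast
    refine hd.induction_on v (isClosed_le continuous_const ?_) fun w => ?_
    · simp only [dotProduct, mulVec]
      fun_prop
    · have := (Rat.cast_nonneg (K := ℝ)).2 (h w)
      simpa [dotProduct, mulVec] using this

theorem p_HER :
    S_HER := by
  intro N d hd
  obtain ⟨C, hC⟩ := MP_59bdab_ag.p_HERM MP_59bdab_ag.p_EXT (Fin N) 1 ((d : ℝ) ^ N) one_pos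
  refine ⟨C, fun V _ _ q x hs hp hz hdu => ?_⟩
  choose Z hZ using hz
  let Z' : Matrix (Fin N) (Fin N) ℤ := Matrix.of Z
  have h1 : ∀ (w : Fin N → ℚ) (a : Fin N),
      q (x a) (∑ e, w e • x e) = (Z'.map (Int.cast : ℤ → ℚ) *ᵥ w) a := fun w a => by
    simp [mulVec, dotProduct, hZ, Z', mul_comm]
  have h2 : ∀ w : Fin N → ℚ, q (∑ e, w e • x e) (∑ e, w e • x e) =
      w ⬝ᵥ Z'.map (Int.cast : ℤ → ℚ) *ᵥ w := fun w => by
    rw [map_sum q, LinearMap.sum_apply]
    simp only [map_smul q, LinearMap.smul_apply, h1, dotProduct, smul_eq_mul]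
  have h3 : ∀ w : Fin N → ℚ, w ≠ 0 → 0 < w ⬝ᵥ Z'.map (Int.cast : ℤ → ℚ) *ᵥ w := fun w hw =>
    h2 w ▸ hp _ fun h => hw (funext (Fintype.linearIndependent_iff.1 x.linearIndependent w h))
  have h4 : Function.Surjective (Z'.map (Int.cast : ℤ → ℚ)).mulVec := by
    rw [mulVec_surjective_iff_isUnit, ← mulVec_injective_iff_isUnit]
    intro w w' h
    by_contra hne
    have := h3 _ (sub_ne_zero.2 hne)
    rw [mulVec_sub, h, sub_self, dotProduct_zero] at this
    exact this.false
  choose w hw using fun a => h4 (Pi.single a 1)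
  have h5 : ∀ a i, ∃ t : ℤ, (t : ℚ) = d * w a i := fun a i => by
    have := (x.mem_span_iff_repr_mem ℤ _).1 (hdu (∑ e, w a e • x e) fun b =>
      ⟨Pi.single (M := fun _ => ℤ) a 1 b, by rw [h1, hw]; simp [Pi.single_apply]⟩) i
    rw [map_smul, Finsupp.smul_apply, x.repr_sum_self] at this
    exact this
  choose Y hY using h5
  have h6 : Z' * (Matrix.of Y)ᵀ = (d : ℤ) • (1 : Matrix (Fin N) (Fin N) ℤ) := by
    ext a e
    have := congrFun (hw e) a
    apply Int.cast_injective (α := ℚ)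
    simp only [mulVec, dotProduct, map_apply, Pi.single_apply] at this
    simp only [mul_apply, transpose_apply, of_apply, Int.cast_sum, Int.cast_mul, hY,
      mul_left_comm _ (d : ℚ), ← Finset.mul_sum, this]
    simp [one_apply]
  have h7 : Z'.det * (Matrix.of Y)ᵀ.det = (d : ℤ) ^ N := by
    rw [← det_mul, h6, det_smul, det_one, mul_one, Fintype.card_fin]
  have h8 : (0 : ℤ) < (d : ℤ) ^ N := by positivity
  have h9 : (Z'.map (Int.cast : ℤ → ℝ)).det = Z'.det := (Int.cast_det Z').symm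
  obtain ⟨U, hU, hB⟩ := hC (Z'.map (Int.cast : ℤ → ℝ))
    ((her_psd Z' (fun a e => Int.cast_injective (α := ℚ) (by
        change ((Z a e : ℤ) : ℚ) = Z e a
        rw [← hZ, ← hZ, hs])) fun w => by
        by_cases h : w = 0
        · simp [h]
        · exact (h3 w h).le).posDef_iff_det_ne_zero.2 (by
      rw [h9, Int.cast_ne_zero]
      exact left_ne_zero_of_mul (h7 ▸ h8.ne')))
    (by rw [h9]; exact_mod_cast Int.le_of_dvd h8 ⟨_, h7.symm⟩) fun v hv => by
      have := h3 (fun i => v i) fun h => hv (funext fun i => by simpa using congrFun h i)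
      rw [her_cast] at this
      exact le_of_le_of_eq (by exact_mod_cast this) (her_cast ℝ Z' v).symm
  have hU' : IsUnit (U.map (Int.cast : ℤ → ℚ)).det :=
    Int.cast_det (R := ℚ) U ▸ hU.map (Int.castRingHom ℚ)
  have hx : ∀ j, x.map (Matrix.toLinearEquiv x _ hU') j = ∑ i, (U i j : ℚ) • x i := fun j => by
    simp [Matrix.toLin_self]
  refine ⟨x.map (Matrix.toLinearEquiv x _ hU'), le_antisymm ?_ ?_, fun a => ?_⟩
  · rw [Submodule.span_le, Set.range_subset_iff]
    intro j
    rw [hx]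
    exact Submodule.sum_mem _ fun i _ => by
      rw [Int.cast_smul_eq_zsmul]
      exact Submodule.smul_mem _ _ (Submodule.subset_span ⟨i, rfl⟩)
  · rw [Submodule.span_le, Set.range_subset_iff]
    intro i
    have : x i = ∑ j, U⁻¹ j i • x.map (Matrix.toLinearEquiv x _ hU') j := by
      simp only [hx, Int.cast_smul_eq_zsmul, Finset.smul_sum, smul_smul]
      rw [Finset.sum_comm]
      simp only [← Finset.sum_smul, mul_comm (U⁻¹ _ _), ← mul_apply, mul_nonsing_inv U hU]
      simp [one_apply]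
    rw [this]
    exact Submodule.sum_mem _ fun j _ => Submodule.smul_mem _ _ (Submodule.subset_span ⟨j, rfl⟩)
  · rw [hx, h2, her_cast ℚ Z' fun i => U i a, Rat.cast_intCast, ← her_cast]
    exact hB a

end Pool.Agent.P.MP_7cb106_nt.T

end THER

section TSHORT
set_option autoImplicit false

namespace Pool.Agent.P.MP_7cb106_nt.T

open Matrix Polynomial Module NumberField
open scoped TensorProduct ComplexOrder

section
variable {L : Type} [Field L] {n : ℕ} (c : L ≃+* L) (H : Matrix (Fin n) (Fin n) L)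

lemma short_add_left (x x' y : Fin n → L) : hf c H (x + x') y = hf c H x y + hf c H x' y := by
  simp only [hf, dotProduct, Pi.add_apply, map_add, add_mul, Finset.sum_add_distrib]

lemma short_add_right (x y y' : Fin n → L) : hf c H x (y + y') = hf c H x y + hf c H x y' := by
  simp only [hf, mulVec_add, dotProduct_add]

lemma short_smul_left (a : L) (x y : Fin n → L) : hf c H (a • x) y = c a * hf c H x y := by
  simp only [hf, dotProduct, Pi.smul_apply, smul_eq_mul, map_mul, mul_assoc, Finset.mul_sum]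

lemma short_smul_right (a : L) (x y : Fin n → L) : hf c H x (a • y) = a * hf c H x y := by
  simp only [hf, mulVec_smul, dotProduct_smul, smul_eq_mul]

variable [NumberField L]

/-- the trace form -/
noncomputable def short_q : (Fin n → L) →ₗ[ℚ] (Fin n → L) →ₗ[ℚ] ℚ :=
  LinearMap.mk₂ ℚ (fun v w => Algebra.trace ℚ L (hf c H v w))
    (fun x x' y => by rw [short_add_left, map_add])
    (fun r x y => by
      rw [← Rat.cast_smul_eq_qsmul L, short_smul_left, map_ratCast, ← map_smul, Rat.smul_def])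
    (fun x y y' => by rw [short_add_right, map_add])
    (fun r x y => by
      rw [← Rat.cast_smul_eq_qsmul L, short_smul_right, ← map_smul, Rat.smul_def])

lemma short_q_apply (v w : Fin n → L) : short_q c H v w = Algebra.trace ℚ L (hf c H v w) := rfl

lemma short_tr {z : L} (h : IsIntegral ℤ z) : ∃ t : ℤ, Algebra.trace ℚ L z = t := by
  obtain ⟨t, ht⟩ := IsIntegrallyClosed.isIntegral_iff.1 (Algebra.isIntegral_trace (L := ℚ) h)
  exact ⟨t, by simpa using ht.symm⟩

end

theorem p_SHORT (hDUAL : S_DUAL) (hCS : S_CS) (hZB : S_ZB) (hHER : S_HER) :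
    S_SHORT := by
  intro L _ _ c n H D hc hH hD hD0
  obtain ⟨⟨d, hd, hdz⟩, hN, -⟩ := hDUAL L
  obtain ⟨N, hN0, e, he, hNe⟩ := hN D hD hD0
  obtain ⟨cs1, cs2, cs3⟩ := hCS L c n H hc hH
  obtain ⟨B, hB⟩ := hHER (n * finrank ℚ L) (d * N) (mul_ne_zero hd hN0)
  refine ⟨B, fun M hM => ?_⟩
  obtain ⟨x, hx⟩ := hZB L c n H D M hH hM
  have hxM : ∀ a, x a ∈ M := fun a => by
    rw [hx]
    exact Submodule.subset_span ⟨a, rfl⟩
  obtain ⟨x', e', hb⟩ := hB (Fin n → L) (short_q c H) x cs1 cs2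
    (fun a b => short_tr (hM.int _ (hxM a) _ (hxM b))) (by
      intro y hy
      have h1 : ∀ v ∈ Submodule.span ℤ (Set.range x), ∃ t : ℤ, short_q c H v y = t := by
        intro v hv
        induction hv using Submodule.span_induction with
        | mem v hv =>
          obtain ⟨a, rfl⟩ := hv
          exact hy a
        | zero => exact ⟨0, by simp⟩
        | add u v _ _ hu hv =>
          obtain ⟨s, hs⟩ := hu
          obtain ⟨t, ht⟩ := hv
          exact ⟨s + t, by rw [map_add, LinearMap.add_apply, hs, ht, Int.cast_add]⟩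
        | smul a v _ hv =>
          obtain ⟨t, ht⟩ := hv
          exact ⟨a * t, by
            rw [map_zsmul, LinearMap.smul_apply, ht, zsmul_eq_mul, Int.cast_mul]⟩
      have h2 : D • (d : L) • y ∈ M := by
        refine hM.dual _ fun v hv => ?_
        rw [short_smul_right]
        refine hdz _ fun a ha => ?_
        have h3 := hM.smul (c a) (int_conj c ha) v hv
        rw [hx] at h3
        have h4 := h1 _ h3
        rwa [short_q_apply, short_smul_left, hc.invol] at h4
      have h5 := hM.smul e he _ h2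
      rw [smul_smul, smul_smul, ← hNe, hx] at h5
      rw [← Rat.cast_smul_eq_qsmul L]
      push_cast
      rw [mul_comm (d : L)]
      exact h5)
  have hx' : M = (Submodule.span ℤ (Set.range x') : Set (Fin n → L)) := by rw [e', hx]
  have hxM' : ∀ a, x' a ∈ M := fun a => by
    rw [hx']
    exact Submodule.subset_span ⟨a, rfl⟩
  exact ⟨x', hx', fun a b => ⟨hM.int _ (hxM' a) _ (hxM' b), cs3 B _ _ (hb a) (hb b)⟩⟩

end Pool.Agent.P.MP_7cb106_nt.T

end TSHORT

section TGRAM
set_option autoImplicit false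

namespace Pool.Agent.P.MP_7cb106_nt.T

open Matrix Polynomial Module NumberField
open scoped TensorProduct ComplexOrder

lemma gram_rinv {L : Type} [Field L] {n : ℕ} {ι : Type} [Fintype ι] {x : ι → Fin n → L}
    (h : Submodule.span L (Set.range x) = ⊤) :
    ∃ A : Matrix ι (Fin n) L, (Matrix.of x)ᵀ * A = 1 := by
  have h1 : ∀ k : Fin n, ∃ a : ι → L, ∑ e, a e • x e = Pi.single k 1 := fun k =>
    (Submodule.mem_span_range_iff_exists_fun L).1 (h ▸ Submodule.mem_top)
  choose a ha using h1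
  refine ⟨(Matrix.of a)ᵀ, ?_⟩
  ext i k
  have := congrFun (ha k) i
  rw [Finset.sum_apply] at this
  rw [Matrix.mul_apply, Matrix.one_apply, ← Pi.single_apply, ← this]
  exact Finset.sum_congr rfl fun e _ => by simp [mul_comm]

lemma gram_ent {L : Type} [Field L] {n : ℕ} {ι : Type} (c : L ≃+* L)
    (H : Matrix (Fin n) (Fin n) L) (x : ι → Fin n → L) (a e : ι) :
    (((Matrix.of x)ᵀ.map c)ᵀ * H * (Matrix.of x)ᵀ) a e = hf c H (x a) (x e) := by
  rw [Matrix.mul_assoc]
  rfl

lemma gram_star {L : Type} [Field L] {α β γ : Type} [Fintype β] (c : L ≃+* L)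
    (A : Matrix α β L) (B : Matrix β γ L) :
    ((A * B).map c)ᵀ = (B.map c)ᵀ * (A.map c)ᵀ := by
  have e : (A * B).map c = A.map c * B.map c := Matrix.map_mul (f := c)
  rw [e, transpose_mul]

theorem p_GRAM :
    S_GRAM := by
  intro L _ c n H ι _ x y hH hx hy hg
  obtain ⟨A, hA⟩ := gram_rinv hx
  obtain ⟨B, hB⟩ := gram_rinv hy
  have hG : ((Matrix.of x)ᵀ.map c)ᵀ * H * (Matrix.of x)ᵀ =
      ((Matrix.of y)ᵀ.map c)ᵀ * H * (Matrix.of y)ᵀ := by
    ext a e
    rw [gram_ent, gram_ent, hg]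
  have hcol : ∀ u : Matrix (Fin n) (Fin n) L, u * (Matrix.of x)ᵀ = (Matrix.of y)ᵀ →
      ∀ a, u *ᵥ x a = y a := fun u hu a => funext fun i => congrFun (congrFun hu i) a
  generalize (Matrix.of x)ᵀ = X at hA hG hcol
  generalize (Matrix.of y)ᵀ = Y at hB hG hcol
  have h1 : ((1 : Matrix (Fin n) (Fin n) L).map c)ᵀ = 1 := by
    rw [Matrix.map_one _ (map_zero c) (map_one c), transpose_one]
  have hU : Uni c H (Y * A) := by
    unfold Uni
    rw [gram_star]
    calc (A.map c)ᵀ * (Y.map c)ᵀ * H * (Y * A) = (A.map c)ᵀ * ((Y.map c)ᵀ * H * Y) * A := by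
          simp only [Matrix.mul_assoc]
      _ = (A.map c)ᵀ * (X.map c)ᵀ * H * (X * A) := by
          rw [← hG]
          simp only [Matrix.mul_assoc]
      _ = H := by rw [← gram_star, hA, h1, Matrix.one_mul, Matrix.mul_one]
  have hd : (Y * A).det ≠ 0 := by
    intro h
    have := congrArg Matrix.det (show _ = H from hU)
    rw [det_mul, h, mul_zero] at this
    exact hH this.symm
  have hY : H * Y = (B.map c)ᵀ * ((X.map c)ᵀ * H * X) := by
    rw [hG, ← Matrix.mul_assoc, ← Matrix.mul_assoc, ← gram_star, hB, h1, Matrix.one_mul]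
  have hX : H * (Y * A * X) = H * Y := by
    rw [← Matrix.mul_assoc, ← Matrix.mul_assoc, hY]
    simp only [Matrix.mul_assoc]
    rw [← Matrix.mul_assoc X A X, hA, Matrix.one_mul]
  refine ⟨Matrix.GeneralLinearGroup.mkOfDetNeZero _ hd, hU, hcol _ ?_⟩
  have := congrArg (fun M => H⁻¹ * M) hX
  simp only [← Matrix.mul_assoc, Matrix.nonsing_inv_mul H (Ne.isUnit hH), Matrix.one_mul] at this
  exact this

end Pool.Agent.P.MP_7cb106_nt.T

end TGRAM

section TCOC
set_option autoImplicit false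

namespace Pool.Agent.P.MP_7cb106_nt.T

open Matrix Polynomial Module NumberField
open scoped TensorProduct ComplexOrder

lemma coc_det {L : Type} [Field L] [NumberField L] {n : ℕ} {c : L ≃+* L}
    {H : Matrix (Fin n) (Fin n) L} (h : Herm c H) : IsIntegral ℤ H.det ∧ H.det ≠ 0 := by
  refine ⟨IsIntegral.det h.int, fun h0 => ?_⟩
  obtain ⟨φ⟩ : Nonempty (L →+* ℂ) := inferInstance
  have h1 := (h.pos φ).det_pos
  have h2 : (H.map φ).det = φ H.det := (φ.map_det H).symm
  rw [h2, h0, map_zero] at h1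
  exact lt_irrefl _ h1

lemma coc_span {L : Type} [Field L] [NumberField L] {n : ℕ} {ι : Type}
    (x : Basis ι ℚ (Fin n → L)) : Submodule.span L (Set.range x) = ⊤ := by
  refine top_unique fun v _ => ?_
  have h : v ∈ Submodule.span ℚ (Set.range x) := x.span_eq ▸ Submodule.mem_top
  exact Submodule.span_le_restrictScalars ℚ L _ h

lemma coc_map {L : Type} [Field L] {n : ℕ} {ι : Type} (x y : ι → Fin n → L)
    (u : Matrix (Fin n) (Fin n) L) (h : ∀ a, u *ᵥ x a = y a) {v : Fin n → L}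
    (hv : v ∈ Submodule.span ℤ (Set.range x)) : u *ᵥ v ∈ Submodule.span ℤ (Set.range y) := by
  induction hv using Submodule.span_induction with
  | mem _ hx =>
    obtain ⟨a, rfl⟩ := hx
    exact Submodule.subset_span ⟨a, (h a).symm⟩
  | zero => simp
  | add _ _ _ _ h1 h2 => rw [mulVec_add]; exact add_mem h1 h2
  | smul a _ _ h1 => rw [mulVec_smul]; exact Submodule.smul_mem _ _ h1

theorem p_COC (hLAT : S_LAT) (hISO : S_ISO) (hSHORT : S_SHORT) (hGRAM : S_GRAM) :
    S_COC := by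
  classical
  intro K L _ _ _ _ j c b n H hc hg hH
  obtain ⟨hD, hD0⟩ := coc_det hH
  obtain ⟨B, hB⟩ := hSHORT L c n H H.det hc hH hD hD0
  choose x hx hx' using fun g : GL (Fin n) K => hB _ (hLAT K L j c b n H g hc hg hH)
  let Gr : GL (Fin n) K → Fin (n * finrank ℚ L) → Fin (n * finrank ℚ L) → L :=
    fun g a e => hf c H (x g a) (x g e)
  have hfin : (Set.range Gr).Finite := by
    have h := NumberField.Embeddings.finite_of_norm_le L ℂ B
    refine (Set.Finite.pi' fun _ => Set.Finite.pi' fun _ => h).subset ?_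
    rintro _ ⟨g, rfl⟩ a e
    exact hx' g a e
  have hsec : ∀ y : Set.range Gr, ∃ t, Gr t = y := fun y => y.2
  choose t ht using hsec
  have := hfin.fintype
  refine ⟨Finset.univ.image t, fun g => ?_⟩
  have e : Gr (t ⟨Gr g, g, rfl⟩) = Gr g := ht _
  generalize ht' : t ⟨Gr g, g, rfl⟩ = s at e
  obtain ⟨u, hu, hu'⟩ := hGRAM L c n H _ (x s) (x g) hD0 (coc_span _) (coc_span _)
    fun a a' => congrFun (congrFun e a) a'
  obtain ⟨h1, h2⟩ := hISO K L j c b n H g s u hg hH hu fun v => by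
    rw [hx, hx]
    refine ⟨coc_map _ _ _ hu', fun hv => ?_⟩
    have h3 := coc_map (x g) (x s) ((u⁻¹ : GL (Fin n) L) : Matrix (Fin n) (Fin n) L)
      (fun a => by rw [← hu', mulVec_mulVec, u.inv_mul, one_mulVec]) hv
    rwa [mulVec_mulVec, u.inv_mul, one_mulVec] at h3
  refine ⟨_, Subgroup.mem_map_of_mem _ h1, s, ht' ▸ Finset.mem_image_of_mem _ (Finset.mem_univ _),
    _, (Kint K n).inv_mem h2, ?_⟩
  group

end Pool.Agent.P.MP_7cb106_nt.T

end TCOC

section TIDX
set_option autoImplicit false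

namespace Pool.Agent.P.MP_7cb106_nt.T

open Matrix Polynomial Module NumberField
open scoped TensorProduct ComplexOrder

lemma idx_fin {L : Type} [Field L] [NumberField L] {l : ℕ} (hl : l ≠ 0) :
    Finite (𝓞 L ⧸ Ideal.span {(l : 𝓞 L)}) :=
  Ideal.finiteQuotientOfFreeOfNeBot _ (by
    rw [Ne, Ideal.span_singleton_eq_bot]
    exact Nat.cast_ne_zero.2 hl)

lemma idx_sub {L : Type} [Field L] {l : ℕ} {a a' : 𝓞 L}
    (h : Ideal.Quotient.mk (Ideal.span {(l : 𝓞 L)}) a = Ideal.Quotient.mk _ a') :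
    ∃ z : L, IsIntegral ℤ z ∧ (a : L) = a' + l * z := by
  rw [Ideal.Quotient.eq, Ideal.mem_span_singleton] at h
  obtain ⟨z, hz⟩ := h
  refine ⟨z, z.2, ?_⟩
  have := congrArg (algebraMap (𝓞 L) L) hz
  rw [map_sub, map_mul, map_natCast] at this
  exact sub_eq_iff_eq_add'.1 this

lemma idx_pow {L : Type} [Field L] [NumberField L] {l : ℕ} (hl : l ≠ 0) {b : 𝓞 L}
    (hb : (b : L) ≠ 0) : ∃ t : ℕ, ∃ y ∈ Rb b, (b : L) ^ (t + 1) = 1 + l * y := by
  have := idx_fin (L := L) hl
  have key : ∀ i j : ℕ, i < j → Ideal.Quotient.mk (Ideal.span {(l : 𝓞 L)}) (b ^ j) =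
      Ideal.Quotient.mk _ (b ^ i) → ∃ t : ℕ, ∃ y ∈ Rb b, (b : L) ^ (t + 1) = 1 + l * y := by
    intro i j hij h
    obtain ⟨t, rfl⟩ := Nat.exists_eq_add_of_lt hij
    obtain ⟨z, hz, e⟩ := idx_sub h
    have hp : (b : L) ^ i ≠ 0 := pow_ne_zero _ hb
    refine ⟨t, z / (b : L) ^ i, ⟨i, by rwa [mul_div_cancel₀ _ hp]⟩, ?_⟩
    have e' : (b : L) ^ (i + t + 1) = (b : L) ^ i + l * z := by simpa using e
    apply mul_left_cancel₀ hp
    rw [← pow_add, ← add_assoc, e']
    field_simp
  obtain ⟨i, j, hij, h⟩ := Finite.exists_ne_map_eq_of_infinite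
    fun i : ℕ => Ideal.Quotient.mk (Ideal.span {(l : 𝓞 L)}) (b ^ i)
  rcases lt_or_gt_of_ne hij with h' | h'
  exacts [key i j h' h.symm, key j i h' h]

lemma idx_res {L : Type} [Field L] [NumberField L] {l : ℕ} (hl : l ≠ 0) {b : 𝓞 L}
    (hb : (b : L) ≠ 0) (x : L) : ∃ a : 𝓞 L, x ∈ Rb b → ∃ y ∈ Rb b, x = a + l * y := by
  by_cases hx : x ∈ Rb b
  swap
  · exact ⟨0, fun h => absurd h hx⟩
  obtain ⟨t, y, hy, e⟩ := idx_pow hl hb
  have hbi : IsIntegral ℤ (b : L) := b.2
  have key : ∀ k : ℕ, ∃ w ∈ Rb b, ((b : L) ^ (t + 1)) ^ k = 1 + l * w := by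
    intro k
    induction k with
    | zero => exact ⟨0, (Rb b).zero_mem, by simp⟩
    | succ k ih =>
      obtain ⟨w, hw, ew⟩ := ih
      refine ⟨w + y + l * (w * y), (Rb b).add_mem ((Rb b).add_mem hw hy)
        ((Rb b).mul_mem (natCast_mem _ l) ((Rb b).mul_mem hw hy)), ?_⟩
      rw [pow_succ _ k, ew, e]
      ring
  obtain ⟨k, hk⟩ := id hx
  obtain ⟨w, hw, ew⟩ := key k
  refine ⟨⟨((b : L) ^ t) ^ k * ((b : L) ^ k * x), ((hbi.pow t).pow k).mul hk⟩, fun _ =>
    ⟨-(w * x), (Rb b).neg_mem ((Rb b).mul_mem hw hx), ?_⟩⟩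
  show x = ((b : L) ^ t) ^ k * ((b : L) ^ k * x) + l * -(w * x)
  rw [← mul_assoc, ← mul_pow, ← pow_succ, ew]
  ring

theorem p_IDX :
    S_IDX := by
  classical
  intro L _ _ c b n H l hl hb
  have := idx_fin (L := L) hl
  choose a ha using idx_res hl hb
  let κ : GL (Fin n) L → Fin n → Fin n → 𝓞 L ⧸ Ideal.span {(l : 𝓞 L)} := fun γ i k =>
    Ideal.Quotient.mk _ (a ((γ : Matrix (Fin n) (Fin n) L) i k))
  have hrep : ∀ q, ∃ t : GL (Fin n) L, (∃ γ ∈ Gam c b H, κ γ = q) → t ∈ Gam c b H ∧ κ t = q := by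
    intro q
    by_cases h : ∃ γ ∈ Gam c b H, κ γ = q
    · obtain ⟨γ, h⟩ := h
      exact ⟨γ, fun _ => h⟩
    · exact ⟨1, fun h' => absurd h' h⟩
  choose rep hrep using hrep
  refine ⟨(Set.finite_range rep).toFinset, fun γ hγ => ?_⟩
  obtain ⟨ht, hκ⟩ := hrep (κ γ) ⟨γ, hγ, rfl⟩
  set t := rep (κ γ) with htdef
  have hY : ∀ i k, ∃ y ∈ Rb b, (γ : Matrix (Fin n) (Fin n) L) i k =
      (t : Matrix (Fin n) (Fin n) L) i k + l * y := by
    intro i k
    obtain ⟨y, hy, e⟩ := ha _ (hγ.1 i k)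
    obtain ⟨y', hy', e'⟩ := ha _ (ht.1 i k)
    obtain ⟨z, hz, ez⟩ := idx_sub (congrFun (congrFun hκ i) k).symm
    refine ⟨y + z - y', (Rb b).sub_mem ((Rb b).add_mem hy (int_mem_Rb hz)) hy', ?_⟩
    linear_combination e - e' + ez
  choose Y hY eY using hY
  refine ⟨γ * t⁻¹, ⟨mul_mem hγ (inv_mem ht),
    Matrix.of Y * ((t⁻¹ : GL (Fin n) L) : Matrix (Fin n) (Fin n) L), ent_mul hY ht.2.1, ?_⟩,
    t, by simp [htdef], by simp⟩
  have e : (γ : Matrix (Fin n) (Fin n) L) = t + (l : L) • Matrix.of Y := by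
    ext i k
    simpa using eY i k
  rw [Units.val_mul, e, Matrix.add_mul, Matrix.smul_mul, t.mul_inv]

end Pool.Agent.P.MP_7cb106_nt.T

end TIDX

section TUNI
set_option autoImplicit false

namespace Pool.Agent.P.MP_7cb106_nt.T

open Matrix Polynomial Module NumberField
open scoped TensorProduct ComplexOrder

lemma uni_core {n : ℕ} (W : Matrix (Fin n) (Fin n) ℂ) (hW : Wᴴ * W = 1) :
    ‖W.trace‖ ≤ n ∧ (W.trace = n → W = 1) := by
  constructor
  · have hu : W ∈ Matrix.unitaryGroup (Fin n) ℂ := Matrix.mem_unitaryGroup_iff'.2 hW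
    calc ‖W.trace‖ = ‖∑ i, W i i‖ := rfl
      _ ≤ ∑ i, ‖W i i‖ := norm_sum_le _ _
      _ ≤ ∑ _i : Fin n, (1 : ℝ) := Finset.sum_le_sum fun i _ => entry_norm_bound_of_unitary hu i i
      _ = n := by simp
  · intro h
    have h0 : ((W - 1)ᴴ * (W - 1)).trace = 0 := by
      rw [conjTranspose_sub, conjTranspose_one, Matrix.sub_mul, Matrix.mul_sub, Matrix.mul_sub, hW,
        Matrix.mul_one, Matrix.one_mul, Matrix.one_mul, trace_sub, trace_sub, trace_sub,
        trace_conjTranspose, h, trace_one]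
      simp
    exact sub_eq_zero.1 (trace_conjTranspose_mul_self_eq_zero_iff.1 h0)

open scoped MatrixOrder in
theorem p_UNI :
    S_UNI := by
  intro n H U hH hU
  obtain ⟨y, hy, rfl⟩ := CStarAlgebra.isStrictlyPositive_iff_eq_star_mul_self.mp
    hH.isStrictlyPositive
  obtain ⟨B, rfl⟩ := hy
  rw [star_eq_conjTranspose] at hU
  set b : Matrix (Fin n) (Fin n) ℂ := (B : Matrix (Fin n) (Fin n) ℂ) with hb
  set c : Matrix (Fin n) (Fin n) ℂ := ((B⁻¹ : (Matrix (Fin n) (Fin n) ℂ)ˣ) :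
    Matrix (Fin n) (Fin n) ℂ) with hc
  have h1 : b * c = 1 := B.mul_inv
  have h2 : c * b = 1 := B.inv_mul
  have hW : (b * U * c)ᴴ * (b * U * c) = 1 := by
    calc (b * U * c)ᴴ * (b * U * c) = cᴴ * (Uᴴ * (bᴴ * b) * U) * c := by
          simp only [conjTranspose_mul, Matrix.mul_assoc]
      _ = (b * c)ᴴ * (b * c) := by
          rw [hU]; simp only [conjTranspose_mul, Matrix.mul_assoc]
      _ = 1 := by rw [h1]; simp
  have ht : (b * U * c).trace = U.trace := by
    rw [trace_mul_cycle, h2, Matrix.one_mul]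
  obtain ⟨k1, k2⟩ := uni_core _ hW
  rw [ht] at k1 k2
  refine ⟨k1, fun h => ?_⟩
  have h3 := k2 h
  calc U = (c * b) * U * (c * b) := by rw [h2]; simp
    _ = c * (b * U * c) * b := by simp only [Matrix.mul_assoc]
    _ = 1 := by rw [h3, Matrix.mul_one, h2]

end Pool.Agent.P.MP_7cb106_nt.T

end TUNI

section TCONJ
set_option autoImplicit false

namespace Pool.Agent.P.MP_7cb106_nt.T

open Matrix Polynomial Module NumberField
open scoped TensorProduct ComplexOrder

lemma conj_c_trace {L : Type} [Field L] [NumberField L] {n : ℕ} {c : L ≃+* L}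
    {H u v : Matrix (Fin n) (Fin n) L} (hH : Herm c H) (hu : Uni c H u) (h : u * v = 1) :
    c u.trace = v.trace := by
  obtain ⟨φ⟩ : Nonempty (L →+* ℂ) := inferInstance
  have hd : IsUnit H.det := by
    have h1 := (hH.pos φ).det_pos.ne'
    rw [← RingHom.mapMatrix_apply, ← RingHom.map_det] at h1
    exact isUnit_iff_ne_zero.2 fun h0 => h1 (by rw [h0, map_zero])
  have e : (u.map c)ᵀ = H * v * H⁻¹ := by
    have h1 : (u.map c)ᵀ * H * u * v * H⁻¹ = H * v * H⁻¹ := by rw [hu]
    rwa [Matrix.mul_assoc _ u, h, Matrix.mul_one, Matrix.mul_assoc, mul_nonsing_inv _ hd,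
      Matrix.mul_one] at h1
  rw [AddMonoidHom.map_trace c, ← trace_transpose, e, trace_mul_comm, ← Matrix.mul_assoc,
    nonsing_inv_mul _ hd, Matrix.one_mul]

lemma conj_norm_trace {K : Type} [NormedField K] [IsUltrametricDist K] {n : ℕ}
    {A : Matrix (Fin n) (Fin n) K} (h : ∀ i k, ‖A i k‖ ≤ 1) : ‖A.trace‖ ≤ 1 :=
  IsUltrametricDist.norm_sum_le_of_forall_le_of_nonneg zero_le_one fun i _ => h i i

lemma conj_kint {K L : Type} [NormedField K] [IsUltrametricDist K] [Field L] (j : L →+* K) {n : ℕ}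
    {η : GL (Fin n) L} {x : GL (Fin n) K}
    (h : x⁻¹ * Matrix.GeneralLinearGroup.map j η * x ∈ Kint K n) :
    ‖j (η : Matrix (Fin n) (Fin n) L).trace‖ ≤ 1 := by
  have h1 := conj_norm_trace h.1
  rwa [Units.val_mul, Units.val_mul, trace_mul_comm, ← Matrix.mul_assoc, Units.mul_inv,
    Matrix.one_mul, show ((Matrix.GeneralLinearGroup.map j η : GL (Fin n) K) :
      Matrix (Fin n) (Fin n) K) = (η : Matrix (Fin n) (Fin n) L).map j from rfl,
    ← AddMonoidHom.map_trace j] at h1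

lemma conj_uni {L : Type} [Field L] {n : ℕ} {c : L ≃+* L} {H u : Matrix (Fin n) (Fin n) L}
    (hc : Conj c) (hu : Uni c H u) (φ : L →+* ℂ) :
    (u.map φ)ᴴ * H.map φ * u.map φ = H.map φ := by
  have e : (u.map φ)ᴴ = (u.map c)ᵀ.map φ := by
    ext i k
    simp only [conjTranspose_apply, map_apply, transpose_apply, hc φ]
    rfl
  rw [e, ← Matrix.map_mul, ← Matrix.map_mul, hu]

lemma conj_cong {L : Type} [Field L] {n : ℕ} {b : 𝓞 L} {l : ℕ} {A B : Matrix (Fin n) (Fin n) L}
    (hA : ∀ i k, A i k ∈ Rb b) (hB : ∀ i k, B i k ∈ Rb b) (h : Cong b l A B) (i : ℕ) :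
    (∀ a k, (B ^ i) a k ∈ Rb b) ∧ Cong b l (A ^ i) (B ^ i) := by
  obtain ⟨Y, hY, e⟩ := h
  induction i with
  | zero =>
    rw [pow_zero, pow_zero]
    exact ⟨ent_one, 0, fun _ _ => (Rb b).zero_mem, by simp⟩
  | succ i ih =>
    obtain ⟨h1, Z, hZ, e2⟩ := ih
    rw [pow_succ, pow_succ]
    refine ⟨ent_mul h1 hB, Z * A + B ^ i * Y, fun a k =>
      (Rb b).add_mem (ent_mul hZ hA a k) (ent_mul h1 hY a k), ?_⟩
    rw [e2, Matrix.add_mul, Matrix.smul_mul]
    nth_rewrite 1 [e]
    rw [Matrix.mul_add, Matrix.mul_smul, smul_add]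
    abel

lemma conj_int_pow {L : Type} [Field L] {n : ℕ} {A : Matrix (Fin n) (Fin n) L}
    (hA : ∀ i k, IsIntegral ℤ (A i k)) (i : ℕ) : IsIntegral ℤ (A ^ i).trace := by
  have h : ∀ a k, (A ^ i) a k ∈ (integralClosure ℤ L).toSubring := by
    induction i with
    | zero => rw [pow_zero]; exact ent_one
    | succ i ih => rw [pow_succ]; exact ent_mul ih hA
  exact (integralClosure ℤ L).toSubring.sum_mem fun a _ => h a a

theorem p_CONJ (hUNI : S_UNI) :
    S_CONJ := by
  intro K L _ _ _ _ j c b n H l r γ g x hc hG hH hl hl1 hγ hg hint hr hcong hx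
  have key : ∀ i : ℕ, ((γ : Matrix (Fin n) (Fin n) L) ^ i).trace =
      ((g : Matrix (Fin n) (Fin n) L) ^ i).trace := by
    intro i
    obtain ⟨-, Y, hY, e⟩ := conj_cong hγ.1 hg.1 hcong i
    have hγi := pow_mem hγ i
    have hgi := pow_mem hg i
    have hxi : x⁻¹ * Matrix.GeneralLinearGroup.map j (γ ^ i) * x ∈ Kint K n := by
      have := pow_mem hx i
      rw [map_pow]
      nth_rewrite 2 [← _root_.inv_inv x] at this ⊢
      rwa [_root_.conj_pow] at this
    have hxi' : x⁻¹ * Matrix.GeneralLinearGroup.map j (γ ^ i)⁻¹ * x ∈ Kint K n := by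
      have := inv_mem hxi
      rwa [_root_.mul_inv_rev, _root_.mul_inv_rev, _root_.inv_inv, ← mul_assoc, ← map_inv] at this
    have a1 := conj_kint j hxi
    have a2 := conj_kint j hxi'
    rw [← conj_c_trace hH hγi.2.2 (γ ^ i).mul_inv] at a2
    rw [Units.val_pow_eq_pow_val] at a1 a2
    have a3 := conj_int_pow hint i
    have ey : (l : L) * Y.trace = ((γ : Matrix (Fin n) (Fin n) L) ^ i).trace -
        ((g : Matrix (Fin n) (Fin n) L) ^ i).trace := by
      rw [e, trace_add, trace_smul, smul_eq_mul, add_sub_cancel_left]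
    have hsub : ∀ s t : K, ‖s‖ ≤ 1 → ‖t‖ ≤ 1 → ‖s - t‖ ≤ 1 := fun s t hs ht => by
      rw [sub_eq_add_neg]
      exact (IsUltrametricDist.norm_add_le_max _ _).trans (max_le hs (by rwa [norm_neg]))
    have hy : IsIntegral ℤ Y.trace := by
      refine hG.r1 _ ((Rb b).sum_mem fun a _ => hY a a) ?_ ?_
      · have := hsub _ _ a1 (norm_map_le_one j a3)
        rwa [← map_sub, ← ey, map_mul, map_natCast, norm_mul, hl1, one_mul] at this
      · have := hsub _ _ a2 (norm_map_le_one j (int_conj c a3))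
        rwa [← map_sub, ← map_sub, ← ey, map_mul, map_natCast, map_mul, map_natCast, norm_mul, hl1,
          one_mul] at this
    have h0 : Y.trace = 0 := by
      by_contra h0
      obtain ⟨φ, hφ⟩ := exists_conjugate_one_le_norm (K := L) (α := ⟨Y.trace, hy⟩)
        (by simpa [RingOfIntegers.ext_iff] using h0)
      change 1 ≤ ‖φ Y.trace‖ at hφ
      have b1 := (hUNI n _ _ (hH.pos φ) (conj_uni hc hγi.2.2 φ)).1
      have b2 := (hUNI n _ _ (hH.pos φ) (conj_uni hc hgi.2.2 φ)).1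
      rw [← AddMonoidHom.map_trace φ, Units.val_pow_eq_pow_val] at b1 b2
      have b3 := norm_sub_le (φ ((γ : Matrix (Fin n) (Fin n) L) ^ i).trace)
        (φ ((g : Matrix (Fin n) (Fin n) L) ^ i).trace)
      rw [← map_sub, ← ey, map_mul, map_natCast, norm_mul, Complex.norm_natCast] at b3
      have b4 : (2 * n : ℝ) < l := by exact_mod_cast hl
      nlinarith [Nat.cast_nonneg (α := ℝ) l]
    rw [h0, mul_zero] at ey
    exact sub_eq_zero.1 ey.symm
  refine ⟨?_, key⟩
  obtain ⟨φ⟩ : Nonempty (L →+* ℂ) := inferInstance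
  have h1 := (hUNI n _ _ (hH.pos φ) (conj_uni hc (pow_mem hγ r).2.2 φ)).2 (by
    rw [← AddMonoidHom.map_trace φ, Units.val_pow_eq_pow_val, key, ← Units.val_pow_eq_pow_val, hr]
    simp)
  apply Units.ext
  ext i k
  apply φ.injective
  have := congrFun (congrFun h1 i) k
  rw [map_apply] at this
  rw [this, Units.val_one, one_apply, one_apply]
  split_ifs <;> simp

end Pool.Agent.P.MP_7cb106_nt.T

end TCONJ
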