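import Pool.Agent.P.MP_7cb106_nt.T.IfaceA

/-! Steps QUO POW NEWT CPD SEMI RIG TOP NIL LIFT. -/

section TQUO
set_option autoImplicit false

namespace Pool.Agent.P.MP_7cb106_nt.T

open Matrix Polynomial Module NumberField
open scoped TensorProduct ComplexOrder

open Module.Basis in
theorem p_QUO :
    S_QUO := by
  intro R V _ _ _ _ e W he
  classical
  let bW := Module.finBasis R W
  let bQ := Module.finBasis R (V ⧸ W)
  let b := sumQuot bW bQ
  let A := LinearMap.toMatrix bW bW (e.restrict he)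
  let B : Matrix (Fin (finrank R W)) (Fin (finrank R (V ⧸ W))) R := Matrix.of fun i l =>
    ((sumQuot bW bQ).repr (e ((sumQuot bW bQ) (Sum.inr l)))) (Sum.inl i)
  let D := LinearMap.toMatrix bQ bQ (W.mapQ W e he)
  suffices LinearMap.toMatrix b b e = Matrix.fromBlocks A B 0 D by
    rw [← LinearMap.charpoly_toMatrix e b, this, ← LinearMap.charpoly_toMatrix _ bW,
      ← LinearMap.charpoly_toMatrix _ bQ, Matrix.charpoly_fromBlocks_zero₂₁]
  ext u v
  cases u with
  | inl i =>
    cases v with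
    | inl k =>
      simp only [b, sumQuot_inl, Matrix.fromBlocks_apply₁₁, A, LinearMap.toMatrix_apply]
      apply sumQuot_repr_inl_of_mem
    | inr l => simp [b, LinearMap.toMatrix_apply, Matrix.fromBlocks_apply₁₂, B]
  | inr j =>
    cases v with
    | inl k =>
      suffices W.mkQ (e (bW k)) = 0 by simp [LinearMap.toMatrix_apply, b, this]
      rw [← LinearMap.mem_ker, Submodule.ker_mkQ]
      exact he _ (Submodule.coe_mem (bW k))
    | inr l =>
      simp only [LinearMap.toMatrix_apply, sumQuot_repr_inr,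
        Matrix.fromBlocks_apply₂₂, b, D]
      rw [← sumQuot_inr bW bQ l, W.mapQ_apply]
      simp

end Pool.Agent.P.MP_7cb106_nt.T

end TQUO

section TPOW
set_option autoImplicit false

namespace Pool.Agent.P.MP_7cb106_nt.T

open Matrix Polynomial Module NumberField
open scoped TensorProduct ComplexOrder

theorem pow_line {C U : Type} [Field C] [AddCommGroup U] [Module C U] [FiniteDimensional C U]
    (h : finrank C U = 1) (g : U →ₗ[C] U) (μ : C) (hg : ∀ x, g x = μ • x) :
    g.charpoly.roots = {μ} := by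
  let b : Basis (Fin 1) C U := Module.finBasisOfFinrankEq C U h
  have e : LinearMap.toMatrix b b g = Matrix.diagonal fun _ => μ := by
    ext i j
    simp [LinearMap.toMatrix_apply, hg, Subsingleton.elim i j]
  rw [← LinearMap.charpoly_toMatrix g b, e, Matrix.charpoly_diagonal]
  simp

theorem pow_roots (hQUO : S_QUO) {C : Type} [Field C] [IsAlgClosed C] (i n : ℕ) :
    ∀ (V : Type) [AddCommGroup V] [Module C V] [FiniteDimensional C V], finrank C V = n →
      ∀ f : V →ₗ[C] V, (f ^ i).charpoly.roots = f.charpoly.roots.map (· ^ i) := by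
  induction n with
  | zero =>
    intro V _ _ _ h f
    have e : ∀ g : V →ₗ[C] V, g.charpoly = 1 := fun g =>
      eq_one_of_monic_natDegree_zero g.charpoly_monic (by rw [g.charpoly_natDegree, h])
    simp [e]
  | succ n ih =>
    intro V _ _ _ h f
    have : Nontrivial V := Module.nontrivial_of_finrank_eq_succ h
    obtain ⟨μ, hμ⟩ := Module.End.exists_eigenvalue f
    obtain ⟨v, hv⟩ := hμ.exists_hasEigenvector
    have h1 : finrank C (Submodule.span C {v}) = 1 := finrank_span_singleton hv.2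
    have e : ∀ k : ℕ, ∀ x ∈ Submodule.span C {v}, (f ^ k) x = μ ^ k • x := fun k x hx => by
      obtain ⟨a, rfl⟩ := Submodule.mem_span_singleton.1 hx
      rw [map_smul, hv.pow_apply, smul_comm]
    have hU : ∀ k : ℕ, ∀ x ∈ Submodule.span C {v}, (f ^ k) x ∈ Submodule.span C {v} :=
      fun k x hx => e k x hx ▸ Submodule.smul_mem _ _ hx
    have hU1 : ∀ x ∈ Submodule.span C {v}, f x ∈ Submodule.span C {v} := by simpa using hU 1
    have h2 := (Submodule.span C {v}).finrank_quotient_add_finrank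
    rw [hQUO C V (f ^ i) _ (hU i), hQUO C V f _ hU1,
      roots_mul (mul_ne_zero (LinearMap.charpoly_monic _).ne_zero
        (LinearMap.charpoly_monic _).ne_zero),
      roots_mul (mul_ne_zero (LinearMap.charpoly_monic _).ne_zero
        (LinearMap.charpoly_monic _).ne_zero),
      pow_line h1 _ (μ ^ i) fun x => Subtype.ext (e i x x.2),
      pow_line h1 _ μ fun x => Subtype.ext (by simpa using e 1 x x.2),
      Submodule.mapQ_pow _ hU1 i, ih _ (by omega), Multiset.map_add, Multiset.map_singleton]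

theorem p_POW (hQUO : S_QUO) :
    S_POW := by
  intro C V _ _ _ _ _ f i
  rw [Module.End.trace_eq_sum_roots_charpoly_of_splits (IsAlgClosed.splits _),
    pow_roots hQUO i _ V rfl]

end Pool.Agent.P.MP_7cb106_nt.T

end TPOW

section TNEWT
set_option autoImplicit false

namespace Pool.Agent.P.MP_7cb106_nt.T

open Matrix Polynomial Module NumberField
open scoped TensorProduct ComplexOrder

lemma newt_ms {K : Type} [Field K] [CharZero K] {s t : Multiset K}
    (h : ∀ i : ℕ, (s.map (· ^ i)).sum = (t.map (· ^ i)).sum) : s = t := by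
  classical
  have h1 : ∀ q : K[X], (s.map fun x => q.eval x).sum = (t.map fun x => q.eval x).sum := by
    intro q
    induction q using Polynomial.induction_on' with
    | add p q hp hq => simp only [eval_add, Multiset.sum_map_add, hp, hq]
    | monomial n a => simp only [eval_monomial, Multiset.sum_map_mul_left, h n]
  ext a
  let q : K[X] := ∏ b ∈ (s + t).toFinset.erase a, (X - C b)
  have hq : ∀ x, q.eval x = ∏ b ∈ (s + t).toFinset.erase a, (x - b) := fun x => by
    simp [q, eval_prod]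
  have h2 : ∀ u : Multiset K, u ≤ s + t →
      (u.map fun x => q.eval x).sum = (u.count a : K) * q.eval a := by
    intro u hu
    rw [Finset.sum_multiset_map_count, Finset.sum_eq_single a]
    · rw [nsmul_eq_mul]
    · intro b hb hba
      have : q.eval b = 0 := by
        rw [hq]
        exact Finset.prod_eq_zero (i := b) (Finset.mem_erase.2 ⟨hba,
          Multiset.mem_toFinset.2 (Multiset.mem_of_le hu (Multiset.mem_toFinset.1 hb))⟩)
          (sub_self b)
      rw [this, smul_zero]
    · intro ha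
      rw [Multiset.count_eq_zero.2 fun h => ha (Multiset.mem_toFinset.2 h), zero_smul]
  have h3 : q.eval a ≠ 0 := by
    rw [hq]
    exact Finset.prod_ne_zero_iff.2 fun b hb => sub_ne_zero.2 (Finset.mem_erase.1 hb).1.symm
  have h4 := h1 q
  rw [h2 s (Multiset.le_add_right _ _), h2 t (Multiset.le_add_left _ _)] at h4
  exact_mod_cast mul_right_cancel₀ h3 h4

lemma newt_tr (hPOW : S_POW) {K ι : Type} [Field K] [IsAlgClosed K] [Fintype ι] [DecidableEq ι]
    (A : Matrix ι ι K) (m i : ℕ) :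
    ((A.charpoly ^ m).roots.map (· ^ i)).sum = (m : K) * (A ^ i).trace := by
  have h := hPOW K (ι → K) (Matrix.toLin' A) i
  rw [← Matrix.toLin'_pow, Matrix.trace_toLin'_eq, Matrix.charpoly_toLin'] at h
  rw [roots_pow, Multiset.map_nsmul, Multiset.sum_nsmul, h, nsmul_eq_mul]

theorem p_NEWT (hPOW : S_POW) :
    S_NEWT := by
  intro C ι κ _ _ _ _ _ _ A B m m' h
  let f := algebraMap C (AlgebraicClosure C)
  apply Polynomial.map_injective f f.injective
  rw [Polynomial.map_pow, Polynomial.map_pow, ← Matrix.charpoly_map, ← Matrix.charpoly_map]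
  have hr : ((A.map f).charpoly ^ m').roots = ((B.map f).charpoly ^ m).roots := by
    refine newt_ms fun i => ?_
    rw [newt_tr hPOW, newt_tr hPOW, ← Matrix.map_pow, ← Matrix.map_pow]
    have := congrArg f (h i)
    rwa [map_mul, map_mul, map_natCast, map_natCast, AddMonoidHom.map_trace,
      AddMonoidHom.map_trace] at this
  rw [(IsAlgClosed.splits _).eq_prod_roots_of_monic ((Matrix.charpoly_monic (A.map f)).pow m'),
    hr, ← (IsAlgClosed.splits _).eq_prod_roots_of_monic ((Matrix.charpoly_monic (B.map f)).pow m)]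

end Pool.Agent.P.MP_7cb106_nt.T

end TNEWT

section TCPD
namespace Pool.Agent.P.MP_7cb106_nt.T
open Polynomial Matrix

theorem p_CPD : S_CPD := by
  intro K _ n r A hA
  have hc : Commute (Matrix.scalar (Fin n) (X : K[X])) ((C : K →+* K[X]).mapMatrix A) :=
    Matrix.scalar_commute _ (fun _ => Commute.all _ _) _
  obtain ⟨Q, hQ⟩ := hc.sub_dvd_pow_sub_pow r
  have h1 : (Matrix.scalar (Fin n) (X : K[X])) ^ r - ((C : K →+* K[X]).mapMatrix A) ^ r =
      Matrix.scalar (Fin n) (X ^ r - 1) := by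
    rw [← map_pow, ← map_pow, hA, map_one, map_sub, map_one]
  refine ⟨Q.det, ?_⟩
  have h2 := congrArg Matrix.det hQ
  rw [h1, Matrix.det_mul, Matrix.scalar_apply, Matrix.det_diagonal] at h2
  simpa [Matrix.charpoly, Matrix.charmatrix] using h2

end Pool.Agent.P.MP_7cb106_nt.T

end TCPD

section TSEMI
set_option autoImplicit false

namespace Pool.Agent.P.MP_7cb106_nt.T

open Matrix Polynomial Module NumberField
open scoped TensorProduct ComplexOrder

/-- Two matrices with the same non-constant characteristic polynomial are intertwined by a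
non-zero matrix. -/
theorem semi_core {k : Type} [Field k] {ι κ : Type} [Fintype ι] [DecidableEq ι] [Fintype κ]
    [DecidableEq κ] (A : Matrix ι ι k) (B : Matrix κ κ k) (h : A.charpoly = B.charpoly)
    (hd : A.charpoly.degree ≠ 0) : ∃ U : Matrix κ ι k, U ≠ 0 ∧ U * A = B * U := by
  let L := AlgebraicClosure k
  let φ : k →+* L := algebraMap k L
  have hdm : (A.charpoly.map φ).degree ≠ 0 := by
    rwa [Polynomial.degree_map]
  obtain ⟨t, ht⟩ := IsAlgClosed.exists_root _ hdm
  have hA : (Matrix.scalar ι t - A.map φ).det = 0 := by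
    rw [← Matrix.eval_charpoly, Matrix.charpoly_map]; exact ht
  have hB : (Matrix.scalar κ t - B.map φ).det = 0 := by
    rw [← Matrix.eval_charpoly, Matrix.charpoly_map, ← h]; exact ht
  obtain ⟨w, hw0, hw⟩ := Matrix.exists_mulVec_eq_zero_iff.mpr hB
  rw [← Matrix.det_transpose] at hA
  obtain ⟨v, hv0, hv⟩ := Matrix.exists_mulVec_eq_zero_iff.mpr hA
  obtain ⟨i, hi⟩ := Function.ne_iff.mp hw0
  obtain ⟨j, hj⟩ := Function.ne_iff.mp hv0
  have hne : w i * v j ≠ 0 := mul_ne_zero hi hj
  obtain ⟨l, hl⟩ := Module.Projective.exists_dual_ne_zero k hne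
  have hw' : ∀ a, ∑ b, B a b • w b = t * w a := by
    intro a
    have := congrFun hw a
    simp only [Matrix.sub_mulVec, Pi.sub_apply, Pi.zero_apply, sub_eq_zero] at this
    rw [Matrix.scalar_apply, Matrix.mulVec_diagonal] at this
    rw [this]
    simp [Matrix.mulVec, dotProduct, Algebra.smul_def, φ]
  have hv' : ∀ a, ∑ b, A b a • v b = t * v a := by
    intro a
    have := congrFun hv a
    simp only [Matrix.transpose_sub, Matrix.sub_mulVec, Pi.sub_apply, Pi.zero_apply,
      sub_eq_zero] at this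
    rw [Matrix.scalar_apply, Matrix.diagonal_transpose, Matrix.mulVec_diagonal] at this
    rw [this]
    simp [Matrix.mulVec, dotProduct, Algebra.smul_def, φ]
  refine ⟨Matrix.of fun a b => l (w a * v b), ?_, ?_⟩
  · intro h0
    exact hl (by simpa using congrFun (congrFun h0 i) j)
  · ext a b
    have e1 : ∑ c, l (w a * v c) * A c b = l (w a * (t * v b)) := by
      rw [← hv', Finset.mul_sum, map_sum]
      refine Finset.sum_congr rfl fun c _ => ?_
      rw [mul_smul_comm, map_smul, smul_eq_mul, mul_comm]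
    have e2 : ∑ c, B a c * l (w c * v b) = l ((t * w a) * v b) := by
      rw [← hw', Finset.sum_mul, map_sum]
      refine Finset.sum_congr rfl fun c _ => ?_
      rw [smul_mul_assoc, map_smul, smul_eq_mul]
    simp only [Matrix.mul_apply, Matrix.of_apply]
    rw [e1, e2]
    congr 1
    ring

theorem semi_core' {k V W : Type} [Field k] [AddCommGroup V] [Module k V] [AddCommGroup W]
    [Module k W] [FiniteDimensional k V] [FiniteDimensional k W] (f : End k V) (g : End k W)
    (h : f.charpoly = g.charpoly) (hd : finrank k V ≠ 0) :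
    ∃ T : V →ₗ[k] W, T ≠ 0 ∧ ∀ v, T (f v) = g (T v) := by
  let b := finBasis k V
  let c := finBasis k W
  have hd' : (LinearMap.toMatrix b b f).charpoly.degree ≠ 0 := by
    rw [Matrix.charpoly_degree_eq_dim, Fintype.card_fin]
    exact_mod_cast hd
  obtain ⟨U, hU0, hU⟩ := semi_core (LinearMap.toMatrix b b f) (LinearMap.toMatrix c c g)
    (by rw [LinearMap.charpoly_toMatrix, LinearMap.charpoly_toMatrix, h]) hd'
  refine ⟨Matrix.toLin b c U, fun h0 => hU0 ?_, fun v => ?_⟩
  · exact (Matrix.toLin b c).map_eq_zero_iff.mp h0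
  · have := congrArg (Matrix.toLin b c) hU
    rw [Matrix.toLin_mul b b c, Matrix.toLin_mul b c c, Matrix.toLin_toMatrix,
      Matrix.toLin_toMatrix] at this
    exact LinearMap.congr_fun this v

theorem semi_conj {k V W : Type} [Field k] [AddCommGroup V] [Module k V] [AddCommGroup W]
    [Module k W] [FiniteDimensional k V] [FiniteDimensional k W] (f : End k V) (g : End k W)
    (e : V ≃ₗ[k] W) (he : ∀ v, e (f v) = g (e v)) : f.charpoly = g.charpoly := by
  rw [← LinearEquiv.charpoly_conj e f]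
  congr 1
  ext w
  simp [LinearEquiv.conj_apply, he]

theorem semi_split {k V : Type} [Field k] [AddCommGroup V] [Module k V]
    [FiniteDimensional k V] (f : End k V) (p q : Submodule k V) (hp : p ∈ f.invtSubmodule)
    (hq : q ∈ f.invtSubmodule) (h : IsCompl p q) :
    f.charpoly = (f.restrict hp).charpoly * (f.restrict hq).charpoly := by
  rw [← LinearMap.charpoly_prodMap]
  refine (semi_conj _ _ (p.prodEquivOfIsCompl q h) fun v => ?_).symm
  simp [LinearMap.restrict_apply]

theorem semi_ind {k : Type} [Field k] (n : ℕ) : ∀ (V W : Type) [AddCommGroup V] [Module k V]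
    [AddCommGroup W] [Module k W] [FiniteDimensional k V] [FiniteDimensional k W] (f : End k V)
    (g : End k W), finrank k V = n → f.IsSemisimple → g.IsSemisimple →
    f.charpoly = g.charpoly → ∃ e : V ≃ₗ[k] W, ∀ v, e (f v) = g (e v) := by
  induction n using Nat.strong_induction_on with
  | _ n ih =>
  intro V W _ _ _ _ _ _ f g hn hf hg h
  have hVW : finrank k V = finrank k W := by
    rw [← f.charpoly_natDegree, ← g.charpoly_natDegree, h]
  by_cases hd : finrank k V = 0
  · have : Subsingleton W := Module.finrank_zero_iff.mp (hVW ▸ hd)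
    exact ⟨LinearEquiv.ofFinrankEq V W hVW, fun v => Subsingleton.elim _ _⟩
  obtain ⟨T, hT0, hT⟩ := semi_core' f g h hd
  have hK : LinearMap.ker T ∈ f.invtSubmodule := by
    intro v hv
    simp only [Submodule.mem_comap, LinearMap.mem_ker] at hv ⊢
    rw [hT, hv, map_zero]
  have hR : LinearMap.range T ∈ g.invtSubmodule := by
    rintro _ ⟨v, rfl⟩
    exact ⟨f v, hT v⟩
  obtain ⟨P, hP, hKP⟩ := End.isSemisimple_iff.mp hf _ hK
  obtain ⟨Q, hQ, hRQ⟩ := End.isSemisimple_iff.mp hg _ hR
  have hK' : ∀ x ∈ LinearMap.ker T, f x ∈ LinearMap.ker T := hK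
  have hR' : ∀ x ∈ LinearMap.range T, g x ∈ LinearMap.range T := hR
  let T' : P →ₗ[k] LinearMap.range T := T.rangeRestrict ∘ₗ P.subtype
  have hinj : Function.Injective T' := by
    rw [injective_iff_map_eq_zero]
    intro v hv
    have hv' : (v : V) ∈ LinearMap.ker T := congrArg Subtype.val hv
    exact Subtype.ext ((Submodule.disjoint_def.mp hKP.disjoint) _ hv' v.2)
  have hsurj : Function.Surjective T' := by
    rintro ⟨_, v, rfl⟩
    have hv : v ∈ LinearMap.ker T ⊔ P := hKP.sup_eq_top ▸ Submodule.mem_top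
    obtain ⟨a, ha, b, hb, rfl⟩ := Submodule.mem_sup.mp hv
    refine ⟨⟨b, hb⟩, Subtype.ext ?_⟩
    have ha' : T a = 0 := ha
    simp [T', ha']
  let e1 : P ≃ₗ[k] LinearMap.range T := LinearEquiv.ofBijective T' ⟨hinj, hsurj⟩
  have he1 : ∀ v, e1 (f.restrict hP v) = g.restrict hR' (e1 v) := fun v =>
    Subtype.ext (hT v)
  have hc1 := semi_conj _ _ e1 he1
  have hc : (f.restrict hK').charpoly = (g.restrict hQ).charpoly := by
    have h1 := semi_split f _ _ hK hP hKP
    have h2 := semi_split g _ _ hR hQ hRQ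
    rw [h1, h2, hc1, mul_comm] at h
    exact mul_left_cancel₀ (LinearMap.charpoly_monic _).ne_zero h
  have hlt : finrank k (LinearMap.ker T) < n := by
    rw [← hn]
    exact Submodule.finrank_lt fun h0 => hT0 (LinearMap.ker_eq_top.mp h0)
  obtain ⟨e2, he2⟩ := ih _ hlt _ _ (f.restrict hK') (g.restrict hQ) rfl (hf.restrict hK)
    (hg.restrict hQ) hc
  let a := (LinearMap.ker T).prodEquivOfIsCompl P hKP
  let b := Q.prodEquivOfIsCompl (LinearMap.range T) hRQ.symm
  refine ⟨a.symm.trans ((e2.prodCongr e1).trans b), fun v => ?_⟩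
  obtain ⟨⟨x, y⟩, rfl⟩ := a.surjective v
  have ha : f (a (x, y)) = a (f.restrict hK' x, f.restrict hP y) := by
    simp [a, LinearMap.restrict_apply]
  rw [ha]
  simp only [LinearEquiv.trans_apply, LinearEquiv.symm_apply_apply, LinearEquiv.prodCongr_apply,
    he1, he2]
  simp [b, LinearMap.restrict_apply]

theorem semi_ss {k : Type} [Field k] {n r : ℕ} (A : Matrix (Fin n) (Fin n) k) (hr : (r : k) ≠ 0)
    (hA : A ^ r = 1) : End.IsSemisimple (Matrix.toLin' A) := by
  refine End.isSemisimple_of_squarefree_aeval_eq_zero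
    (separable_X_pow_sub_C (1 : k) hr one_ne_zero).squarefree ?_
  simp [← Matrix.toLin'_pow, hA, Module.End.one_eq_id]

theorem p_SEMI :
    S_SEMI := by
  intro k _ n r A B hr hA hB h
  obtain ⟨e, he⟩ := semi_ind _ _ _ (Matrix.toLin' A) (Matrix.toLin' B) rfl (semi_ss A hr hA)
    (semi_ss B hr hB) (by simpa using h)
  refine ⟨LinearMap.toMatrix' (e : (Fin n → k) →ₗ[k] (Fin n → k)), ?_, ?_⟩
  · rw [LinearMap.det_toMatrix']
    exact e.isUnit_det'
  · apply Matrix.toLin'.injective
    rw [Matrix.toLin'_mul, Matrix.toLin'_mul, Matrix.toLin'_toMatrix']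
    exact LinearMap.ext he

end Pool.Agent.P.MP_7cb106_nt.T

end TSEMI

section TRIG
set_option autoImplicit false

namespace Pool.Agent.P.MP_7cb106_nt.T

open Matrix Polynomial Module NumberField
open scoped TensorProduct ComplexOrder

/-- the averaged intertwiner -/
lemma rig_avg {R : Type} [Ring R] {r : ℕ} {A B : R} (hA : A ^ r = 1) (hB : B ^ r = 1) (X : R) :
    (∑ i ∈ Finset.range r, B ^ (r - i) * X * A ^ i) * A =
      B * ∑ i ∈ Finset.range r, B ^ (r - i) * X * A ^ i := by
  have h1 : (∑ i ∈ Finset.range r, B ^ (r - i) * X * A ^ i) * A =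
      ∑ i ∈ Finset.range r, B ^ (r + 1 - (i + 1)) * X * A ^ (i + 1) := by
    rw [Finset.sum_mul]
    refine Finset.sum_congr rfl fun i _ => ?_
    rw [Nat.add_sub_add_right, pow_succ A, mul_assoc]
  have h2 : B * ∑ i ∈ Finset.range r, B ^ (r - i) * X * A ^ i =
      ∑ i ∈ Finset.range r, B ^ (r + 1 - i) * X * A ^ i := by
    rw [Finset.mul_sum]
    refine Finset.sum_congr rfl fun i hi => ?_
    have := Finset.mem_range.1 hi
    rw [show r + 1 - i = (r - i) + 1 by omega, pow_succ' B]
    simp only [mul_assoc]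
  have h3 := Finset.sum_range_succ (fun i => B ^ (r + 1 - i) * X * A ^ i) r
  have h4 := Finset.sum_range_succ' (fun i => B ^ (r + 1 - i) * X * A ^ i) r
  have h5 : B ^ (r + 1 - r) * X * A ^ r = B ^ (r + 1 - 0) * X * A ^ 0 := by
    rw [hA, Nat.add_sub_cancel_left, Nat.sub_zero, pow_succ B r, hB, one_mul, pow_one, pow_zero]
  rw [h1, h2]
  rw [h3, h5] at h4
  exact (add_right_cancel h4).symm

lemma rig_red {R : Type} [Ring R] {r : ℕ} {A B U : R} (hB : B ^ r = 1) (hU : U * A = B * U) :
    ∑ i ∈ Finset.range r, B ^ (r - i) * U * A ^ i = r • U := by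
  have h1 : ∀ i, U * A ^ i = B ^ i * U := fun i => by
    induction i with
    | zero => simp
    | succ i ih => rw [pow_succ, ← mul_assoc, ih, mul_assoc, hU, ← mul_assoc, ← pow_succ]
  rw [Finset.sum_congr rfl (g := fun _ => U), Finset.sum_const, Finset.card_range]
  intro i hi
  have := Finset.mem_range.1 hi
  rw [mul_assoc, h1, ← mul_assoc, ← pow_add, show r - i + i = r by omega, hB, one_mul]

lemma rig_local (hSEMI : S_SEMI) (O : Type) [CommRing O] [IsLocalRing O] (n r : ℕ)
    (A B : Matrix (Fin n) (Fin n) O) (hr : IsUnit (r : O)) (hA : A ^ r = 1) (hB : B ^ r = 1)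
    (hc : A.charpoly = B.charpoly) :
    ∃ T : Matrix (Fin n) (Fin n) O, IsUnit T.det ∧ T * A = B * T := by
  let π := IsLocalRing.residue O
  let φ : Matrix (Fin n) (Fin n) O →+* Matrix (Fin n) (Fin n) (IsLocalRing.ResidueField O) :=
    π.mapMatrix
  have hr' : (r : IsLocalRing.ResidueField O) ≠ 0 := by
    have := (hr.map π).ne_zero
    rwa [map_natCast] at this
  have hB' : φ B ^ r = 1 := by rw [← map_pow, hB, map_one]
  obtain ⟨U, hU, hU'⟩ := hSEMI _ n r (φ A) (φ B) hr' (by rw [← map_pow, hA, map_one]) hB' (by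
    show (A.map π).charpoly = (B.map π).charpoly
    rw [Matrix.charpoly_map, Matrix.charpoly_map, hc])
  choose X hX using fun i j => IsLocalRing.residue_surjective (U i j)
  have hX' : φ (Matrix.of X) = U := by
    ext i j
    exact hX i j
  refine ⟨_, ?_, rig_avg hA hB (Matrix.of X)⟩
  rw [← IsLocalRing.residue_ne_zero_iff_isUnit]
  show π _ ≠ 0
  rw [RingHom.map_det]
  show (φ _).det ≠ 0
  simp only [map_sum, map_mul, map_pow, hX']
  rw [rig_red hB' hU', ← Nat.cast_smul_eq_nsmul (IsLocalRing.ResidueField O), Matrix.det_smul]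
  exact mul_ne_zero (pow_ne_zero _ hr') hU.ne_zero

theorem p_RIG (hSEMI : S_SEMI) :
    S_RIG := by
  intro K _ _ n r γ γ' hr h1 h2 hc
  let O : ValuationSubring K := (NormedField.valuation (K := K)).valuationSubring
  have hO : ∀ x : K, x ∈ O ↔ ‖x‖ ≤ 1 := fun x => by
    rw [Valuation.mem_valuationSubring_iff, NormedField.valuation_apply, ← NNReal.coe_le_coe]
    rfl
  let φ : Matrix (Fin n) (Fin n) O →+* Matrix (Fin n) (Fin n) K := O.subtype.mapMatrix
  have hφ : Function.Injective φ := fun A B h => by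
    ext i j
    exact congrFun (congrFun h i) j
  have lift : ∀ g : Kint K n, g ^ r = 1 → ∃ A, φ A = (g : GL (Fin n) K) ∧ A ^ r = 1 := by
    intro g hg
    have e : φ (Matrix.of fun i j => ⟨_, (hO _).2 (g.2.1 i j)⟩) = (g : GL (Fin n) K) := by
      ext i j
      rfl
    refine ⟨_, e, hφ ?_⟩
    rw [map_pow, e, map_one, ← Units.val_pow_eq_pow_val, ← Subgroup.coe_pow, hg]
    rfl
  obtain ⟨A, hA, hA'⟩ := lift γ h1
  obtain ⟨B, hB, hB'⟩ := lift γ' h2
  have hr0 : (r : K) ≠ 0 := fun h => by simp [h] at hr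
  have hru : IsUnit (r : O) := by
    refine IsUnit.of_mul_eq_one ⟨(r : K)⁻¹, (hO _).2 (by rw [norm_inv, hr, inv_one])⟩ ?_
    apply Subtype.ext
    simpa using mul_inv_cancel₀ hr0
  obtain ⟨T, hT, hT'⟩ := rig_local hSEMI O n r A B hru hA' hB' (by
    apply Polynomial.map_injective O.subtype Subtype.val_injective
    rw [← Matrix.charpoly_map, ← Matrix.charpoly_map]
    exact (congrArg Matrix.charpoly hA).trans (hc.trans (congrArg Matrix.charpoly hB).symm))
  obtain ⟨u, rfl⟩ := (Matrix.isUnit_iff_isUnit_det T).2 hT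
  let c : Kint K n := ⟨Units.map φ.toMonoidHom u, fun i j => (hO _).1 (u.1 i j).2,
    fun i j => (hO _).1 (u⁻¹.1 i j).2⟩
  refine isConj_iff.2 ⟨c, ?_⟩
  rw [mul_inv_eq_iff_eq_mul]
  apply Subtype.ext
  apply Units.ext
  show φ u * (γ : GL (Fin n) K) = (γ' : GL (Fin n) K) * φ u
  rw [← hA, ← hB, ← map_mul, ← map_mul, hT']

end Pool.Agent.P.MP_7cb106_nt.T

end TRIG

section TTOP
set_option autoImplicit false

namespace Pool.Agent.P.MP_7cb106_nt.T

open Matrix Polynomial Module NumberField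
open scoped TensorProduct ComplexOrder

theorem p_TOP :
    S_TOP := by
  intro p _ K _ _ _ _ n
  have : ProperSpace K := FiniteDimensional.proper ℚ_[p] K
  let B : Set (Matrix (Fin n) (Fin n) K) :=
    Set.univ.pi fun _ => Set.univ.pi fun _ => Metric.closedBall 0 1
  have hB : ∀ A, A ∈ B ↔ ∀ i j, ‖A i j‖ ≤ 1 := fun A =>
    ⟨fun h i j => mem_closedBall_zero_iff.1 (h i trivial j trivial),
      fun h i _ j _ => mem_closedBall_zero_iff.2 (h i j)⟩
  have ho : IsOpen B := isOpen_set_pi Set.finite_univ fun _ _ =>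
    isOpen_set_pi Set.finite_univ fun _ _ => IsUltrametricDist.isOpen_closedBall _ one_ne_zero
  have hc : IsCompact B := isCompact_univ_pi fun _ => isCompact_univ_pi fun _ =>
    isCompact_closedBall _ _
  have e : (Kint K n : Set (GL (Fin n) K)) =
      Units.embedProduct (Matrix (Fin n) (Fin n) K) ⁻¹' (B ×ˢ (MulOpposite.op '' B)) := by
    ext g
    constructor
    · rintro ⟨h1, h2⟩
      exact ⟨(hB _).2 h1, _, (hB _).2 h2, rfl⟩
    · rintro ⟨h1, A, h2, h3⟩
      have : A = ((g⁻¹ : GL (Fin n) K) : Matrix (Fin n) (Fin n) K) := MulOpposite.op_injective h3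
      subst this
      exact ⟨(hB _).1 h1, (hB _).1 h2⟩
  rw [e]
  exact ⟨(ho.prod (MulOpposite.opHomeomorph.isOpenMap _ ho)).preimage
      Units.continuous_embedProduct,
    Units.isClosedEmbedding_embedProduct.isCompact_preimage
      (hc.prod (hc.image MulOpposite.continuous_op))⟩

end Pool.Agent.P.MP_7cb106_nt.T

end TTOP

section TNIL
set_option autoImplicit false

namespace Pool.Agent.P.MP_7cb106_nt.T

open Matrix Polynomial Module NumberField
open scoped TensorProduct ComplexOrder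

section
variable {K : Type} [NormedField K] [IsUltrametricDist K] {n : ℕ}

theorem nil_mul {A B : Matrix (Fin n) (Fin n) K} {s t : ℝ} (hs : 0 ≤ s) (ht : 0 ≤ t)
    (hA : ∀ i j, ‖A i j‖ ≤ s) (hB : ∀ i j, ‖B i j‖ ≤ t) : ∀ i j, ‖(A * B) i j‖ ≤ s * t := by
  intro i j
  rw [Matrix.mul_apply]
  refine IsUltrametricDist.norm_sum_le_of_forall_le_of_nonneg (mul_nonneg hs ht) fun l _ => ?_
  rw [norm_mul]
  exact mul_le_mul (hA i l) (hB l j) (norm_nonneg _) hs

theorem nil_add {A B : Matrix (Fin n) (Fin n) K} {s : ℝ}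
    (hA : ∀ i j, ‖A i j‖ ≤ s) (hB : ∀ i j, ‖B i j‖ ≤ s) : ∀ i j, ‖(A + B) i j‖ ≤ s := by
  intro i j
  rw [Matrix.add_apply]
  exact (IsUltrametricDist.norm_add_le_max _ _).trans (max_le (hA i j) (hB i j))

theorem nil_pow {V : Matrix (Fin n) (Fin n) K} {s : ℝ} (hs : 0 ≤ s)
    (hV : ∀ i j, ‖V i j‖ ≤ 1) (h1 : ∀ i j, ‖(V - 1) i j‖ ≤ s) (m : ℕ) :
    ∀ i j, ‖(V ^ m - 1) i j‖ ≤ s := by
  induction m with
  | zero => intro i j; simpa using hs
  | succ m ih =>
    have e : V ^ (m + 1) - 1 = (V ^ m - 1) * V + (V - 1) := by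
      rw [pow_succ]; noncomm_ring
    rw [e]
    refine nil_add ?_ h1
    simpa using nil_mul hs zero_le_one ih hV

theorem nil_lin {V : Matrix (Fin n) (Fin n) K} {s : ℝ} (hs : 0 ≤ s)
    (hV : ∀ i j, ‖V i j‖ ≤ 1) (h1 : ∀ i j, ‖(V - 1) i j‖ ≤ s) (m : ℕ) :
    ∀ i j, ‖(V ^ m - 1 - (m : K) • (V - 1)) i j‖ ≤ s * s := by
  induction m with
  | zero => intro i j; simpa using mul_nonneg hs hs
  | succ m ih =>
    have e : V ^ (m + 1) - 1 - ((m + 1 : ℕ) : K) • (V - 1) =
        (V ^ m - 1 - (m : K) • (V - 1)) + (V ^ m - 1) * (V - 1) := by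
      rw [pow_succ, Nat.cast_succ, add_smul, one_smul]; noncomm_ring
    rw [e]
    exact nil_add ih (nil_mul hs hs (nil_pow hs hV h1 m) h1)

theorem nil_step {V : Matrix (Fin n) (Fin n) K} {s c : ℝ} (hs : 0 ≤ s) (hc : s ≤ c) {p : ℕ}
    (hp : ‖(p : K)‖ ≤ c) (hV : ∀ i j, ‖V i j‖ ≤ 1) (h1 : ∀ i j, ‖(V - 1) i j‖ ≤ s) :
    ∀ i j, ‖(V ^ p - 1) i j‖ ≤ s * c := by
  have e : V ^ p - 1 = (V ^ p - 1 - (p : K) • (V - 1)) + (p : K) • (V - 1) := by abel
  rw [e]
  refine nil_add (fun i j => (nil_lin hs hV h1 p i j).trans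
    (mul_le_mul_of_nonneg_left hc hs)) fun i j => ?_
  rw [Matrix.smul_apply, smul_eq_mul, norm_mul, mul_comm]
  exact mul_le_mul (h1 i j) hp (norm_nonneg _) hs

omit [IsUltrametricDist K] in
theorem nil_tend {A : ℕ → Matrix (Fin n) (Fin n) K} {c : ℝ} (h0 : 0 ≤ c) (h1 : c < 1)
    (hA : ∀ e i j, ‖(A e - 1) i j‖ ≤ c ^ (e + 1)) :
    Filter.Tendsto A Filter.atTop (nhds 1) := by
  refine tendsto_pi_nhds.2 fun i => tendsto_pi_nhds.2 fun j => ?_
  rw [tendsto_iff_norm_sub_tendsto_zero]
  refine squeeze_zero (fun _ => norm_nonneg _) (fun e => hA e i j) ?_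
  exact (tendsto_pow_atTop_nhds_zero_of_lt_one h0 h1).comp (Filter.tendsto_add_atTop_nat 1)

end

theorem p_NIL :
    S_NIL := by
  intro p K _ _ n u hp hu
  obtain ⟨c, h0, h1, hpc, huc⟩ : ∃ c : ℝ, 0 ≤ c ∧ c < 1 ∧ ‖(p : K)‖ ≤ c ∧
      ∀ i k, ‖(((u : GL (Fin n) K) : Matrix (Fin n) (Fin n) K) - 1) i k‖ ≤ c := by
    obtain ⟨b, hb⟩ := Finite.exists_max (fun o : Option (Fin n × Fin n) => o.elim ‖(p : K)‖
      fun q => ‖(((u : GL (Fin n) K) : Matrix (Fin n) (Fin n) K) - 1) q.1 q.2‖)
    refine ⟨_, (norm_nonneg _).trans (hb none), ?_, hb none, fun i k => hb (some (i, k))⟩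
    cases b with
    | none => exact hp
    | some q => exact hu q.1 q.2
  have main : ∀ (e : ℕ) i j,
      ‖((((u ^ p ^ e : Kint K n) : GL (Fin n) K) : Matrix (Fin n) (Fin n) K) - 1) i j‖ ≤
        c ^ (e + 1) := by
    intro e
    induction e with
    | zero => simpa using huc
    | succ e ih =>
      have hle : c ^ (e + 1) ≤ c := by
        rw [pow_succ]
        exact mul_le_of_le_one_left h0 (pow_le_one₀ h0 h1.le)
      have := nil_step (pow_nonneg h0 _) hle hpc (u ^ p ^ e).2.1 ih
      rw [pow_succ p e, pow_mul, pow_succ c (e + 1)]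
      simpa using this
  have inv' : ∀ (e : ℕ) i j,
      ‖(((((u ^ p ^ e : Kint K n) : GL (Fin n) K)⁻¹ : GL (Fin n) K) :
        Matrix (Fin n) (Fin n) K) - 1) i j‖ ≤ c ^ (e + 1) := by
    intro e i j
    have hW := (u ^ p ^ e).2.2
    have h := nil_mul zero_le_one (pow_nonneg h0 _) hW (main e) i j
    rw [one_mul, mul_sub, Units.inv_mul, mul_one] at h
    rw [← neg_sub, Matrix.neg_apply, norm_neg]
    exact h
  rw [tendsto_subtype_rng, Units.isEmbedding_embedProduct.tendsto_nhds_iff]
  refine Filter.Tendsto.prodMk_nhds (nil_tend h0 h1 main) ?_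
  have := (MulOpposite.continuous_op.tendsto _).comp (nil_tend h0 h1 inv')
  simpa [Function.comp_def] using this

end Pool.Agent.P.MP_7cb106_nt.T

end TNIL

section TLIFT
set_option autoImplicit false

namespace Pool.Agent.P.MP_7cb106_nt.T

open Matrix Polynomial Module NumberField
open scoped TensorProduct ComplexOrder

lemma lift_gen {G : Type} [Group G] [TopologicalSpace G] [IsTopologicalGroup G] [CompactSpace G]
    [T2Space G] (N : Subgroup G) (hN : IsOpen (N : Set G)) (h : G) (r : ℕ) (hr : h ^ r ∈ N)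
    (e : ℕ → ℕ) (he : ∀ k, ∃ c, e k = 1 + r * c)
    (ht : Filter.Tendsto (fun k => (h ^ e k) ^ r) Filter.atTop (nhds 1)) :
    ∃ γ : G, γ ^ r = 1 ∧ γ⁻¹ * h ∈ N := by
  obtain ⟨γ, -, hγ⟩ := isCompact_univ.ultrafilter_le_nhds
    ((Filter.hyperfilter ℕ).map fun k => h ^ e k) (by simp)
  have hγ' : Filter.Tendsto (fun k => h ^ e k) (Filter.hyperfilter ℕ : Filter ℕ) (nhds γ) := hγ
  refine ⟨γ, tendsto_nhds_unique (((continuous_pow r).tendsto γ).comp hγ')
    (ht.mono_left Nat.hyperfilter_le_atTop), ?_⟩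
  have hc : Continuous fun x : G => x⁻¹ * h := by fun_prop
  refine (N.isClosed_of_isOpen hN).mem_of_tendsto ((hc.tendsto γ).comp hγ')
    (Filter.Eventually.of_forall fun k => ?_)
  obtain ⟨c, hc⟩ := he k
  show (h ^ e k)⁻¹ * h ∈ N
  rw [hc, pow_add, pow_one, pow_mul, _root_.mul_inv_rev, mul_assoc, inv_mul_cancel, mul_one]
  exact N.inv_mem (N.pow_mem hr c)

theorem p_LIFT (hTOP : S_TOP) (hNIL : S_NIL) :
    S_LIFT := by
  intro p hp K _ _ _ _ n f N g hf hN
  have : CompactSpace (Kint K n) := isCompact_iff_compactSpace.1 (hTOP p K n).2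
  have hp1 : ‖(p : K)‖ < 1 := by
    have e : (p : K) = algebraMap ℚ_[p] K p := by simp
    rw [e, norm_algebraMap']
    exact Padic.norm_p_lt_one
  have hU : IsOpen {u : Kint K n |
      ∀ i k, ‖(((u : GL (Fin n) K) : Matrix (Fin n) (Fin n) K) - 1) i k‖ < 1} := by
    simp only [Set.ofPred_forall]
    refine isOpen_iInter_of_finite fun i => isOpen_iInter_of_finite fun k => ?_
    refine isOpen_lt ?_ continuous_const
    have h1 : Continuous fun u : Kint K n => ((u : GL (Fin n) K) : Matrix (Fin n) (Fin n) K) :=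
      Units.continuous_val.comp continuous_subtype_val
    exact ((h1.sub continuous_const).matrix_elem i k).norm
  have hfr := (mapClusterPt_one_atTop_pow g).frequently
    ((hN.inter hU).mem_nhds ⟨N.one_mem, by simp⟩)
  obtain ⟨M, ⟨hM1, hM2⟩, hM⟩ := (hfr.and_eventually (Filter.eventually_gt_atTop 0)).exists
  obtain ⟨a, r, hr, rfl⟩ := Nat.exists_eq_pow_mul_and_not_dvd hM.ne' p hp.out.ne_one
  have hr0 : 0 < r := Nat.pos_of_ne_zero (by rintro rfl; exact hr (dvd_zero p))
  obtain ⟨f, rfl⟩ : ∃ f', f = f' + 1 := ⟨f - 1, by omega⟩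
  have key : ∀ t : ℕ,
      ((g ^ (p ^ (f + 1)) ^ a) ^ p ^ t) ^ r = (g ^ (p ^ a * r)) ^ p ^ (f * a + t) := by
    intro t
    simp only [← pow_mul]
    congr 1
    ring
  have hco : Nat.Coprime p r := (Nat.Prime.coprime_iff_not_dvd hp.out).2 hr
  refine ⟨a, r, (lift_gen N hN (g ^ (p ^ (f + 1)) ^ a) r ?_ (fun k => p ^ (r.totient * k))
    (fun k => ?_) ?_).imp fun γ h => ⟨hr0, hr, h.1, h.2⟩⟩
  · have := key 0
    rw [pow_zero, pow_one] at this
    rw [this]
    exact N.pow_mem hM1 _
  · have h := (Nat.ModEq.pow_totient hco).pow k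
    rw [one_pow, ← pow_mul] at h
    obtain ⟨c, hc⟩ := (Nat.modEq_iff_dvd' (Nat.one_le_pow _ _ hp.out.pos)).1 h.symm
    have := Nat.one_le_pow (r.totient * k) p hp.out.pos
    exact ⟨c, by omega⟩
  · simp only [key]
    refine (hNIL p K n _ hp1 hM2).comp ?_
    have h0 : 0 < r.totient := Nat.totient_pos.2 hr0
    refine Filter.tendsto_atTop_mono (f := fun k : ℕ => k) (fun k => ?_) Filter.tendsto_id
    nlinarith [Nat.zero_le (f * a)]

end Pool.Agent.P.MP_7cb106_nt.T

end TLIFT
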