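import Pool.Agent.P.MP_7cb106_nt.T.IfaceA
import Pool.Agent.P.MP_7cb106_nt.B.B1
import Pool.Agent.P.MP_7cb106_nt.B.B2
import Pool.Agent.P.MP_7cb106_nt.B.B3
import Pool.Agent.P.MP_7cb106_nt.B.B4
import Pool.Agent.P.MP_7cb106_nt.B.B5
import Pool.Agent.P.MP_7cb106_nt.B.B6

/-! Steps ARI RED SER IND BN JH. -/

section TARI
set_option autoImplicit false

namespace Pool.Agent.P.MP_7cb106_nt.T

open Matrix Polynomial Module NumberField
open scoped TensorProduct ComplexOrder

lemma ari_pow {L : Type} [Field L] {n : ℕ} {R : Subring L} {A : Matrix (Fin n) (Fin n) L}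
    (hA : ∀ i k, A i k ∈ R) (e : ℕ) : ∀ i k, (A ^ e) i k ∈ R := by
  induction e with
  | zero => rw [pow_zero]; exact ent_one
  | succ e ih => rw [pow_succ]; exact ent_mul ih hA

lemma ari_norm (p : ℕ) [Fact p.Prime] (K : Type) [NontriviallyNormedField K]
    [NormedAlgebra ℚ_[p] K] {r : ℕ} (h : ¬ p ∣ r) : ‖(r : K)‖ = 1 := by
  rw [← map_natCast (algebraMap ℚ_[p] K), norm_algebraMap', Padic.norm_natCast_eq_one_iff]
  exact (Nat.Prime.coprime_iff_not_dvd Fact.out).2 h

lemma ari_val {K L : Type} [Field K] [Field L] {n : ℕ} (j : L →+* K) (g : GL (Fin n) L) :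
    ((Matrix.GeneralLinearGroup.map j g : GL (Fin n) K) : Matrix (Fin n) (Fin n) K) =
      (g : Matrix (Fin n) (Fin n) L).map j := rfl

lemma ari_trace {K L : Type} [Field K] [Field L] {n : ℕ} (j : L →+* K) (g : GL (Fin n) L)
    (i : ℕ) :
    (((Matrix.GeneralLinearGroup.map j g : GL (Fin n) K) : Matrix (Fin n) (Fin n) K) ^ i).trace =
      j (((g : Matrix (Fin n) (Fin n) L) ^ i).trace) := by
  rw [← Units.val_pow_eq_pow_val, ← map_pow, ari_val, Units.val_pow_eq_pow_val]
  simp [Matrix.trace]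

lemma ari_conj {K : Type} [Field K] {n : ℕ} (x y : GL (Fin n) K) (i : ℕ) :
    (((x⁻¹ * y * x : GL (Fin n) K) : Matrix (Fin n) (Fin n) K) ^ i).trace =
      ((y : Matrix (Fin n) (Fin n) K) ^ i).trace := by
  have e : (x⁻¹ * y * x) ^ i = x⁻¹ * y ^ i * x := by
    have := conj_pow (a := x⁻¹) (b := y) (i := i)
    rwa [_root_.inv_inv] at this
  rw [← Units.val_pow_eq_pow_val, e, Units.val_mul, Units.val_mul, Matrix.trace_mul_cycle,
    Units.mul_inv, Matrix.one_mul, Units.val_pow_eq_pow_val]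

lemma ari_normal {L : Type} [Field L] {n : ℕ} {c : L ≃+* L} {b : 𝓞 L}
    {H : Matrix (Fin n) (Fin n) L} {l : ℕ} {g x : GL (Fin n) L} (hg : g ∈ Gam c b H)
    (hx : x ∈ GamL c b H l) : g * x * g⁻¹ ∈ GamL c b H l := by
  obtain ⟨hx1, Y, hY, e⟩ := hx
  refine ⟨mul_mem (mul_mem hg hx1) (inv_mem hg),
    (g : Matrix (Fin n) (Fin n) L) * Y * ((g⁻¹ : GL (Fin n) L) : Matrix (Fin n) (Fin n) L),
    ent_mul (ent_mul hg.1 hY) hg.2.1, ?_⟩
  rw [Units.val_mul, Units.val_mul, e, Matrix.mul_add, Matrix.add_mul, Matrix.mul_one,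
    Units.mul_inv, Matrix.mul_smul, Matrix.smul_mul]

theorem p_ARI (hCPD : S_CPD) (hCMF : S_CMF) (hGOOD : S_GOOD) (hGZ : S_GZ) (hHF : S_HF) (hCOC : S_COC) (hIDX : S_IDX) (hCONJ : S_CONJ) (hNEWT : S_NEWT) (hRIG : S_RIG) :
    S_ARI := by
  intro p _ K _ _ _ _ n r γ hr hpr hγ
  have : CharZero K := charZero_of_injective_algebraMap (algebraMap ℚ_[p] K).injective
  have hA : ((γ : GL (Fin n) K) : Matrix (Fin n) (Fin n) K) ^ r = 1 := by
    rw [← Units.val_pow_eq_pow_val, ← Subgroup.coe_pow, hγ]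
    rfl
  have hd := hCPD K n r _ hA
  obtain ⟨L, _, _, j, c, P0, hCM, hP0⟩ := hCMF p K _ r n hr (Matrix.charpoly_monic _) hd
  have hmon : P0.Monic := by
    rw [← Polynomial.monic_map_iff (f := j), hP0]
    exact Matrix.charpoly_monic _
  have hdeg : P0.natDegree = n := by
    rw [← Polynomial.natDegree_map j, hP0, Matrix.charpoly_natDegree_eq_dim, Fintype.card_fin]
  have hd0 : P0 ∣ (X ^ r - 1) ^ n := by
    rw [← Polynomial.map_dvd_map' j, hP0]
    simpa using hd
  obtain ⟨b, hb⟩ := hGOOD K L j c hCM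
  obtain ⟨g0, hint, hg0, hcp⟩ := hGZ L P0 r n n hr hmon hdeg hd0
  obtain ⟨H, hH, hU⟩ := hHF L c n r g0 hCM.conj hr hint hg0
  have e1 : g0 * g0 ^ (r - 1) = 1 := by
    rw [← pow_succ', Nat.sub_add_cancel hr, hg0]
  have e2 : g0 ^ (r - 1) * g0 = 1 := by
    rw [← pow_succ, Nat.sub_add_cancel hr, hg0]
  let G0 : GL (Fin n) L := ⟨g0, g0 ^ (r - 1), e1, e2⟩
  have hinv : ∀ i k, IsIntegral ℤ ((g0 ^ (r - 1)) i k) :=
    ari_pow (R := (integralClosure ℤ L).toSubring) hint (r - 1)
  have hG0 : G0 ∈ Gam c b H := ⟨fun i k => int_mem_Rb (hint i k), fun i k => int_mem_Rb (hinv i k), hU⟩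
  have hG0r : G0 ^ r = 1 := by
    apply Units.ext
    rw [Units.val_pow_eq_pow_val]
    exact hg0
  have hδ : Matrix.GeneralLinearGroup.map j G0 ∈ Kint K n :=
    ⟨fun i k => norm_map_le_one j (hint i k), fun i k => norm_map_le_one j (hinv i k)⟩
  let δ : Kint K n := ⟨_, hδ⟩
  have hδr : δ ^ r = 1 := by
    apply Subtype.ext
    rw [Subgroup.coe_pow]
    change Matrix.GeneralLinearGroup.map j G0 ^ r = 1
    rw [← map_pow, hG0r, map_one]
  have hrn := ari_norm p K hpr
  have hl : ¬ p ∣ p * (2 * n + 1) + 1 := by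
    intro h
    have h1 : p ∣ 1 := (Nat.dvd_add_right (dvd_mul_right _ _)).1 h
    exact (Fact.out : p.Prime).one_lt.ne' (Nat.dvd_one.1 h1)
  have hln : 2 * n < p * (2 * n + 1) + 1 := by
    have := (Fact.out : p.Prime).pos
    nlinarith
  refine ⟨(GamL c b H (p * (2 * n + 1) + 1)).map (Matrix.GeneralLinearGroup.map j), δ, ?_, hδr,
    ?_, ?_, ?_⟩
  · refine hRIG K n r δ γ hrn hδr hγ ?_
    change (g0.map j).charpoly = _
    rw [Matrix.charpoly_map, hcp, hP0]
  · obtain ⟨T, hT⟩ := hCOC K L j c b n H hCM.conj hb hH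
    obtain ⟨T0, hT0⟩ := hIDX L c b n H (p * (2 * n + 1) + 1) (Nat.succ_ne_zero _) hb.ne
    classical
    refine ⟨(T0 ×ˢ T).image fun q => Matrix.GeneralLinearGroup.map j q.1 * q.2, fun g => ?_⟩
    obtain ⟨_, ⟨y, hy, rfl⟩, t, ht, k, hk, rfl⟩ := hT g
    obtain ⟨y', hy', t0, ht0, rfl⟩ := hT0 y hy
    refine ⟨_, ⟨y', hy', rfl⟩, _,
      Finset.mem_image.2 ⟨(t0, t), Finset.mem_product.2 ⟨ht0, ht⟩, rfl⟩, k, hk, ?_⟩
    rw [map_mul]
    simp only [mul_assoc]
  · rintro _ ⟨y, hy, rfl⟩
    refine ⟨G0 * y * G0⁻¹, ari_normal hG0 hy, ?_⟩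
    rw [map_mul, map_mul, map_inv]
  · rintro _ ⟨y, hy, rfl⟩ x κ hκ
    have hκ' : x⁻¹ * Matrix.GeneralLinearGroup.map j (y * G0) * x = κ := by
      rw [map_mul]
      exact hκ
    have hcong : Cong b (p * (2 * n + 1) + 1) ((y * G0 : GL (Fin n) L) : Matrix (Fin n) (Fin n) L)
        G0 := by
      obtain ⟨-, Y, hY, e⟩ := hy
      refine ⟨Y * (G0 : Matrix (Fin n) (Fin n) L), ent_mul hY hG0.1, ?_⟩
      rw [Units.val_mul, e, Matrix.add_mul, Matrix.one_mul, Matrix.smul_mul]
    obtain ⟨h1, h2⟩ := hCONJ K L j c b n H _ r (y * G0) G0 x hCM.conj hb hH hln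
      (ari_norm p K hl) (mul_mem hy.1 hG0) hG0 hint hG0r hcong (hκ' ▸ κ.2)
    have hκr : κ ^ r = 1 := by
      apply Subtype.ext
      rw [Subgroup.coe_pow, ← hκ']
      have := conj_pow (a := x⁻¹) (b := Matrix.GeneralLinearGroup.map j (y * G0)) (i := r)
      rw [_root_.inv_inv, ← map_pow, h1, map_one, mul_one, inv_mul_cancel] at this
      exact this
    refine hRIG K n r κ δ hrn hκr hδr ?_
    have := hNEWT K (Fin n) (Fin n) ((κ : GL (Fin n) K) : Matrix (Fin n) (Fin n) K)
      ((δ : GL (Fin n) K) : Matrix (Fin n) (Fin n) K) 1 1 fun i => by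
        rw [← hκ', ari_conj, ari_trace, h2, ← ari_trace]
    simpa using this

end Pool.Agent.P.MP_7cb106_nt.T

end TARI

section TRED
set_option autoImplicit false

namespace Pool.Agent.P.MP_7cb106_nt.T

open Matrix Polynomial Module NumberField
open scoped TensorProduct ComplexOrder

lemma red_ker {A H V : Type} [CommRing A] [Group H] [TopologicalSpace H] [AddCommGroup V]
    [Module A V] [Module.Finite A V] {ρ : Representation A H V} (h : Smooth ρ) :
    IsOpen (ρ.ker : Set H) := by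
  obtain ⟨s, hs⟩ := Module.Finite.fg_top (R := A) (M := V)
  have e : (ρ.ker : Set H) = ⋂ v ∈ s, {g : H | ρ g v = v} := by
    ext g
    simp only [SetLike.mem_coe, MonoidHom.mem_ker, Set.mem_iInter, Set.mem_ofPred_eq]
    refine ⟨fun hg v _ => by rw [hg]; rfl, fun hg => ?_⟩
    exact LinearMap.ext_on hs fun v hv => hg v hv
  rw [e]
  exact isOpen_biInter_finset fun v _ => h v

lemma red_smooth {O H V : Type} [CommRing O] [Group H] [TopologicalSpace H]
    [IsTopologicalGroup H] [AddCommGroup V] [Module O V] [Module.Finite O V] (A : Type)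
    [CommRing A] [Algebra O A] {ρ : Representation O H V} (h : Smooth ρ) :
    Smooth (extend A ρ) := by
  intro v
  let U : Subgroup H :=
    { carrier := {g : H | extend A ρ g v = v}
      mul_mem' := fun {a b} ha hb => by
        change extend A ρ (a * b) v = v
        rw [map_mul, Module.End.mul_apply, show extend A ρ b v = v from hb]
        exact ha
      one_mem' := by
        change extend A ρ 1 v = v
        rw [map_one]
        rfl
      inv_mem' := fun {a} ha => by
        change extend A ρ a⁻¹ v = v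
        conv_lhs => rw [← show extend A ρ a v = v from ha]
        rw [← Module.End.mul_apply, ← map_mul, inv_mul_cancel, map_one]
        rfl }
  refine Subgroup.isOpen_mono (H₂ := U) (fun g hg => ?_) (red_ker h)
  change (ρ g).baseChange A v = v
  rw [show ρ g = 1 from hg, LinearMap.baseChange_one]
  rfl

lemma red_pow {F V : Type} [Field F] [Fintype F] [AddCommGroup V] [Module F V]
    [FiniteDimensional F V] (f : V →ₗ[F] V) (e : ℕ) :
    (f ^ Fintype.card F ^ e).charpoly = f.charpoly := by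
  have key : ∀ f : V →ₗ[F] V, (f ^ Fintype.card F).charpoly = f.charpoly := fun f => by
    classical
    let b := Module.Free.chooseBasis F V
    rw [← LinearMap.charpoly_toMatrix _ b, ← LinearMap.charpoly_toMatrix f b,
      ← LinearMap.toMatrix_pow, FiniteField.Matrix.charpoly_pow_card]
  induction e with
  | zero => simp
  | succ e ih => rw [pow_succ, pow_mul, key, ih]

lemma red_triv {O S L : Type} [CommRing O] [AddCommGroup S] [Module O S] [AddCommGroup L]
    [Module O L] (F : Type) [CommRing F] [Algebra O F] (f : L →ₗ[O] L)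
    (h : f.baseChange F = 1) : (TensorProduct.map (1 : S →ₗ[O] S) f).baseChange F = 1 := by
  ext s l
  have h1 := congrArg ((TensorProduct.mk O S L s).baseChange F)
    (LinearMap.congr_fun h ((1 : F) ⊗ₜ[O] l))
  simpa using h1

lemma red_cp (hNEWT : S_NEWT) {O C V W : Type} [CommRing O] [Field C] [CharZero C] [Algebra O C]
    [AddCommGroup V] [Module O V] [Module.Free O V] [Module.Finite O V]
    [AddCommGroup W] [Module O W] [Module.Free O W] [Module.Finite O W]
    (hi : Function.Injective (algebraMap O C)) (f : V →ₗ[O] V) (g : W →ₗ[O] W) (m m' : ℕ)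
    (h : ∀ i : ℕ, (m' : C) * algebraMap O C (LinearMap.trace O V (f ^ i)) =
      m * algebraMap O C (LinearMap.trace O W (g ^ i))) :
    f.charpoly ^ m' = g.charpoly ^ m := by
  classical
  let b := Module.Free.chooseBasis O V
  let c := Module.Free.chooseBasis O W
  have key := hNEWT C _ _ ((LinearMap.toMatrix b b f).map (algebraMap O C))
    ((LinearMap.toMatrix c c g).map (algebraMap O C)) m m' fun i => by
      have h1 := h i
      rw [LinearMap.trace_eq_matrix_trace O b, LinearMap.trace_eq_matrix_trace O c,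
        ← LinearMap.toMatrix_pow, ← LinearMap.toMatrix_pow] at h1
      rw [← Matrix.map_pow, ← Matrix.map_pow, ← AddMonoidHom.map_trace, ← AddMonoidHom.map_trace]
      exact h1
  rw [Matrix.charpoly_map, Matrix.charpoly_map, LinearMap.charpoly_toMatrix,
    LinearMap.charpoly_toMatrix, ← Polynomial.map_pow, ← Polynomial.map_pow] at key
  exact Polynomial.map_injective _ hi key

lemma red_conj {A H V : Type} [CommRing A] [Group H] [AddCommGroup V] [Module A V]
    (ρ : Representation A H V) {a b : H} (h : IsConj a b) :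
    LinearMap.trace A V (ρ a) = LinearMap.trace A V (ρ b) := by
  obtain ⟨c, rfl⟩ := isConj_iff.1 h
  rw [map_mul ρ (c * a), LinearMap.trace_mul_comm, ← map_mul, inv_mul_cancel_left]

lemma red_step {O H S L : Type} [CommRing O] [Group H] [AddCommGroup S] [Module O S]
    [Module.Free O S] [Module.Finite O S] [AddCommGroup L] [Module O L] [Module.Free O L]
    [Module.Finite O L] {F : Type} [Field F] [Fintype F] [Algebra O F]
    (σ : Representation O H S) (lam : Representation O H L) {g γ : H} {e : ℕ}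
    (h1 : σ (γ⁻¹ * g ^ Fintype.card F ^ e) = 1)
    (h2 : extend F lam (γ⁻¹ * g ^ Fintype.card F ^ e) = 1) :
    (extend F (σ.tprod lam) g).charpoly = (σ.tprod lam γ).charpoly.map (algebraMap O F) := by
  have h3 : extend F (σ.tprod lam) (γ⁻¹ * g ^ Fintype.card F ^ e) = 1 := by
    change (TensorProduct.map (σ _) (lam _)).baseChange F = 1
    rw [h1]
    exact red_triv F _ h2
  have h4 : extend F (σ.tprod lam) g ^ Fintype.card F ^ e = extend F (σ.tprod lam) γ := by
    rw [← map_pow, ← mul_inv_cancel_left γ (g ^ Fintype.card F ^ e), map_mul, h3, mul_one]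
  rw [← red_pow _ e, h4]
  exact LinearMap.charpoly_baseChange _ F

theorem p_RED (hTOP : S_TOP) (hLIFT : S_LIFT) (hARI : S_ARI) (hGLOB : S_GLOB) (hNEWT : S_NEWT) :
    S_RED := by
  intro p _ K _ _ _ _ n O C F _ _ _ _ _ _ _ _ _ S S' L _ _ _ _ _ _ _ _ _ _ _ _ σ σ' lam m m'
    hi hσ hσ' hl hH g
  have := Fintype.ofFinite F
  obtain ⟨f, -, hf⟩ := FiniteField.card F p
  obtain ⟨e, r, γ, hr, hpr, hγ, hN⟩ := hLIFT p K n f
    (σ.ker ⊓ σ'.ker ⊓ (extend F lam).ker) g f.2
    (((red_ker hσ).inter (red_ker hσ')).inter (red_ker hl))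
  rw [← hf] at hN
  rw [red_step σ lam hN.1.1 hN.2, red_step σ' lam hN.1.2 hN.2, ← Polynomial.map_pow,
    ← Polynomial.map_pow]
  congr 1
  refine red_cp hNEWT hi _ _ m m' fun i => ?_
  obtain ⟨Γ, δ, hc, hδ, h1, h2, h3⟩ := hARI p K n r (γ ^ i) hr hpr
    (by rw [← pow_mul, mul_comm, pow_mul, hγ, one_pow])
  have key := hGLOB C _ _ _ Γ (Kint K n) (extend C σ) (extend C σ') m m' δ r (hTOP p K n).1
    (hTOP p K n).2 (red_smooth C hσ) (red_smooth C hσ') hH h1 h2 h3 hr hδ
  rw [red_conj _ hc, red_conj (extend C σ') hc] at key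
  change (m' : C) * LinearMap.trace C _ ((σ (γ ^ i)).baseChange C) =
    m * LinearMap.trace C _ ((σ' (γ ^ i)).baseChange C) at key
  rw [LinearMap.trace_baseChange, LinearMap.trace_baseChange] at key
  rw [← map_pow, ← map_pow, Representation.tprod_apply, Representation.tprod_apply,
    LinearMap.trace_tensorProduct', LinearMap.trace_tensorProduct', map_mul, map_mul,
    ← mul_assoc, ← mul_assoc, key]

end Pool.Agent.P.MP_7cb106_nt.T

end TRED

section TSER
set_option autoImplicit false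

namespace Pool.Agent.P.MP_7cb106_nt.T

open Matrix Polynomial Module NumberField
open scoped TensorProduct ComplexOrder

lemma ser_cp {F R M N : Type} [Field F] [Ring R] [Algebra F R] [AddCommGroup M] [Module F M]
    [Module R M] [IsScalarTower F R M] [FiniteDimensional F M] [AddCommGroup N] [Module F N]
    [Module R N] [IsScalarTower F R N] [FiniteDimensional F N] (e : M ≃ₗ[R] N) (a : R) :
    cp F M a = cp F N a := by
  rw [cp, cp, ← LinearEquiv.charpoly_conj (e.restrictScalars F)]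
  congr 1
  ext x
  simp [LinearEquiv.conj_apply]

lemma ser_step (hQUO : S_QUO) {F R M : Type} [Field F] [Ring R] [Algebra F R] [AddCommGroup M]
    [Module F M] [Module R M] [IsScalarTower F R M] [FiniteDimensional F M] (U : Submodule R M)
    (a : R) : cp F M a = cp F U a * cp F (M ⧸ U) a := by
  have h : ∀ x ∈ U.restrictScalars F,
      (Algebra.lsmul F F M a : M →ₗ[F] M) x ∈ U.restrictScalars F :=
    fun x hx => U.smul_mem a hx
  rw [cp, hQUO F M _ _ h]
  congr 1

theorem p_SER (hQUO : S_QUO) :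
    S_SER := by
  intro F R M _ _ _ _ _ _ _ _ s h0 h1 a
  have key : ∀ (k : ℕ) (hk : k ≤ s.length), cp F (s ⟨k, Nat.lt_succ_of_le hk⟩) a =
      ∏ i : Fin k, cp F (↥(s (i.castLE hk).succ) ⧸
        (s (i.castLE hk).castSucc).submoduleOf (s (i.castLE hk).succ)) a := by
    intro k
    induction k with
    | zero =>
      intro hk
      have e : s ⟨0, Nat.lt_succ_of_le hk⟩ = ⊥ := h0
      have : Subsingleton (s ⟨0, Nat.lt_succ_of_le hk⟩) := by rw [e]; infer_instance
      rw [Fin.prod_univ_zero, cp, ← (LinearMap.charpoly_monic _).natDegree_eq_zero,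
        LinearMap.charpoly_natDegree, Module.finrank_zero_of_subsingleton]
    | succ k ih =>
      intro hk
      have hle : s ⟨k, by omega⟩ ≤ s ⟨k + 1, Nat.lt_succ_of_le hk⟩ :=
        s.strictMono.monotone (by simp [Fin.le_def])
      rw [Fin.prod_univ_castSucc, ser_step hQUO ((s ⟨k, by omega⟩).submoduleOf _) a,
        ser_cp (Submodule.submoduleOfEquivOfLe hle) a, ih (by omega)]
      rfl
  have e : s ⟨s.length, Nat.lt_succ_of_le le_rfl⟩ = ⊤ := h1
  rw [← ser_cp ((LinearEquiv.ofEq _ _ e).trans Submodule.topEquiv) a, key _ le_rfl]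
  rfl

end Pool.Agent.P.MP_7cb106_nt.T

end TSER

section TIND
set_option autoImplicit false

namespace Pool.Agent.P.MP_7cb106_nt.T

open Matrix Polynomial Module NumberField
open scoped TensorProduct ComplexOrder

theorem ind_field (F E N : Type) [Field F] [Finite F] [Field E] [Finite E] [Algebra F E]
    [AddCommGroup N] [Module F N] [Module E N] [IsScalarTower F E N] [Finite N] [Nontrivial N] :
    ∃ φ : N →ₗ[E] N, LinearMap.trace F N (φ.restrictScalars F) ≠ 0 := by
  obtain ⟨d, hd⟩ : ∃ d, Algebra.trace F E d ≠ 0 := by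
    by_contra h
    push Not at h
    exact Algebra.trace_ne_zero F E (LinearMap.ext h)
  let b := Module.Free.chooseBasis E N
  obtain ⟨i⟩ := b.index_nonempty
  let α : E →ₗ[E] N := LinearMap.toSpanSingleton E N (d • b i)
  refine ⟨α ∘ₗ b.coord i, ?_⟩
  have e : (α ∘ₗ b.coord i).restrictScalars F =
      α.restrictScalars F ∘ₗ (b.coord i).restrictScalars F := rfl
  rw [e, LinearMap.trace_comp_comm']
  convert hd using 1
  rw [Algebra.trace_apply]
  congr 1
  ext x
  simp [α, mul_comm]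

theorem ind_simple (F R N : Type) [Field F] [Finite F] [Ring R] [Algebra F R] [AddCommGroup N]
    [Module F N] [Module R N] [IsScalarTower F R N] [Finite N] [IsSimpleModule R N] :
    ∃ φ : N →ₗ[F] N, LinearMap.trace F N φ ≠ 0 ∧ ∀ (g : N →ₗ[R] N) (n : N), φ (g n) = g (φ n) := by
  classical
  have : Nontrivial N := IsSimpleModule.nontrivial R N
  have : Finite (Module.End R N) := Finite.of_injective _ DFunLike.coe_injective
  let _ : Field (Module.End R N) := littleWedderburn _
  obtain ⟨φ, hφ⟩ := ind_field F (Module.End R N) N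
  exact ⟨φ.restrictScalars F, hφ, fun g n => φ.map_smul g n⟩

theorem p_IND :
    S_IND := by
  intro F R _ _ _ _ D hD hne I hI
  classical
  have hs : ∀ J : D, IsSimpleModule R (R ⧸ J.1) := fun J => (hD J.1 J.2).1
  have hf : ∀ J : D, Finite (R ⧸ J.1) := fun J =>
    have := (hD J.1 J.2).2
    Module.finite_of_finite F
  let i : D := ⟨I, hI⟩
  obtain ⟨φ, h1, h2⟩ := ind_simple F R (R ⧸ i.1)
  have hz : ∀ (J K : D), J ≠ K → ∀ g : (R ⧸ J.1) →ₗ[R] (R ⧸ K.1), g = 0 := fun J K h g =>
    (LinearMap.bijective_or_eq_zero g).resolve_left fun hb =>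
      h (Subtype.ext (hne _ J.2 _ K.2 ⟨LinearEquiv.ofBijective g hb⟩))
  let M := ∀ J : D, R ⧸ J.1
  let c : ∀ (_ : Module.End R M) (J K : D), (R ⧸ J.1) →ₗ[R] (R ⧸ K.1) := fun g J K =>
    LinearMap.proj K ∘ₗ g ∘ₗ LinearMap.single R (fun J : D => R ⧸ J.1) J
  have hc : ∀ g J K n, c g J K n = g (Pi.single J n) K := fun _ _ _ _ => rfl
  let f : Module.End (Module.End R M) M :=
    { toFun := fun m => Pi.single i (φ (m i))
      map_add' := fun m m' => by rw [← Pi.single_add, ← map_add]; rfl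
      map_smul' := fun g m => by
        have e1 : g m i = c g i i (m i) := by
          conv_lhs => rw [← Finset.univ_sum_single m, map_sum, Finset.sum_apply]
          rw [Finset.sum_eq_single i, hc]
          · intro J _ hJ
            rw [← hc, hz J i hJ (c g J i), LinearMap.zero_apply]
          · simp
        change Pi.single i (φ (g m i)) = g (Pi.single i (φ (m i)))
        funext K
        rw [← hc, e1, h2]
        by_cases hK : K = i
        · subst hK
          rw [Pi.single_eq_same]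
        · rw [Pi.single_eq_of_ne hK, hz i K (Ne.symm hK) (c g i K), LinearMap.zero_apply] }
  have : Fintype M := Fintype.ofFinite M
  obtain ⟨x, hx⟩ := jacobson_density f Finset.univ
  have h3 : ∀ (J : D) (n : R ⧸ J.1), x • n =
      (Pi.single i (φ ((Pi.single J n : M) i)) : M) J := fun J n => by
    have := congrFun (hx (Pi.single J n) (Finset.mem_univ _)) J
    rw [Pi.smul_apply, Pi.single_eq_same] at this
    exact this.symm
  refine ⟨x, ?_, fun J hJ hJI => LinearMap.ext fun n => ?_⟩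
  · convert h1 using 2
    refine LinearMap.ext fun n => ?_
    have := h3 i n
    rw [Pi.single_eq_same, Pi.single_eq_same] at this
    exact this
  · have := h3 ⟨J, hJ⟩ n
    rw [Pi.single_eq_of_ne (fun h => hJI (congrArg Subtype.val h))] at this
    exact this

end Pool.Agent.P.MP_7cb106_nt.T

end TIND

section TBN
set_option autoImplicit false

namespace Pool.Agent.P.MP_7cb106_nt.T

open Matrix Polynomial Module NumberField
open scoped TensorProduct ComplexOrder

lemma bn_core {F R α : Type} [Field F] [Finite F] [AddCommGroup R] [Module F R] {E : Set R}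
    (hE : Submodule.span F E = ⊤) (D : Finset α) (P : α → R → F[X]) (t : α → R →ₗ[F] F)
    (hm : ∀ d ∈ D, ∀ x, (P d x).Monic) (ht : ∀ d ∈ D, ∀ x, (P d x).nextCoeff = - t d x)
    (hi : ∀ d ∈ D, ∃ x, t d x ≠ 0 ∧ ∀ d' ∈ D, d' ≠ d → t d' x = 0) (n : ℕ) :
    ∀ a b : α → ℕ, ∑ d ∈ D, (a d + b d) = n →
      (∀ x ∈ E, ∏ d ∈ D, P d x ^ a d = ∏ d ∈ D, P d x ^ b d) → ∀ d ∈ D, a d = b d := by
  induction n using Nat.strong_induction_on with
  | _ n ih =>
  intro a b hn h
  obtain ⟨p, hp⟩ := CharP.exists F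
  have pp : p.Prime := CharP.char_is_prime F p
  have : Fact p.Prime := ⟨pp⟩
  have nc : ∀ (c : α → ℕ) x, (∏ d ∈ D, P d x ^ c d).nextCoeff = -(∑ d ∈ D, (c d : F) • t d) x := by
    intro c x
    rw [Monic.nextCoeff_prod _ _ fun d hd => (hm d hd x).pow _, LinearMap.sum_apply,
      ← Finset.sum_neg_distrib]
    refine Finset.sum_congr rfl fun d hd => ?_
    rw [(hm d hd x).nextCoeff_pow, ht d hd]; simp
  have tr : ∑ d ∈ D, (a d : F) • t d = ∑ d ∈ D, (b d : F) • t d :=
    LinearMap.ext_on hE fun x hx => neg_injective (by rw [← nc, ← nc, h x hx])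
  have md : ∀ d ∈ D, a d ≡ b d [MOD p] := by
    intro d hd
    obtain ⟨x, x0, hx⟩ := hi d hd
    have := LinearMap.congr_fun tr x
    simp only [LinearMap.sum_apply, LinearMap.smul_apply, smul_eq_mul] at this
    rw [Finset.sum_eq_single_of_mem d hd fun d' h' ne => by rw [hx d' h' ne, mul_zero],
      Finset.sum_eq_single_of_mem d hd fun d' h' ne => by rw [hx d' h' ne, mul_zero]] at this
    exact (CharP.natCast_eq_natCast F p).1 (mul_right_cancel₀ x0 this)
  have ex : ∀ d, ∃ c a' b' : ℕ, d ∈ D → a d = c + a' * p ∧ b d = c + b' * p := by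
    intro d
    by_cases hd : d ∈ D
    · refine ⟨a d % p, a d / p, b d / p, fun _ => ⟨(Nat.mod_add_div' _ _).symm, ?_⟩⟩
      rw [md d hd]; exact (Nat.mod_add_div' _ _).symm
    · exact ⟨0, 0, 0, fun h => absurd h hd⟩
  choose c a' b' e using ex
  have h' : ∀ x ∈ E, ∏ d ∈ D, P d x ^ a' d = ∏ d ∈ D, P d x ^ b' d := by
    intro x hx
    have sp : ∀ u u' : α → ℕ, (∀ d ∈ D, u d = c d + u' d * p) →
        ∏ d ∈ D, P d x ^ u d = (∏ d ∈ D, P d x ^ c d) * (∏ d ∈ D, P d x ^ u' d) ^ p := by
      intro u u' hu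
      rw [← Finset.prod_pow, ← Finset.prod_mul_distrib]
      exact Finset.prod_congr rfl fun d hd => by rw [hu d hd, pow_add, pow_mul]
    have := h x hx
    rw [sp a a' fun d hd => (e d hd).1, sp b b' fun d hd => (e d hd).2] at this
    exact frobenius_inj F[X] p (mul_left_cancel₀
      (monic_prod_of_monic _ _ fun d hd => (hm d hd x).pow _).ne_zero this)
  have le : 2 * ∑ d ∈ D, (a' d + b' d) ≤ n := by
    rw [← hn, Finset.mul_sum]
    refine Finset.sum_le_sum fun d hd => ?_
    rw [(e d hd).1, (e d hd).2]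
    nlinarith [pp.two_le]
  intro d hd
  rcases Nat.eq_zero_or_pos n with n0 | n0
  · have := Finset.sum_eq_zero_iff.1 (hn.trans n0) d hd
    omega
  · rw [(e d hd).1, (e d hd).2, ih _ (by omega) a' b' rfl h' d hd]

lemma bn_cp {F R M N : Type} [Field F] [Ring R] [Algebra F R] [AddCommGroup M] [Module F M]
    [Module R M] [IsScalarTower F R M] [FiniteDimensional F M] [AddCommGroup N] [Module F N]
    [Module R N] [IsScalarTower F R N] [FiniteDimensional F N] (e : M ≃ₗ[R] N) (a : R) :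
    cp F M a = cp F N a := by
  rw [cp, cp, ← LinearEquiv.charpoly_conj (e.restrictScalars F)]
  congr 1
  ext x
  simp [LinearEquiv.conj_apply]

lemma bn_next {F R M : Type} [Field F] [Ring R] [Algebra F R] [AddCommGroup M] [Module F M]
    [Module R M] [IsScalarTower F R M] [FiniteDimensional F M] (a : R) :
    (cp F M a).nextCoeff = - LinearMap.trace F M (Algebra.lsmul F F M a) := by
  classical
  rw [cp, LinearMap.trace_eq_matrix_trace F (Module.finBasis F M),
    Matrix.trace_eq_neg_charpoly_nextCoeff, LinearMap.charpoly_toMatrix, neg_neg]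

/-- a chosen left ideal with the same quotient module -/
noncomputable def bnRep {R : Type} [Ring R] (X : Submodule R R) : Submodule R R :=
  Classical.epsilon fun Y : Submodule R R => Nonempty ((R ⧸ Y) ≃ₗ[R] (R ⧸ X))

lemma bn_rep {R : Type} [Ring R] (X : Submodule R R) :
    Nonempty ((R ⧸ bnRep X) ≃ₗ[R] (R ⧸ X)) :=
  Classical.epsilon_spec (p := fun Y : Submodule R R => Nonempty ((R ⧸ Y) ≃ₗ[R] (R ⧸ X)))
    ⟨X, ⟨LinearEquiv.refl _ _⟩⟩

lemma bn_rep_eq {R : Type} [Ring R] {X Y : Submodule R R} (e : (R ⧸ X) ≃ₗ[R] (R ⧸ Y)) :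
    bnRep X = bnRep Y :=
  congrArg Classical.epsilon (funext fun _ => propext
    ⟨fun ⟨f⟩ => ⟨f.trans e⟩, fun ⟨f⟩ => ⟨f.trans e.symm⟩⟩)

open Classical in
/-- the characteristic polynomial on a quotient, one if it has infinite dimension -/
noncomputable def bnQ (F : Type) {R : Type} [Field F] [Ring R] [Algebra F R] (X : Submodule R R)
    (a : R) : F[X] :=
  if h : FiniteDimensional F (R ⧸ X) then (haveI := h; cp F (R ⧸ X) a) else 1

lemma bn_Q {F R : Type} [Field F] [Ring R] [Algebra F R] (X : Submodule R R)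
    [h : FiniteDimensional F (R ⧸ X)] (a : R) : bnQ F X a = cp F (R ⧸ X) a := dif_pos h

lemma bn_fd (F : Type) {R : Type} [Field F] [Ring R] [Algebra F R] (X : Submodule R R)
    [FiniteDimensional F (R ⧸ X)] : FiniteDimensional F (R ⧸ bnRep X) :=
  ((bn_rep X).some.restrictScalars F).symm.finiteDimensional

open Classical in
lemma bn_prod {F R ι : Type} [Field F] [Ring R] [Algebra F R] [Fintype ι]
    (I : ι → Submodule R R) [∀ i, FiniteDimensional F (R ⧸ I i)] (D : Finset (Submodule R R))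
    (hD : ∀ i, bnRep (I i) ∈ D) (m : ℕ) (a : R) : (∏ i, cp F (R ⧸ I i) a) ^ m =
      ∏ d ∈ D, bnQ F d a ^ (m * (Finset.univ.filter fun i => bnRep (I i) = d).card) := by
  have : ∀ i, cp F (R ⧸ I i) a = bnQ F (bnRep (I i)) a := fun i => by
    have := bn_fd F (I i)
    rw [bn_Q, bn_cp (bn_rep (I i)).some]
  simp only [this]
  rw [← Finset.prod_fiberwise_of_maps_to' (fun i _ => hD i) fun d => bnQ F d a, ← Finset.prod_pow]
  exact Finset.prod_congr rfl fun d _ => by rw [Finset.prod_const, ← pow_mul, mul_comm]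

open Classical in
lemma bn_card {R ι W : Type} [Ring R] [Fintype ι] [AddCommGroup W] [Module R W]
    (I : ι → Submodule R R) {X : Submodule R R} (e : (R ⧸ X) ≃ₗ[R] W) :
    Nat.card {i // Nonempty ((R ⧸ I i) ≃ₗ[R] W)} =
      (Finset.univ.filter fun i => bnRep (I i) = bnRep X).card := by
  rw [Nat.card_eq_fintype_card, Fintype.card_subtype]
  refine congrArg Finset.card (Finset.filter_congr fun i _ => ?_)
  refine ⟨fun ⟨f⟩ => bn_rep_eq (f.trans e.symm), fun h => ?_⟩
  obtain ⟨f⟩ := bn_rep (I i)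
  obtain ⟨g⟩ := bn_rep X
  rw [h] at f
  exact ⟨f.symm.trans (g.trans e)⟩

theorem p_BN (hIND : S_IND) :
    S_BN := by
  classical
  intro F R _ _ _ _ E hE ι κ _ _ I J _ _ m m' sI sJ h W _ _
  set D : Finset (Submodule R R) := Finset.univ.image (fun i => bnRep (I i)) ∪
    Finset.univ.image fun k => bnRep (J k) with hD
  have mI : ∀ i, bnRep (I i) ∈ D := fun i =>
    Finset.mem_union_left _ (Finset.mem_image_of_mem _ (Finset.mem_univ i))
  have mJ : ∀ k, bnRep (J k) ∈ D := fun k =>
    Finset.mem_union_right _ (Finset.mem_image_of_mem _ (Finset.mem_univ k))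
  have st : ∀ d ∈ D, ∃ X, d = bnRep X ∧ IsSimpleModule R (R ⧸ d) ∧ FiniteDimensional F (R ⧸ d) := by
    intro d hd
    rcases Finset.mem_union.1 hd with hd | hd <;> obtain ⟨i, -, rfl⟩ := Finset.mem_image.1 hd
    · have := sI i
      exact ⟨_, rfl, IsSimpleModule.congr (bn_rep _).some, bn_fd F _⟩
    · have := sJ i
      exact ⟨_, rfl, IsSimpleModule.congr (bn_rep _).some, bn_fd F _⟩
  have ind := hIND F R D (fun d hd => (st d hd).choose_spec.2) (by
    rintro d hd d' hd' ⟨e⟩
    obtain ⟨X, rfl, -⟩ := st d hd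
    obtain ⟨Y, rfl, -⟩ := st d' hd'
    exact bn_rep_eq ((bn_rep X).some.symm.trans (e.trans (bn_rep Y).some)))
  have key := bn_core hE D (fun d a => bnQ F d a)
    (fun d => LinearMap.trace F (R ⧸ d) ∘ₗ (Algebra.lsmul F F (R ⧸ d)).toLinearMap)
    (fun d hd x => by
      have := (st d hd).choose_spec.2.2
      rw [bn_Q]; exact LinearMap.charpoly_monic _)
    (fun d hd x => by
      have := (st d hd).choose_spec.2.2
      rw [bn_Q, bn_next]; rfl)
    (fun d hd => by
      obtain ⟨x, x0, hx⟩ := ind d hd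
      refine ⟨x, x0, fun d' h' ne => ?_⟩
      change LinearMap.trace F (R ⧸ d') (Algebra.lsmul F F (R ⧸ d') x) = 0
      rw [hx d' h' ne, map_zero]) _
    (fun d => m' * (Finset.univ.filter fun i => bnRep (I i) = d).card)
    (fun d => m * (Finset.univ.filter fun k => bnRep (J k) = d).card) rfl
    fun a ha => by rw [← bn_prod I D mI, ← bn_prod J D mJ, h a ha]
  by_cases c : ∃ X, bnRep X ∈ D ∧ Nonempty ((R ⧸ X) ≃ₗ[R] W)
  · obtain ⟨X, hX, ⟨e⟩⟩ := c
    rw [bn_card I e, bn_card J e]
    exact key _ hX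
  · have : IsEmpty {i // Nonempty ((R ⧸ I i) ≃ₗ[R] W)} := ⟨fun i => c ⟨_, mI i.1, i.2⟩⟩
    have : IsEmpty {k // Nonempty ((R ⧸ J k) ≃ₗ[R] W)} := ⟨fun k => c ⟨_, mJ k.1, k.2⟩⟩
    simp

end Pool.Agent.P.MP_7cb106_nt.T

end TBN

section TJH
set_option autoImplicit false

namespace Pool.Agent.P.MP_7cb106_nt.T

open Matrix Polynomial Module NumberField
open scoped TensorProduct ComplexOrder

lemma jh_cp (F : Type) {R M M' : Type} [Field F] [Ring R] [Algebra F R] [AddCommGroup M]
    [Module F M] [Module R M] [IsScalarTower F R M] [FiniteDimensional F M] [AddCommGroup M']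
    [Module F M'] [Module R M'] [IsScalarTower F R M'] [FiniteDimensional F M']
    (e : M ≃ₗ[R] M') (a : R) : cp F M a = cp F M' a := by
  unfold cp
  rw [← (e.restrictScalars F).charpoly_conj]
  congr 1
  ext x
  simp [LinearEquiv.conj_apply]

lemma jh_fac (hSER : S_SER) (F : Type) {R M : Type} [Field F] [Ring R] [Algebra F R]
    [AddCommGroup M] [Module F M] [Module R M] [IsScalarTower F R M] [FiniteDimensional F M]
    (s : CompositionSeries (Submodule R M)) (h0 : s.head = ⊥) (h1 : s.last = ⊤) :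
    ∃ (I : Fin s.length → Submodule R R) (_ : ∀ i, FiniteDimensional F (R ⧸ I i)),
      (∀ i, IsSimpleModule R (R ⧸ I i)) ∧ (∀ a : R, cp F M a = ∏ i, cp F (R ⧸ I i) a) ∧
      ∀ (W : Type) [AddCommGroup W] [Module R W],
        factorCount s W = Nat.card {i // Nonempty ((R ⧸ I i) ≃ₗ[R] W)} := by
  have hs : ∀ i : Fin s.length,
      IsSimpleModule R (↥(s i.succ) ⧸ (s i.castSucc).submoduleOf (s i.succ)) := fun i =>
    (covBy_iff_quot_is_simple (CovBy.le (s.step i))).1 (s.step i)
  choose I _ e using fun i => isSimpleModule_iff_quot_maximal.1 (hs i)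
  have e' := fun i => (e i).some
  have fd : ∀ i, FiniteDimensional F (R ⧸ (I i : Submodule R R)) := fun i =>
    ((e' i).restrictScalars F).finiteDimensional
  refine ⟨I, fd, fun i => ?_, fun a => ?_, fun W _ _ => ?_⟩
  · have := hs i
    exact IsSimpleModule.congr (e' i).symm
  · rw [hSER F R M s h0 h1 a]
    exact Finset.prod_congr rfl fun i _ => jh_cp F (e' i) a
  · exact Nat.card_congr (Equiv.subtypeEquivRight fun i =>
      ⟨fun ⟨f⟩ => ⟨(e' i).symm.trans f⟩, fun ⟨f⟩ => ⟨(e' i).trans f⟩⟩)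

lemma jh_rep {F H V : Type} [Field F] [Group H] [AddCommGroup V] [Module F V]
    [FiniteDimensional F V] (ρ : Representation F H V) (g : H) :
    cp F ρ.asModule (MonoidAlgebra.single g (1 : F)) = (ρ g).charpoly := by
  unfold cp
  rw [← ρ.asModuleEquiv.charpoly_conj]
  congr 1
  ext x
  simp [LinearEquiv.conj_apply]
  rfl

theorem p_JH (hSER : S_SER) (hBN : S_BN) :
    S_JH := by
  intro F H V V' W _ _ _ _ _ _ _ _ _ _ _ ρ ρ' a m m' h N N' ⟨s, s0, s1, hs⟩ ⟨t, t0, t1, ht⟩
  obtain ⟨I, fI, I1, I2, I3⟩ := jh_fac hSER F s s0 s1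
  obtain ⟨J, fJ, J1, J2, J3⟩ := jh_fac hSER F t t0 t1
  rw [← hs, ← ht, I3, J3]
  refine hBN F (MonoidAlgebra F H) (Set.range fun g : H => MonoidAlgebra.single g (1 : F)) ?_
    _ _ I J m m' I1 J1 ?_ _
  · refine Submodule.eq_top_iff'.2 fun x => ?_
    induction x using MonoidAlgebra.induction_on with
    | of g => exact Submodule.subset_span ⟨g, rfl⟩
    | add x y hx hy => exact add_mem hx hy
    | smul r x hx => exact Submodule.smul_mem _ r hx
  · rintro _ ⟨g, rfl⟩
    rw [← I2, ← J2, jh_rep, jh_rep, h g]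

end Pool.Agent.P.MP_7cb106_nt.T

end TJH

namespace Pool.Agent.P.MP_7cb106_nt.T

theorem all_AVG : S_AVG := p_AVG
theorem all_TRADD : S_TRADD := p_TRADD
theorem all_CHAR : S_CHAR := p_CHAR
theorem all_SUBQ : S_SUBQ := p_SUBQ all_AVG
theorem all_DEV : S_DEV := p_DEV all_AVG all_TRADD all_SUBQ
theorem all_AUT : S_AUT := p_AUT
theorem all_EIG : S_EIG := p_EIG
theorem all_GEO : S_GEO := p_GEO
theorem all_GLOB : S_GLOB := p_GLOB all_CHAR all_DEV all_AUT all_EIG all_GEO
theorem all_IVT : S_IVT := p_IVT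
theorem all_HEN : S_HEN := p_HEN
theorem all_TR : S_TR := p_TR all_IVT all_HEN
theorem all_BAS : S_BAS := p_BAS all_TR
theorem all_REV : S_REV := p_REV
theorem all_FLD : S_FLD := p_FLD
theorem all_CMF : S_CMF := p_CMF all_BAS all_REV all_FLD
theorem all_BETA : S_BETA := p_BETA
theorem all_GOOD : S_GOOD := p_GOOD all_BETA
theorem all_GZ : S_GZ := p_GZ
theorem all_HF : S_HF := p_HF
theorem all_DEN : S_DEN := p_DEN
theorem all_DUAL : S_DUAL := p_DUAL
theorem all_LAT : S_LAT := p_LAT all_DEN all_DUAL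
theorem all_ISO : S_ISO := p_ISO all_DEN
theorem all_CS : S_CS := p_CS
theorem all_ZB : S_ZB := p_ZB
theorem all_HER : S_HER := p_HER
theorem all_SHORT : S_SHORT := p_SHORT all_DUAL all_CS all_ZB all_HER
theorem all_GRAM : S_GRAM := p_GRAM
theorem all_COC : S_COC := p_COC all_LAT all_ISO all_SHORT all_GRAM
theorem all_IDX : S_IDX := p_IDX
theorem all_UNI : S_UNI := p_UNI
theorem all_CONJ : S_CONJ := p_CONJ all_UNI
theorem all_QUO : S_QUO := p_QUO
theorem all_POW : S_POW := p_POW all_QUO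
theorem all_NEWT : S_NEWT := p_NEWT all_POW
theorem all_CPD : S_CPD := p_CPD
theorem all_SEMI : S_SEMI := p_SEMI
theorem all_RIG : S_RIG := p_RIG all_SEMI
theorem all_TOP : S_TOP := p_TOP
theorem all_NIL : S_NIL := p_NIL
theorem all_LIFT : S_LIFT := p_LIFT all_TOP all_NIL
theorem all_ARI : S_ARI := p_ARI all_CPD all_CMF all_GOOD all_GZ all_HF all_COC all_IDX all_CONJ all_NEWT all_RIG
theorem all_RED : S_RED := p_RED all_TOP all_LIFT all_ARI all_GLOB all_NEWT
theorem all_SER : S_SER := p_SER all_QUO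
theorem all_IND : S_IND := p_IND
theorem all_BN : S_BN := p_BN all_IND
theorem all_JH : S_JH := p_JH all_SER all_BN

end Pool.Agent.P.MP_7cb106_nt.T
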